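import Pool.Agent.Helper79.NC.Spec2

/-!
# Module M8 of `MP_4787eb_gt`: the two closed geodesics are not homotopic through closed geodesics
-/

set_option maxSynthPendingDepth 3

namespace Pool.Agent.Helper79.NC

open scoped ContDiff Topology
open Set Filter

theorem TubeData.normSq_lt_u1 (T : TubeData) {z : ℂ} (hz : T.Φ z = 0) :
    Complex.normSq z < T.u1 := by
  by_contra h
  push Not at h
  have h1 := T.Φ_eq z (lt_of_lt_of_le T.u01 h)
  have h2 := T.P_pos _ h
  rw [← h1, hz] at h2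
  exact lt_irrefl _ h2

theorem TubeData.u1_lt_one (T : TubeData) : T.u1 < 1 := by
  have h1 := T.u12; have h2 := T.u22; have h3 := T.u23; have h4 := T.u3_lt
  linarith

theorem norm_lt_one_of_normSq {z : ℂ} (h : Complex.normSq z < 1) : ‖z‖ < 1 := by
  rw [Complex.normSq_eq_norm_sq] at h
  nlinarith [norm_nonneg z]

theorem TubeData.norm_lt_one (T : TubeData) {z : ℂ} (hz : T.Φ z = 0) : ‖z‖ < 1 :=
  norm_lt_one_of_normSq ((T.normSq_lt_u1 hz).trans T.u1_lt_one)

theorem TubeData.F_pos (T : TubeData) (w : ℂ) : 0 < T.F w := by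
  unfold TubeData.F
  have := T.κ_pos w
  positivity

theorem TubeData.fderiv_Φ_zero (T : TubeData) {z : ℂ} (hz : T.Φ z = 0) :
    fderiv ℝ T.Φ z = 0 := by
  have h : IsLocalMin T.Φ z := by
    refine Filter.Eventually.of_forall fun w => ?_
    rw [hz]; exact T.Φ_nonneg w
  exact h.fderiv_eq_zero

theorem TubeData.hasFDerivAt_F (T : TubeData) (z : ℂ) :
    HasFDerivAt T.F ((2 * (T.F z) ^ 2) • fderiv ℝ T.Φ z) z := by
  have h1 : HasFDerivAt T.Φ (fderiv ℝ T.Φ z) z :=
    (T.hΦ.differentiable (by simp) z).hasFDerivAt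
  have h2 : HasFDerivAt (fun w => T.κ - 2 * T.Φ w) (-((2 : ℝ) • fderiv ℝ T.Φ z)) z :=
    (h1.const_mul 2).const_sub T.κ
  have h0 : T.κ - 2 * T.Φ z ≠ 0 := (T.κ_pos z).ne'
  have h3 := (hasDerivAt_inv h0).comp_hasFDerivAt z h2
  have h4 : T.F = (fun x : ℝ => x⁻¹) ∘ fun w => T.κ - 2 * T.Φ w := by
    funext w; simp [TubeData.F]
  have h5 : (2 * (T.F z) ^ 2) • fderiv ℝ T.Φ z =
      -((T.κ - 2 * T.Φ z) ^ 2)⁻¹ • -((2 : ℝ) • fderiv ℝ T.Φ z) := by
    rw [smul_neg, neg_smul, neg_neg, smul_smul, h4]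
    congr 1
    simp only [Function.comp, inv_pow]
    ring
  rw [h5, h4]
  exact h3

theorem hasDerivAt_line (z : ℂ) (ℓ t : ℝ) :
    HasDerivAt (fun t => ((z, ℓ * t) : E3)) ((0, ℓ) : E3) t := by
  have h1 : HasDerivAt (fun _ : ℝ => z) 0 t := hasDerivAt_const t z
  have h2 : HasDerivAt (fun t : ℝ => ℓ * t) ℓ t := by
    simpa using (hasDerivAt_id t).const_mul ℓ
  exact h1.prodMk h2

theorem isOpen_tube : IsOpen {x : E3 | ‖x.1‖ < 1} :=
  isOpen_lt (continuous_fst.norm) continuous_const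

theorem GlobalData.eventually_tube {Γ : Type} [Group Γ] [MulAction Γ E3] {T : TubeData}
    {g : E3 → E3 →L[ℝ] E3 →L[ℝ] ℝ} (hD : GlobalData Γ T g) {x : E3} (hx : ‖x.1‖ < 1) :
    ∀ᶠ y in 𝓝 x, g y = tubeMetric T.F T.σ y := by
  filter_upwards [isOpen_tube.mem_nhds hx] with y hy using hD.tube y hy

/-- The line over a zero of `Φ` is a geodesic. -/
theorem line_isGeodesic {Γ : Type} [Group Γ] [MulAction Γ E3] {T : TubeData}
    {g : E3 → E3 →L[ℝ] E3 →L[ℝ] ℝ} (hD : GlobalData Γ T g) {z : ℂ} (hz : T.Φ z = 0) (ℓ : ℝ) :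
    IsGeodesic g (fun t => ((z, ℓ * t) : E3)) := by
  have hz1 := T.norm_lt_one hz
  have hder : ∀ t, deriv (fun t => ((z, ℓ * t) : E3)) t = (0, ℓ) := fun t =>
    (hasDerivAt_line z ℓ t).deriv
  refine ⟨?_, ?_⟩
  · exact contDiff_const.prodMk (contDiff_const.mul contDiff_id)
  · intro t e
    have h1 : (fun τ => g ((z, ℓ * τ) : E3) (deriv (fun t => ((z, ℓ * t) : E3)) τ) e) =
        fun _ => T.F z * ℓ * e.2 := by
      funext τ
      rw [hder τ, hD.tube _ hz1, tubeMetric_apply]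
      simp [dot]
    rw [h1, deriv_const]
    have h2 : (fun x => g x (deriv (fun t => ((z, ℓ * t) : E3)) t)
        (deriv (fun t => ((z, ℓ * t) : E3)) t)) =ᶠ[𝓝 ((z, ℓ * t) : E3)]
        fun x => T.F x.1 * ℓ * ℓ := by
      filter_upwards [hD.eventually_tube (x := ((z, ℓ * t) : E3)) hz1] with y hy
      rw [hy, hder t, tubeMetric_apply]
      simp [dot]
    have h3 : HasFDerivAt (fun x : E3 => T.F x.1 * ℓ * ℓ) (0 : E3 →L[ℝ] ℝ)
        ((z, ℓ * t) : E3) := by
      have h4 := T.hasFDerivAt_F z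
      rw [T.fderiv_Φ_zero hz, smul_zero] at h4
      have h5 : HasFDerivAt (fun x : E3 => T.F x.1)
          ((0 : ℂ →L[ℝ] ℝ).comp (ContinuousLinearMap.fst ℝ ℂ ℝ)) ((z, ℓ * t) : E3) :=
        HasFDerivAt.comp (g := T.F) (f := Prod.fst) ((z, ℓ * t) : E3) h4 hasFDerivAt_fst
      have h6 := (h5.mul_const ℓ).mul_const ℓ
      simpa using h6
    rw [h2.fderiv_eq, h3.fderiv]
    simp

/-- Local rigidity: a geodesic invariant under `θ ↦ θ + ℓ` whose projection stays in a ball where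
a Lyapunov function exists is a line over a zero of `Φ`. -/
theorem rigid (hG : GeoFlat) {Γ : Type} [Group Γ] [MulAction Γ E3] {T : TubeData}
    {g : E3 → E3 →L[ℝ] E3 →L[ℝ] ℝ} (hD : GlobalData Γ T g) {U : Set ℂ} (hU : IsOpen U)
    (hU1 : ∀ x ∈ U, ‖x‖ < 1) (hU2 : ∀ x ∈ U, Complex.normSq x < T.u2')
    (V : ℂ → ℝ) (hV : ContDiffOn ℝ 2 V U)
    (hV2 : ∀ x ∈ U, (∀ X : ℂ, X ≠ 0 → 0 < fderiv ℝ (fderiv ℝ V) x X X) ∧
      0 ≤ fderiv ℝ V x (gradC T.Φ x))
    {c : ℝ → E3} (hc : IsGeodesic g c) (hc0 : ∃ t, deriv c t ≠ 0) {ℓ : ℝ}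
    (hper : ∀ t, c (t + 1) = ((c t).1, (c t).2 + ℓ)) (hcU : ∀ t, (c t).1 ∈ U) :
    ∃ z : ℂ, T.Φ z = 0 ∧ z ∈ U ∧ ∀ t, (c t).1 = z := by
  have hcd : ∀ t, HasDerivAt c (deriv c t) t := fun t =>
    (hc.smooth.differentiable (by simp) t).hasDerivAt
  have hc' : ContDiff ℝ ∞ (deriv c) := (contDiff_infty_iff_deriv.mp hc.smooth).2
  have hcdd : ∀ t, HasDerivAt (deriv c) (deriv (deriv c) t) t := fun t =>
    (hc'.differentiable (by simp) t).hasDerivAt
  have hw : ∀ t, HasDerivAt (fun t => (c t).1) (deriv c t).1 t := fun t => (hcd t).fst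
  have hw' : ∀ t, HasDerivAt (fun t => (deriv c t).1) (deriv (deriv c) t).1 t := fun t =>
    (hcdd t).fst
  have hev : ∀ t, ∀ᶠ x in 𝓝 (c t), g x = tubeMetric T.F T.σ x := fun t =>
    hD.eventually_tube (hU1 _ (hcU t))
  -- periodicity of the derivative
  have hdper : ∀ t, deriv c (t + 1) = deriv c t := by
    intro t
    have h1 : HasDerivAt (fun s => c (s + 1)) (deriv c (t + 1)) t := by
      have := (hcd (t + 1)).comp_add_const t 1
      exact this
    have h2 : (fun s => c (s + 1)) = fun s => c s + ((0, ℓ) : E3) := by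
      funext s
      rw [hper s]
      ext <;> simp
    rw [h2] at h1
    have h3 : HasDerivAt (fun s => c s + ((0, ℓ) : E3)) (deriv c t) t := (hcd t).add_const _
    exact h1.unique h3
  -- angular momentum
  have hC0 : ∀ t, HasDerivAt (fun t => T.F (c t).1 * (deriv c t).2) 0 t := fun t =>
    (hG T g c hc t (hev t)).1
  have hCc : ∀ t, T.F (c t).1 * (deriv c t).2 = T.F (c 0).1 * (deriv c 0).2 := by
    intro t
    exact is_const_of_deriv_eq_zero (f := fun t => T.F (c t).1 * (deriv c t).2)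
      (fun t => (hC0 t).differentiableAt) (fun t => (hC0 t).deriv) t 0
  set C : ℝ := T.F (c 0).1 * (deriv c 0).2 with hC
  have hacc : ∀ t (e : ℂ), dot (deriv (deriv c) t).1 e = C ^ 2 * fderiv ℝ T.Φ (c t).1 e := by
    intro t e
    have := (hG T g c hc t (hev t)).2 (hU2 _ (hcU t)) e
    rwa [hCc t] at this
  have haccC : ∀ t, (deriv (deriv c) t).1 = (C ^ 2) • gradC T.Φ (c t).1 := by
    intro t
    have h1 := hacc t 1
    have h2 := hacc t Complex.I
    simp only [dot, Complex.one_re, Complex.one_im, Complex.I_re, Complex.I_im, mul_one,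
      mul_zero, add_zero, zero_add] at h1 h2
    apply Complex.ext
    · rw [h1, Complex.smul_re]; rfl
    · rw [h2, Complex.smul_im]; rfl
  -- the function V o w
  have hVat : ∀ x ∈ U, ContDiffAt ℝ 2 V x := fun x hx => hV.contDiffAt (hU.mem_nhds hx)
  have hVd : ∀ x ∈ U, HasFDerivAt V (fderiv ℝ V x) x := fun x hx =>
    ((hVat x hx).differentiableAt (by norm_num)).hasFDerivAt
  have hVdd : ∀ x ∈ U, HasFDerivAt (fderiv ℝ V) (fderiv ℝ (fderiv ℝ V) x) x := fun x hx =>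
    (((hVat x hx).fderiv_right (m := 1) (by norm_num)).differentiableAt (by norm_num)).hasFDerivAt
  set f' : ℝ → ℝ := fun t => fderiv ℝ V (c t).1 (deriv c t).1 with hf'
  have hf'd : ∀ t, HasDerivAt f' (fderiv ℝ (fderiv ℝ V) (c t).1 (deriv c t).1 (deriv c t).1 +
      fderiv ℝ V (c t).1 (deriv (deriv c) t).1) t := by
    intro t
    have h1 : HasDerivAt (fun t => fderiv ℝ V (c t).1)
        (fderiv ℝ (fderiv ℝ V) (c t).1 (deriv c t).1) t :=
      (hVdd _ (hcU t)).comp_hasDerivAt t (hw t)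
    exact h1.clm_apply (hw' t)
  have hpos1 : ∀ t, 0 ≤ fderiv ℝ (fderiv ℝ V) (c t).1 (deriv c t).1 (deriv c t).1 := by
    intro t
    by_cases h : (deriv c t).1 = 0
    · rw [h]; simp
    · exact ((hV2 _ (hcU t)).1 _ h).le
  have hpos2 : ∀ t, 0 ≤ fderiv ℝ V (c t).1 (deriv (deriv c) t).1 := by
    intro t
    rw [haccC t, map_smul, smul_eq_mul]
    exact mul_nonneg (sq_nonneg _) (hV2 _ (hcU t)).2
  have hmono : Monotone f' := by
    refine monotone_of_deriv_nonneg (fun t => (hf'd t).differentiableAt) fun t => ?_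
    rw [(hf'd t).deriv]
    exact add_nonneg (hpos1 t) (hpos2 t)
  have hf'per : ∀ t, f' (t + 1) = f' t := by
    intro t
    simp only [hf', hdper t, hper t]
  have hf'pern : ∀ (n : ℕ) t, f' (t + n) = f' t := by
    intro n
    induction n with
    | zero => intro t; simp
    | succ n ih =>
      intro t
      have : t + ((n + 1 : ℕ) : ℝ) = (t + n) + 1 := by push_cast; ring
      rw [this, hf'per, ih]
  have hf'const : ∀ s t, f' s = f' t := by
    have key : ∀ s t, s ≤ t → f' t ≤ f' s := by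
      intro s t hst
      obtain ⟨n, hn⟩ := exists_nat_ge (t - s)
      have h1 : t ≤ s + n := by linarith
      have h2 := hmono h1
      rwa [hf'pern n s] at h2
    intro s t
    rcases le_total s t with h | h
    · exact le_antisymm (hmono h) (key s t h)
    · exact le_antisymm (key t s h) (hmono h)
  have hw0 : ∀ t, (deriv c t).1 = 0 := by
    intro t
    have h1 : f' = fun _ => f' 0 := by funext s; exact hf'const s 0
    have h2 := hf'd t
    rw [h1] at h2
    have h3 := h2.unique (hasDerivAt_const t (f' 0))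
    have h4 : fderiv ℝ (fderiv ℝ V) (c t).1 (deriv c t).1 (deriv c t).1 = 0 := by
      have := hpos1 t; have := hpos2 t; linarith
    by_contra hne
    exact (((hV2 _ (hcU t)).1 _ hne).ne') h4
  have hconst : ∀ t, (c t).1 = (c 0).1 := by
    intro t
    exact is_const_of_deriv_eq_zero (f := fun t => (c t).1)
      (fun t => (hw t).differentiableAt) (fun t => by rw [(hw t).deriv]; exact hw0 t) t 0
  have hdd0 : ∀ t, (deriv (deriv c) t).1 = 0 := by
    intro t
    have h1 : (fun t => (deriv c t).1) = fun _ => (0 : ℂ) := funext hw0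
    have h2 := hw' t
    rw [h1] at h2
    exact h2.unique (hasDerivAt_const t (0 : ℂ))
  have hCne : C ≠ 0 := by
    obtain ⟨t, ht⟩ := hc0
    have h1 : (deriv c t).2 ≠ 0 := by
      intro h
      apply ht
      ext1
      · exact hw0 t
      · exact h
    rw [← hCc t]
    exact mul_ne_zero (T.F_pos _).ne' h1
  have hΦ0 : fderiv ℝ T.Φ (c 0).1 = 0 := by
    ext e
    have h1 := hacc 0 e
    rw [hdd0 0] at h1
    have h2 : C ^ 2 * fderiv ℝ T.Φ (c 0).1 e = 0 := by
      rw [← h1]; simp [dot]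
    rcases mul_eq_zero.1 h2 with h | h
    · exact absurd h (pow_ne_zero 2 hCne)
    · simpa using h
  exact ⟨(c 0).1, T.crit0 _ (hU2 _ (hcU 0)) hΦ0, hcU 0, hconst⟩

theorem notHomotopic' (hG : GeoFlat) (hLH : LiftHomotopy) : NotHomotopic := by
  intro Γ _ _ T g hD τ ℓ hℓ hτ γ₀ γ₁ hγ₀ hγ₁ hhom
  obtain ⟨H, hHc, hH0, hHs, δ, hδ⟩ := hLH Γ g hD.presents τ (fun t => ((T.z0, ℓ * t) : E3))
    (fun t => ((0, ℓ * t) : E3)) γ₀ γ₁ (line_isGeodesic hD T.Φ_z0 ℓ)
    (line_isGeodesic hD T.Φ_zero ℓ) (fun t => by rw [hτ]; simp [mul_add]) hγ₀ hγ₁ hhom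
  have hper : ∀ s ∈ Icc (0 : ℝ) 1, ∀ t, H s (t + 1) = ((H s t).1, (H s t).2 + ℓ) := by
    intro s hs t
    rw [(hHs s hs).2.2 t, hτ]
  have hfst : ContinuousOn (fun p : ℝ × ℝ => (H p.1 p.2).1) (Icc 0 1 ×ˢ univ) :=
    continuous_fst.comp_continuousOn hHc
  have hpath : ∀ t, ContinuousOn (fun s => (H s t).1) (Icc 0 1) := by
    intro t
    refine hfst.comp (f := fun s : ℝ => (s, t)) (by fun_prop) ?_
    intro s hs
    exact ⟨hs, mem_univ _⟩
  -- the set of good parameters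
  set A : Set ℝ := {s | s ∈ Icc (0 : ℝ) 1 ∧ ∃ z, T.Φ z = 0 ∧ ∀ t, (H s t).1 = z} with hA
  have hA' : A = {s | s ∈ Icc (0 : ℝ) 1 ∧ T.Φ ((H s 0).1) = 0 ∧ ∀ t, (H s t).1 = (H s 0).1} := by
    ext s
    constructor
    · rintro ⟨hs, z, hz, h⟩
      exact ⟨hs, by rw [h 0]; exact hz, fun t => by rw [h t, h 0]⟩
    · rintro ⟨hs, hz, h⟩
      exact ⟨hs, _, hz, h⟩
  have hAcl : IsClosed A := by
    rw [← isSeqClosed_iff_isClosed]
    intro u s hu hlim
    rw [hA'] at hu ⊢
    have hsI : s ∈ Icc (0 : ℝ) 1 := isClosed_Icc.mem_of_tendsto hlim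
      (Eventually.of_forall fun n => (hu n).1)
    have hlim' : ∀ t, Tendsto (fun n => (H (u n) t).1) atTop (𝓝 ((H s t).1)) := by
      intro t
      have h1 : Tendsto u atTop (𝓝[Icc 0 1] s) :=
        tendsto_nhdsWithin_iff.2 ⟨hlim, Eventually.of_forall fun n => (hu n).1⟩
      exact ((hpath t) s hsI).tendsto.comp h1
    refine ⟨hsI, ?_, ?_⟩
    · have h1 : Tendsto (fun n => T.Φ ((H (u n) 0).1)) atTop (𝓝 (T.Φ ((H s 0).1))) :=
        (T.hΦ.continuous.tendsto _).comp (hlim' 0)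
      have h2 : (fun n => T.Φ ((H (u n) 0).1)) = fun _ => 0 := by
        funext n; exact (hu n).2.1
      rw [h2] at h1
      exact (tendsto_nhds_unique h1 tendsto_const_nhds)
    · intro t
      have h1 := hlim' t
      have h2 : (fun n => (H (u n) t).1) = fun n => (H (u n) 0).1 := by
        funext n; exact (hu n).2.2 t
      rw [h2] at h1
      exact tendsto_nhds_unique h1 (hlim' 0)
  -- starting from the strand, one stays off the disc
  have hstay : ∀ s ∈ Icc (0 : ℝ) 1, (∀ r ∈ Icc (0 : ℝ) s, r ∈ A) → T.ρ0 < ‖(H s 0).1‖ := by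
    intro s hs hr
    have h1 := T.path (fun r => (H (s * r) 0).1) ?_ ?_ ?_
    · simpa using h1
    · refine (hpath 0).comp (f := fun r : ℝ => s * r) (by fun_prop) ?_
      intro r hr
      exact ⟨mul_nonneg hs.1 hr.1, mul_le_one₀ hs.2 hr.1 hr.2⟩
    · intro r hr'
      have h2 : s * r ∈ Icc (0 : ℝ) s :=
        ⟨mul_nonneg hs.1 hr'.1, mul_le_of_le_one_right hs.1 hr'.2⟩
      have h3 := hr _ h2
      rw [hA'] at h3
      exact h3.2.1
    · simp only [mul_zero, hH0]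
      exact T.z0_gt
  -- openness
  have hopen : ∀ s ∈ A, T.ρ0 < ‖(H s 0).1‖ → ∀ᶠ r in 𝓝 s, r ∈ Icc (0 : ℝ) 1 → r ∈ A := by
    intro s hs hρ
    rw [hA'] at hs
    obtain ⟨hsI, hz, hconst⟩ := hs
    obtain ⟨V, r, hr, hV, hV2⟩ := T.lyap _ hρ hz
    set z := (H s 0).1 with hzdef
    set U : Set ℂ := Metric.ball z r ∩ {x | Complex.normSq x < T.u1} with hU
    have hUo : IsOpen U := Metric.isOpen_ball.inter
      (isOpen_lt Complex.continuous_normSq continuous_const)
    have hzU : z ∈ U := ⟨Metric.mem_ball_self hr, T.normSq_lt_u1 hz⟩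
    have hU1 : ∀ x ∈ U, ‖x‖ < 1 := fun x hx =>
      norm_lt_one_of_normSq (lt_trans hx.2 T.u1_lt_one)
    have hU2 : ∀ x ∈ U, Complex.normSq x < T.u2' := fun x hx =>
      lt_trans hx.2 (T.u12.trans T.u22)
    have h1 : ∀ᶠ q in 𝓝 s, ∀ t ∈ Icc (0 : ℝ) 1, q ∈ Icc (0 : ℝ) 1 → (H q t).1 ∈ U := by
      refine isCompact_Icc.eventually_forall_of_forall_eventually
        (P := fun q t => q ∈ Icc (0 : ℝ) 1 → (H q t).1 ∈ U) fun t _ => ?_
      have h2 := hfst (s, t) ⟨hsI, mem_univ _⟩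
      have h3 : ∀ᶠ p in 𝓝[Icc 0 1 ×ˢ univ] (s, t), (H p.1 p.2).1 ∈ U := by
        refine h2.eventually_mem ?_
        simp only
        rw [hconst t]
        exact hUo.mem_nhds hzU
      rw [eventually_nhdsWithin_iff] at h3
      filter_upwards [h3] with p hp hp1
      exact hp ⟨hp1, mem_univ _⟩
    filter_upwards [h1] with q hq hqI
    have hqU : ∀ t, (H q t).1 ∈ U := by
      intro t
      have hp : Function.Periodic (fun t => (H q t).1) 1 := by
        intro t
        show (H q (t + 1)).1 = (H q t).1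
        rw [hper q hqI t]
      obtain ⟨y, hy, hty⟩ := hp.exists_mem_Ico₀ one_pos t
      have h3 := hq y ⟨hy.1, hy.2.le⟩ hqI
      have hty' : (H q t).1 = (H q y).1 := hty
      rw [hty']
      exact h3
    obtain ⟨hgeo, hnc, -⟩ := hHs q hqI
    obtain ⟨z', hz', -, hc'⟩ := rigid hG hD hUo hU1 hU2 V (hV.mono inter_subset_left)
      (fun x hx => hV2 x hx.1) hgeo hnc (hper q hqI) hqU
    exact ⟨hqI, z', hz', hc'⟩
  -- the whole interval
  have hall : Icc (0 : ℝ) 1 ⊆ {s | ∀ r ∈ Icc (0 : ℝ) s, r ∈ A} := by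
    refine IsClosed.Icc_subset_of_forall_exists_gt ?_ ?_ ?_
    · rw [← isSeqClosed_iff_isClosed]
      intro u s hu hlim
      have hsI : s ∈ Icc (0 : ℝ) 1 := isClosed_Icc.mem_of_tendsto hlim
        (Eventually.of_forall fun n => (hu n).2)
      refine ⟨?_, hsI⟩
      have hlt : ∀ r ∈ Ico (0 : ℝ) s, r ∈ A := by
        intro r hr
        have h1 : ∀ᶠ n in atTop, r < u n := hlim.eventually (lt_mem_nhds hr.2)
        obtain ⟨n, hn⟩ := h1.exists
        exact (hu n).1 r ⟨hr.1, hn.le⟩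
      intro r hr
      rcases hr.2.lt_or_eq with h | h
      · exact hlt r ⟨hr.1, h⟩
      · subst h
        rcases hr.1.lt_or_eq with h0 | h0
        · have h2 : r ∈ closure (Ico (0 : ℝ) r) := by
            rw [closure_Ico h0.ne]
            exact ⟨hr.1, le_rfl⟩
          exact hAcl.closure_subset_iff.2 hlt h2
        · rw [← h0]
          have h3 := (hu 0).1 0 ⟨le_rfl, (hu 0).2.1⟩
          exact h3
    · intro r hr
      have h0 : r = 0 := le_antisymm hr.2 hr.1
      subst h0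
      refine ⟨⟨le_rfl, zero_le_one⟩, T.z0, T.Φ_z0, fun t => ?_⟩
      rw [hH0]
    · rintro x ⟨hx, hx1⟩ y hy
      have hxI : x ∈ Icc (0 : ℝ) 1 := ⟨hx1.1, hx1.2.le⟩
      have hρ := hstay x hxI hx
      have hev := hopen x (hx x ⟨hx1.1, le_rfl⟩) hρ
      rw [Metric.eventually_nhds_iff] at hev
      obtain ⟨ε, hε, hε2⟩ := hev
      set q := min (min y 1) (x + ε / 2) with hq
      have hxq : x < q := by
        refine lt_min (lt_min hy hx1.2) (by linarith)
      have hqy : q ≤ y := (min_le_left _ _).trans (min_le_left _ _)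
      have hq1 : q ≤ 1 := (min_le_left _ _).trans (min_le_right _ _)
      have hqε : q ≤ x + ε / 2 := min_le_right _ _
      refine ⟨q, ?_, hxq, hqy⟩
      intro r hr
      rcases le_or_gt r x with h | h
      · exact hx r ⟨hr.1, h⟩
      · refine hε2 ?_ ⟨hr.1, hr.2.trans hq1⟩
        rw [Real.dist_eq, abs_of_pos (by linarith)]
        linarith [hr.2]
  have h1mem : ∀ r ∈ Icc (0 : ℝ) 1, r ∈ A := hall ⟨zero_le_one, le_rfl⟩
  have hρ1 := hstay 1 ⟨zero_le_one, le_rfl⟩ h1mem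
  have h1A := h1mem 1 ⟨zero_le_one, le_rfl⟩
  rw [hA'] at h1A
  have hlt1 : ‖(H 1 0).1‖ < 1 := T.norm_lt_one h1A.2.1
  have hδ0 : H 1 0 = δ • ((0, ℓ * 0) : E3) := hδ 0
  obtain ⟨ℓ', hℓ'⟩ := hD.lattice.tube δ ((0, ℓ * 0) : E3) (by simp) (by rw [← hδ0]; exact hlt1)
  rw [hδ0, hℓ'] at hρ1
  simp only [norm_zero] at hρ1
  exact lt_irrefl _ (hρ1.trans T.ρ0_pos)

theorem notHomotopic (hG : GeoFlat) (_hI : IsoGeodesic) (hLH : LiftHomotopy) : NotHomotopic :=
  notHomotopic' hG hLH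

end Pool.Agent.Helper79.NC

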