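import Pool.Agent.Helper93.Hover

set_option autoImplicit false

namespace Pool.Agent.Helper93

/-- common denominator of the thresholds in the tables -/
def cdd : ℕ := 1000000000000

theorem cdd_pos : 0 < cdd := by unfold cdd; norm_num

theorem split_liftN (Q : ℕ → Prop) (N r : ℕ)
    (h0 : ∀ s : ℕ, Q (r + 3 ^ (N + 1) * s))
    (h1 : ∀ s : ℕ, Q (r + 3 ^ N + 3 ^ (N + 1) * s))
    (h2 : ∀ s : ℕ, Q (r + 3 ^ N + 3 ^ N + 3 ^ (N + 1) * s)) :
    ∀ s : ℕ, Q (r + 3 ^ N * s) := by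
  intro s
  have hs : s = 3 * (s / 3) + s % 3 := by omega
  have hlt : s % 3 = 0 ∨ s % 3 = 1 ∨ s % 3 = 2 := by omega
  rcases hlt with h | h | h
  · have := h0 (s / 3)
    have e : r + 3 ^ (N + 1) * (s / 3) = r + 3 ^ N * s := by
      rw [pow_succ]; nth_rewrite 2 [hs]; rw [h]; ring
    rwa [e] at this
  · have := h1 (s / 3)
    have e : r + 3 ^ N + 3 ^ (N + 1) * (s / 3) = r + 3 ^ N * s := by
      rw [pow_succ]; nth_rewrite 2 [hs]; rw [h]; ring
    rwa [e] at this
  · have := h2 (s / 3)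
    have e : r + 3 ^ N + 3 ^ N + 3 ^ (N + 1) * (s / 3) = r + 3 ^ N * s := by
      rw [pow_succ]; nth_rewrite 2 [hs]; rw [h]; ring
    rwa [e] at this

/-- run several words (separated by zero digits) from the same start and collect the end points -/
def collect (z : ℕ) (fin : List (ℕ × ℕ × ℕ) → Bool) : ℕ → ℕ → List (ℕ × ℕ × ℕ) → Bool
  | 0, _, _ => false
  | f + 1, w, acc =>
    bif Nat.beq w 0 then fin acc
    else runZ (fun w' z' j k =>
      force w' fun w' => force z' fun z' => force j fun j => force k fun k =>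
        collect z fin f w' ((z', j, k) :: acc)) 64 w z 0 0

theorem collect_sound (z : ℕ) (fin : List (ℕ × ℕ × ℕ) → Bool) :
    ∀ f w acc, collect z fin f w acc = true →
      (∀ x ∈ acc, Path x.2.1 x.2.2 (-(z : ℤ)) (-((x.1 : ℕ) : ℤ))) →
      ∃ l : List (ℕ × ℕ × ℕ), (∀ x ∈ l, Path x.2.1 x.2.2 (-(z : ℤ)) (-((x.1 : ℕ) : ℤ))) ∧ fin l = true := by
  intro f
  induction f with
  | zero => intro w acc h; simp [collect] at h
  | succ f ih =>
    intro w acc h hacc
    rw [collect, cond_eq_ite] at h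
    split at h
    · exact ⟨acc, hacc, h⟩
    · obtain ⟨w', z', dj, dK, hp, hc⟩ := runZ_sound _ _ _ _ _ _ h
      simp only [force_eq] at hc
      rw [Nat.zero_add, Nat.zero_add] at hc
      refine ih _ _ hc ?_
      intro x hx
      rcases List.mem_cons.1 hx with rfl | hx
      · exact hp
      · exact hacc x hx

section
variable (gt ct : ℕ → ℕ)

/-- the hypothesis on smaller lengths -/
def Tab (R : ℕ) : Prop := PP R (gt R) (ct R) cdd ∧ cdd * gt R < ct R * 3 ^ R

def validB (T K t : ℕ) (x : ℕ × ℕ × ℕ) : Bool :=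
  (Nat.beq x.2.1 T && (Nat.beq x.2.2 K && Nat.beq x.1 t)) ||
    (Nat.ble (x.2.1 + 5) T && (Nat.ble 1 x.2.1 && (Nat.ble x.2.2 K && (Nat.ble x.1 (gt (T - x.2.1)) &&
      (Nat.ble 1 (x.1 % 3) &&
        Nat.ble (ct (T - x.2.1) * ((2 * t + 1) * 3 ^ (T - x.2.1))) (cdd * (2 * (2 ^ (K - x.2.2) * x.1))))))))

theorem validB_sound {T K t z : ℕ} {x : ℕ × ℕ × ℕ} (h : validB gt ct T K t x = true)
    (hp : Path x.2.1 x.2.2 (-(z : ℤ)) (-((x.1 : ℕ) : ℤ)))
    (H : ∀ R, 5 ≤ R → R < T → Tab gt ct R) (hup : 1000 * (2 ^ K * z) < VV t * 3 ^ T) :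
    Path T K (-(z : ℤ)) (-(t : ℤ)) := by
  obtain ⟨z', j, k⟩ := x
  unfold validB at h
  simp only [Bool.or_eq_true, Bool.and_eq_true] at h hp
  rcases h with ⟨h1, h2, h3⟩ | ⟨h1, h2, h3, h4, h5, h6⟩
  · have h1 := Nat.eq_of_beq_eq_true h1
    have h2 := Nat.eq_of_beq_eq_true h2
    have h3 := Nat.eq_of_beq_eq_true h3
    subst h1 h2 h3
    exact hp
  · have h1 := Nat.le_of_ble_eq_true h1
    have h2 := Nat.le_of_ble_eq_true h2
    have h3 := Nat.le_of_ble_eq_true h3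
    have h4 := Nat.le_of_ble_eq_true h4
    have h5 := Nat.le_of_ble_eq_true h5
    have h6 := Nat.le_of_ble_eq_true h6
    obtain ⟨R, rfl⟩ := Nat.exists_eq_add_of_le (show j ≤ T by omega)
    obtain ⟨L, rfl⟩ := Nat.exists_eq_add_of_le h3
    rw [Nat.add_sub_cancel_left] at h4 h6
    rw [Nat.add_sub_cancel_left] at h6
    exact land hp (H R (by omega) (by omega)).1 (by omega) h4 (by omega) h6 hup

def pairsB (T z Klo : ℕ) (l : List (ℕ × ℕ × ℕ)) : Bool :=
  (Nat.beq Klo 0 || Nat.ble (cdd * (2 ^ Klo * z) + 1) (ct T * 3 ^ T)) &&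
  Nat.ble (8400 * 3 ^ T) (1000 * (2 ^ (Klo + 5) * z)) &&
  [0, 1, 2, 3, 4].all fun e => [0, 1, 2, 3, 6].all fun t =>
    bif (Nat.ble (ct T * ((2 * t + 1) * 3 ^ T)) (cdd * (2 * (2 ^ (Klo + e) * z))) &&
      Nat.ble (1000 * (2 ^ (Klo + e) * z) + 1) (VV t * 3 ^ T)) then
      l.any (fun x => validB gt ct T (Klo + e) t x)
    else true

theorem VV_cases {t : ℕ} (h : 0 < VV t) : t = 0 ∨ t = 1 ∨ t = 2 ∨ t = 3 ∨ t = 6 := by
  unfold VV at h
  split at h <;> simp_all

theorem VV_le (t : ℕ) : VV t ≤ 8400 := by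
  unfold VV; split <;> omega

theorem pairsB_sound {T z Klo : ℕ} {l : List (ℕ × ℕ × ℕ)} (h : pairsB gt ct T z Klo l = true)
    (hp : ∀ x ∈ l, Path x.2.1 x.2.2 (-(z : ℤ)) (-((x.1 : ℕ) : ℤ)))
    (H : ∀ R, 5 ≤ R → R < T → Tab gt ct R) {t K : ℕ}
    (hlow : ct T * ((2 * t + 1) * 3 ^ T) ≤ cdd * (2 * (2 ^ K * z)))
    (hup : 1000 * (2 ^ K * z) < VV t * 3 ^ T) :
    Path T K (-(z : ℤ)) (-(t : ℤ)) := by
  unfold pairsB at h
  simp only [Bool.and_eq_true, Bool.or_eq_true] at h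
  obtain ⟨⟨h1, h2⟩, h3⟩ := h
  have h2 := Nat.le_of_ble_eq_true h2
  have hVpos : 0 < VV t := by
    rcases Nat.eq_zero_or_pos (VV t) with h | h
    · rw [h, Nat.zero_mul] at hup; omega
    · exact h
  have hK1 : Klo ≤ K := by
    by_contra hc
    push Not at hc
    rcases h1 with h1 | h1
    · have := Nat.eq_of_beq_eq_true h1
      omega
    · have h1 := Nat.le_of_ble_eq_true h1
      have e1 : 2 * (2 ^ K * z) ≤ 2 ^ Klo * z := by
        have : 2 ^ (K + 1) ≤ 2 ^ Klo := Nat.pow_le_pow_right (by norm_num) hc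
        calc 2 * (2 ^ K * z) = 2 ^ (K + 1) * z := by rw [pow_succ]; ring
          _ ≤ 2 ^ Klo * z := Nat.mul_le_mul_right _ this
      have e2 : cdd * (2 * (2 ^ K * z)) ≤ cdd * (2 ^ Klo * z) := Nat.mul_le_mul_left _ e1
      have e3 : ct T * 3 ^ T ≤ ct T * ((2 * t + 1) * 3 ^ T) := by
        apply Nat.mul_le_mul_left
        exact Nat.le_mul_of_pos_left _ (by omega)
      omega
  have hK2 : K < Klo + 5 := by
    by_contra hc
    push Not at hc
    have e1 : 2 ^ (Klo + 5) ≤ 2 ^ K := Nat.pow_le_pow_right (by norm_num) hc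
    have e2 : 1000 * (2 ^ (Klo + 5) * z) ≤ 1000 * (2 ^ K * z) :=
      Nat.mul_le_mul_left _ (Nat.mul_le_mul_right _ e1)
    have e3 : VV t * 3 ^ T ≤ 8400 * 3 ^ T := Nat.mul_le_mul_right _ (VV_le t)
    omega
  obtain ⟨e, rfl⟩ := Nat.exists_eq_add_of_le hK1
  have he : e ∈ [0, 1, 2, 3, 4] := by
    have : e < 5 := by omega
    interval_cases e <;> simp
  have ht : t ∈ [0, 1, 2, 3, 6] := by
    rcases VV_cases hVpos with h | h | h | h | h <;> subst h <;> simp
  have h4 := (List.all_eq_true.1 ((List.all_eq_true.1 h3) e he)) t ht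
  rw [cond_eq_ite] at h4
  rw [if_pos] at h4
  · obtain ⟨x, hx, hv⟩ := List.any_eq_true.1 h4
    exact validB_sound gt ct hv (hp x hx) H hup
  · rw [Bool.and_eq_true]
    exact ⟨Nat.ble_eq_true_of_le hlow, Nat.ble_eq_true_of_le hup⟩

/-- leaf checker for the table of length `T`, starts in `(lo, gt T]` -/
def chkT (T lo : ℕ) (N r p : ℕ) : Bool :=
  (Nat.ble (gt T + 1) r || (Nat.ble r lo && Nat.ble (gt T + 1) (r + 3 ^ N))) ||
  match p % 4 with
  | 1 => runZ (fun _ z' j k =>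
      Nat.ble (j + 1) N && (Nat.ble 1 (z' % 3) && (Nat.ble 1 j && (Nat.ble (j + 5) T &&
        (Nat.ble (2 ^ k * gt T) (3 ^ j * gt (T - j)) && (Nat.ble (ct (T - j)) (ct T) &&
        Nat.ble (ct T * (2 ^ k * r - 3 ^ j * z')) ((ct T - ct (T - j)) * (2 ^ k * (lo + 1))))))))) 32 (p / 4) r 0 0
  | 2 => Nat.ble (gt T + 1) (r + 3 ^ N) && runZ (fun _ z' j k =>
      Nat.ble 1 (z' % 3) && (Nat.ble 1 j && (Nat.ble (j + 5) T && (Nat.ble z' (gt (T - j)) &&
        Nat.ble (ct (T - j) * (2 ^ k * r)) (ct T * (3 ^ j * z')))))) 64 (p / 4) r 0 0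
  | 3 => Nat.ble (gt T + 1) (r + 3 ^ N) &&
      force (p / 4 % 128) fun Klo => collect r (fun l => pairsB gt ct T r Klo l) 40 (p / 512) []
  | _ => false

def QT (T lo z : ℕ) : Prop :=
  lo < z → z ≤ gt T → ¬ 3 ∣ z → ∀ t K : ℕ,
    ct T * ((2 * t + 1) * 3 ^ T) ≤ cdd * (2 * (2 ^ K * z)) → 1000 * (2 ^ K * z) < VV t * 3 ^ T →
    Path T K (-(z : ℤ)) (-(t : ℤ))

theorem chkT_sound {T lo N r p : ℕ} (h : chkT gt ct T lo N r p = true) (hct : 0 < ct T)
    (H : ∀ R, 5 ≤ R → R < T → Tab gt ct R) : ∀ s : ℕ, QT gt ct T lo (r + 3 ^ N * s) := by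
  intro s hlo hhi h3 t K hlow hup
  unfold chkT at h
  rw [Bool.or_eq_true, Bool.or_eq_true, Bool.and_eq_true] at h
  have single : gt T + 1 ≤ r + 3 ^ N → s = 0 := by
    intro h1
    rcases Nat.eq_zero_or_pos s with h | h
    · exact h
    · exfalso
      have : 3 ^ N ≤ 3 ^ N * s := Nat.le_mul_of_pos_right _ h
      omega
  rcases h with (h | ⟨h1, h2⟩) | h
  · have h := Nat.le_of_ble_eq_true h
    exfalso
    have : r ≤ r + 3 ^ N * s := Nat.le_add_right _ _
    omega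
  · have h1 := Nat.le_of_ble_eq_true h1
    have h2 := Nat.le_of_ble_eq_true h2
    have h0 := single h2
    subst h0
    exfalso
    omega
  · split at h
    · -- class leaf
      obtain ⟨w', z', j, k, hp, hc⟩ := runZ_sound _ _ _ _ _ _ h
      rw [Nat.zero_add, Nat.zero_add] at hc
      simp only [Bool.and_eq_true] at hc
      obtain ⟨c1, c2, c3, c4, c5, c6, c7⟩ := hc
      have c1 := Nat.le_of_ble_eq_true c1
      have c2 := Nat.le_of_ble_eq_true c2
      have c3 := Nat.le_of_ble_eq_true c3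
      have c4 := Nat.le_of_ble_eq_true c4
      have c5 := Nat.le_of_ble_eq_true c5
      have c6 := Nat.le_of_ble_eq_true c6
      have c7 := Nat.le_of_ble_eq_true c7
      obtain ⟨m, rfl⟩ := Nat.exists_eq_add_of_le c1
      obtain ⟨R, rfl⟩ := Nat.exists_eq_add_of_le (show j ≤ T by omega)
      rw [Nat.add_sub_cancel_left] at c5 c6 c7
      have hle := path_le hp
      have hp' := hp.translate (-(3 ^ (m + 1) * (s : ℤ)))
      have e1 : -(r : ℤ) + 3 ^ j * (-(3 ^ (m + 1) * (s : ℤ))) = -((r + 3 ^ (j + 1 + m) * s : ℕ) : ℤ) := by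
        push_cast; ring
      have e2 : -(z' : ℤ) + 2 ^ k * (-(3 ^ (m + 1) * (s : ℤ))) = -((z' + 2 ^ k * (3 ^ (m + 1) * s) : ℕ) : ℤ) := by
        push_cast; ring
      rw [e1, e2] at hp'
      have hle' := path_le hp'
      have hT := H R (by omega) (by omega)
      refine landC hp' hT.1 (by omega) ?_ ?_ ?_ cdd_pos hct hT.2 ?_ hlow hup
      · have : 0 < z' := by omega
        omega
      · -- z'' ≤ gt R
        have e : 3 ^ j * (z' + 2 ^ k * (3 ^ (m + 1) * s)) ≤ 3 ^ j * gt R := by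
          calc 3 ^ j * (z' + 2 ^ k * (3 ^ (m + 1) * s)) ≤ 2 ^ k * (r + 3 ^ (j + 1 + m) * s) := hle'
            _ ≤ 2 ^ k * gt (j + R) := Nat.mul_le_mul_left _ hhi
            _ ≤ 3 ^ j * gt R := c5
        exact Nat.le_of_mul_le_mul_left e (by positivity)
      · intro hd
        have h4 : 3 ∣ 2 ^ k * (3 ^ (m + 1) * s) :=
          Dvd.dvd.mul_left (Dvd.dvd.mul_right (dvd_pow_self 3 (Nat.succ_ne_zero m)) s) _
        have h5 : 3 ∣ z' := (Nat.dvd_add_left h4).1 hd
        omega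
      · -- cost
        obtain ⟨d, hd⟩ := Nat.exists_eq_add_of_le c6
        rw [hd, Nat.add_sub_cancel_left] at c7
        have e3 : 3 ^ j * (z' + 2 ^ k * (3 ^ (m + 1) * s)) + (2 ^ k * r - 3 ^ j * z') =
            2 ^ k * (r + 3 ^ (j + 1 + m) * s) := by
          have : 3 ^ j * (z' + 2 ^ k * (3 ^ (m + 1) * s)) = 3 ^ j * z' + 2 ^ k * (3 ^ (j + 1 + m) * s) := by ring
          rw [this]
          have : 2 ^ k * (r + 3 ^ (j + 1 + m) * s) = 2 ^ k * r + 2 ^ k * (3 ^ (j + 1 + m) * s) := by ring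
          rw [this]
          omega
        have e4 : d * (2 ^ k * (lo + 1)) ≤ d * (2 ^ k * (r + 3 ^ (j + 1 + m) * s)) :=
          Nat.mul_le_mul_left _ (Nat.mul_le_mul_left _ hlo)
        have e5 : (ct R + d) * (2 ^ k * r - 3 ^ j * z') ≤ d * (2 ^ k * (r + 3 ^ (j + 1 + m) * s)) := c7.trans e4
        rw [hd]
        generalize hA : 3 ^ j * (z' + 2 ^ k * (3 ^ (m + 1) * s)) = A at *
        generalize hW : 2 ^ k * r - 3 ^ j * z' = W at *
        generalize hM : 2 ^ k * (r + 3 ^ (j + 1 + m) * s) = M at *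
        -- A + W = M, (ct R + d) W ≤ d M ⊢ ct R * cdd * M ≤ (ct R + d) * cdd * A
        have e6 : cdd * ((ct R + d) * W) ≤ cdd * (d * M) := Nat.mul_le_mul_left _ e5
        have e7 : (ct R + d) * cdd * A + cdd * ((ct R + d) * W) = (ct R) * cdd * M + cdd * (d * M) := by
          rw [← e3]; ring
        omega
    · -- quick single
      rw [Bool.and_eq_true] at h
      obtain ⟨h1, h2⟩ := h
      have h1 := Nat.le_of_ble_eq_true h1
      have h0 := single h1
      subst h0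
      rw [Nat.mul_zero, Nat.add_zero] at *
      obtain ⟨w', z', j, k, hp, hc⟩ := runZ_sound _ _ _ _ _ _ h2
      rw [Nat.zero_add, Nat.zero_add] at hc
      simp only [Bool.and_eq_true] at hc
      obtain ⟨c1, c2, c3, c4, c5⟩ := hc
      have c1 := Nat.le_of_ble_eq_true c1
      have c2 := Nat.le_of_ble_eq_true c2
      have c3 := Nat.le_of_ble_eq_true c3
      have c4 := Nat.le_of_ble_eq_true c4
      have c5 := Nat.le_of_ble_eq_true c5
      obtain ⟨R, rfl⟩ := Nat.exists_eq_add_of_le (show j ≤ T by omega)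
      rw [Nat.add_sub_cancel_left] at c4 c5
      have hT := H R (by omega) (by omega)
      refine landC hp hT.1 (by omega) (by omega) c4 (by omega) cdd_pos hct hT.2 ?_ hlow hup
      have : cdd * (ct R * (2 ^ k * r)) ≤ cdd * (ct (j + R) * (3 ^ j * z')) := Nat.mul_le_mul_left _ c5
      calc ct R * cdd * (2 ^ k * r) = cdd * (ct R * (2 ^ k * r)) := by ring
        _ ≤ cdd * (ct (j + R) * (3 ^ j * z')) := this
        _ = ct (j + R) * cdd * (3 ^ j * z') := by ring
    · -- slow single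
      rw [Bool.and_eq_true, force_eq] at h
      obtain ⟨h1, h2⟩ := h
      have h1 := Nat.le_of_ble_eq_true h1
      have h0 := single h1
      subst h0
      rw [Nat.mul_zero, Nat.add_zero] at *
      obtain ⟨l, hl, hc⟩ := collect_sound _ _ _ _ _ h2 (by intro x hx; simp at hx)
      exact pairsB_sound gt ct hc hl H hlow hup
    · exact absurd h (by simp)

theorem tab_of_walk {T lo f d : ℕ} (h : walk (chkT gt ct T lo) f d [(1, 1), (1, 2)] = true)
    (hct : 0 < ct T) (H : ∀ R, 5 ≤ R → R < T → Tab gt ct R) :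
    ∀ z : ℕ, QT gt ct T lo z := by
  have key := walk_sound (chkT gt ct T lo) (fun N r => ∀ s : ℕ, QT gt ct T lo (r + 3 ^ N * s))
    (fun N r h0 h1 h2 => split_liftN (QT gt ct T lo) N r h0 h1 h2)
    (fun N r p hp => chkT_sound gt ct hp hct H) f d _ h
  intro z hlo hhi h3
  have hmod : z % 3 = 1 ∨ z % 3 = 2 := by omega
  rcases hmod with hm | hm
  · have := key (1, 1) (by simp) (z / 3)
    have e : ((1, 1) : ℕ × ℕ).2 + 3 ^ ((1, 1) : ℕ × ℕ).1 * (z / 3) = z := by
      simp only [pow_one]; omega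
    rw [e] at this
    exact this hlo hhi h3
  · have := key (1, 2) (by simp) (z / 3)
    have e : ((1, 2) : ℕ × ℕ).2 + 3 ^ ((1, 2) : ℕ × ℕ).1 * (z / 3) = z := by
      simp only [pow_one]; omega
    rw [e] at this
    exact this hlo hhi h3

end

end Pool.Agent.Helper93
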