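import Mathlib

/-!
Reversed dynamics for the problem: on integers y we may double, or pass from 3w-1 to w.
`Path n K y y'` says that y' is reached from y with exactly n thirdings and K doublings.
-/

set_option autoImplicit false

namespace Pool.Agent.Helper93

/-- `Path n K y y'`: from `y`, using `K` doublings and `n` moves `3w-1 ↦ w`, one reaches `y'`. -/
inductive Path : ℕ → ℕ → ℤ → ℤ → Prop
  | refl (y : ℤ) : Path 0 0 y y
  | dbl {n K : ℕ} {y w : ℤ} : Path n K y w → Path n (K + 1) y (2 * w)
  | thd {n K : ℕ} {y w : ℤ} : Path n K y (3 * w - 1) → Path (n + 1) K y w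

namespace Path

theorem trans {n K m L : ℕ} {x y z : ℤ} (h₁ : Path n K x y) (h₂ : Path m L y z) :
    Path (n + m) (K + L) x z := by
  induction h₂ with
  | refl => simpa using h₁
  | dbl _ ih => exact Path.dbl (ih h₁)
  | thd _ ih => exact Path.thd (ih h₁)

theorem translate {n K : ℕ} {y w : ℤ} (h : Path n K y w) :
    ∀ s : ℤ, Path n K (y + 3 ^ n * s) (w + 2 ^ K * s) := by
  induction h with
  | refl y => intro s; simpa using Path.refl (y + s)
  | dbl _ ih =>
    intro s
    have := Path.dbl (ih s)
    convert this using 1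
    ring
  | thd _ ih =>
    rename_i n K y w _
    intro s
    have h := ih (3 * s)
    have e1 : y + 3 ^ n * (3 * s) = y + 3 ^ (n + 1) * s := by ring
    have e2 : 3 * w - 1 + 2 ^ K * (3 * s) = 3 * (w + 2 ^ K * s) - 1 := by ring
    rw [e1, e2] at h
    exact Path.thd h

/-- doublings only -/
theorem dbls (k : ℕ) (y : ℤ) : Path 0 k y (2 ^ k * y) := by
  induction k with
  | zero => simpa using Path.refl y
  | succ k ih =>
    have := Path.dbl ih
    convert this using 1
    ring

/-- one compound step -/
theorem step {k : ℕ} {y w : ℤ} (h : 2 ^ k * y + 1 = 3 * w) : Path 1 k y w := by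
  have h1 := dbls k y
  have : (2 : ℤ) ^ k * y = 3 * w - 1 := by linarith
  rw [this] at h1
  exact Path.thd h1

/-- the affine inequality -/
theorem lower {n K : ℕ} {y w : ℤ} (h : Path n K y w) : 2 ^ K * y ≤ 3 ^ n * w := by
  induction h with
  | refl y => simp
  | dbl _ ih => rw [pow_succ]; linarith
  | thd _ ih =>
    rename_i n K y w _
    have : (0 : ℤ) < 3 ^ n := by positivity
    rw [pow_succ]
    nlinarith

theorem pos {n K : ℕ} {y w : ℤ} (h : Path n K y w) (hy : 0 < y) : 0 < w := by
  have h1 := h.lower
  have h2 : (0 : ℤ) < 3 ^ n := by positivity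
  have h3 : (0 : ℤ) < 2 ^ K * y := by positivity
  by_contra hw
  push Not at hw
  nlinarith

theorem prepend_step {n K k : ℕ} {y v w : ℤ} (h : 2 ^ k * y + 1 = 3 * v) (h2 : Path n K v w) :
    Path (n + 1) (K + k) y w := by
  have := (step h).trans h2
  rwa [add_comm 1 n, add_comm k K] at this

/-- every integer reached after at least one thirding, and extended by at least one more, is a unit mod 3;
we only need: if `3 ∣ y` then no thirding is possible. -/
theorem zero_of_dvd {n K : ℕ} {y w : ℤ} (h : Path n K y w) (hy : (3 : ℤ) ∣ y) : n = 0 ∧ (3 : ℤ) ∣ w := by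
  induction h with
  | refl y => exact ⟨rfl, hy⟩
  | dbl _ ih =>
    obtain ⟨h1, h2⟩ := ih hy
    exact ⟨h1, Dvd.dvd.mul_left h2 2⟩
  | thd _ ih =>
    obtain ⟨h1, h2⟩ := ih hy
    exfalso
    omega

end Path

end Pool.Agent.Helper93
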