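import Pool.Agent.Helper93.Levels

set_option autoImplicit false

namespace Pool.Agent.Helper93

/-- the exact-length statement for small start values -/
def EE (n : ℕ) : Prop :=
  ∀ z t K : ℕ, 0 < z → z ≤ gE n → ¬ 3 ∣ z → 27 * (2 * t + 1) * 3 ^ n ≤ 50 * (2 ^ K * z) →
    1000 * (2 ^ K * z) < VV t * 3 ^ n → Path n K (-(z : ℤ)) (-(t : ℤ))

/-- a contracting path of length at most `J` -/
def Contr (J : ℕ) (y0 : ℤ) : Prop :=
  ∃ n K : ℕ, ∃ y : ℤ, 1 ≤ n ∧ n ≤ J ∧ Path n K y0 y ∧ ¬ (3 : ℤ) ∣ y ∧ 20 * 2 ^ K ≤ 19 * 3 ^ n ∧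
    3 ^ n * y ≤ 2 ^ K * (y0 + 4 * n)

/-- a state close to a small negative integer -/
def St (N aL : ℕ) (y0 : ℤ) (c : ℕ) : Prop :=
  ∃ n1 K1 z n : ℕ, ∃ t : ℤ, n1 ≤ c ∧ n ≤ N ∧ Path n1 K1 y0 (-(z : ℤ) + 3 ^ n * t) ∧ 0 < z ∧ z ≤ gE n ∧
    ¬ 3 ∣ z ∧ ¬ (3 : ℤ) ∣ t ∧ aL * 2 ^ K1 ≤ 10000 * z * 3 ^ n1 ∧
    3 ^ (n1 + n) * t ≤ 2 ^ K1 * (y0 + 4 * (n1 + n))

def Big (J N : ℕ) (y0 : ℤ) : Prop :=
  (0 < y0 ∨ y0 + 4 * (J + 20) < 0) ∧ 44 * (|y0| + 4 * (J + 20)) < 3 ^ (N + 1)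

theorem mkState {J N : ℕ} {y0 : ℤ} (hB : Big J N y0) {n' K' z m aN : ℕ} {y : ℤ} (hn' : n' ≤ J)
    (hp : Path n' K' y0 y) (hm : (3 : ℤ) ^ m ∣ y + z) (hz3 : ¬ 3 ∣ z) (hz0 : 0 < z) (hzg : z ≤ gE m)
    (hm20 : m ≤ 20) (haN : 5000 ≤ aN) (hlev : aN * 2 ^ K' ≤ 10000 * z * 3 ^ n')
    (hW : 3 ^ n' * (y + z) ≤ 2 ^ K' * (y0 + 4 * ((n' : ℤ) + m))) :
    St N aN y0 n' := by
  obtain ⟨hsign, hsize⟩ := hB
  have hz22 : z ≤ 22 := hzg.trans (gE_le m)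
  have h3n : (0 : ℤ) < 3 ^ n' := by positivity
  have h2K : (0 : ℤ) < 2 ^ K' := by positivity
  have hlow := hp.lower
  -- multiplier bound
  have hmul : (2 : ℤ) ^ K' ≤ 44 * 3 ^ n' := by
    have h1 : 5000 * 2 ^ K' ≤ 10000 * 22 * 3 ^ n' := by
      calc 5000 * 2 ^ K' ≤ aN * 2 ^ K' := Nat.mul_le_mul_right _ haN
        _ ≤ 10000 * z * 3 ^ n' := hlev
        _ ≤ 10000 * 22 * 3 ^ n' := by
          apply Nat.mul_le_mul_right
          omega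
    have h2 : (5000 : ℤ) * 2 ^ K' ≤ 10000 * 22 * 3 ^ n' := by exact_mod_cast h1
    linarith
  have hn'J : (n' : ℤ) ≤ J := by exact_mod_cast hn'
  have hm20' : (m : ℤ) ≤ 20 := by exact_mod_cast hm20
  have hune : y + z ≠ 0 := by
    rcases hsign with h | h
    · have := hp.pos h
      omega
    · intro h0
      rw [h0, mul_zero] at hW
      have : y0 + 4 * ((n' : ℤ) + m) < 0 := by linarith
      nlinarith
  have habs : |y + z| < 3 ^ (N + 1) := by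
    rcases hsign with h | h
    · have hy := hp.pos h
      have hpos : 0 < y + z := by omega
      rw [abs_of_pos hpos]
      have h1 : 3 ^ n' * (y + z) ≤ 3 ^ n' * (44 * (|y0| + 4 * (J + 20))) := by
        have hy0 : |y0| = y0 := abs_of_pos h
        have hB0 : (0 : ℤ) ≤ y0 + 4 * ((n' : ℤ) + m) := by
          have : (0 : ℤ) ≤ n' := by positivity
          have : (0 : ℤ) ≤ m := by positivity
          linarith
        calc 3 ^ n' * (y + z) ≤ 2 ^ K' * (y0 + 4 * ((n' : ℤ) + m)) := hW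
          _ ≤ (44 * 3 ^ n') * (y0 + 4 * ((n' : ℤ) + m)) := mul_le_mul_of_nonneg_right hmul hB0
          _ ≤ (44 * 3 ^ n') * (|y0| + 4 * (J + 20)) := by
              apply mul_le_mul_of_nonneg_left _ (by positivity)
              rw [hy0]; linarith
          _ = 3 ^ n' * (44 * (|y0| + 4 * (J + 20))) := by ring
      have h2 := le_of_mul_le_mul_left h1 h3n
      linarith
    · have hneg : y + z < 0 := by
        by_contra hc
        push Not at hc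
        have h1 : (0 : ℤ) ≤ 3 ^ n' * (y + z) := by positivity
        have h2 : y0 + 4 * ((n' : ℤ) + m) < 0 := by linarith
        nlinarith
      rw [abs_of_neg hneg]
      have hy0 : |y0| = -y0 := abs_of_neg (by
        have : (0 : ℤ) ≤ J := by positivity
        linarith)
      have h1 : 3 ^ n' * (-(y + z)) ≤ 3 ^ n' * (44 * (|y0| + 4 * (J + 20))) := by
        have hz : (0 : ℤ) ≤ 3 ^ n' * z := by positivity
        have hJ : (0 : ℤ) ≤ J := by positivity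
        calc 3 ^ n' * (-(y + z)) = -(3 ^ n' * y) - 3 ^ n' * z := by ring
          _ ≤ -(2 ^ K' * y0) := by linarith
          _ = 2 ^ K' * |y0| := by rw [hy0]; ring
          _ ≤ (44 * 3 ^ n') * |y0| := mul_le_mul_of_nonneg_right hmul (abs_nonneg _)
          _ ≤ (44 * 3 ^ n') * (|y0| + 4 * (J + 20)) := by
              apply mul_le_mul_of_nonneg_left _ (by positivity)
              linarith
          _ = 3 ^ n' * (44 * (|y0| + 4 * (J + 20))) := by ring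
      have h2 := le_of_mul_le_mul_left h1 h3n
      linarith
  -- valuation
  have hfin : FiniteMultiplicity (3 : ℤ) (y + z) := by
    rw [Int.finiteMultiplicity_iff]
    exact ⟨by decide, hune⟩
  obtain ⟨t, ht, ht3⟩ := hfin.exists_eq_pow_mul_and_not_dvd
  set n := multiplicity (3 : ℤ) (y + z) with hn
  have hmn : m ≤ n := hfin.le_multiplicity_of_pow_dvd hm
  have hnN : n ≤ N := by
    by_contra hc
    push Not at hc
    have ht0 : t ≠ 0 := by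
      rintro rfl
      simp at ht3
    have h1 : (1 : ℤ) ≤ |t| := Int.one_le_abs ht0
    have h2 : |y + z| = 3 ^ n * |t| := by
      rw [ht, abs_mul, abs_of_pos (by positivity : (0 : ℤ) < 3 ^ n)]
    have h3 : (3 : ℤ) ^ (N + 1) ≤ 3 ^ n := pow_le_pow_right₀ (by norm_num) hc
    have h4 : (0 : ℤ) < 3 ^ n := by positivity
    nlinarith
  refine ⟨n', K', z, n, t, le_refl _, hnN, ?_, hz0, hzg.trans (gE_mono hmn), hz3, ht3, hlev, ?_⟩
  · have e : -(z : ℤ) + 3 ^ n * t = y := by rw [← ht]; ring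
    rw [e]; exact hp
  · have e : (3 : ℤ) ^ (n' + n) * t = 3 ^ n' * (y + z) := by rw [ht, pow_add]; ring
    rw [e]
    have hmn' : (m : ℤ) ≤ n := by exact_mod_cast hmn
    calc 3 ^ n' * (y + z) ≤ 2 ^ K' * (y0 + 4 * ((n' : ℤ) + m)) := hW
      _ ≤ 2 ^ K' * (y0 + 4 * ((n' : ℤ) + n)) := by
          apply mul_le_mul_of_nonneg_left _ h2K.le
          linarith

/-- data available when the direct exit is not contracting -/
theorem exit_or {J N aL c : ℕ} {y0 : ℤ} (hE : ∀ n ≤ N, EE n) (hc : c + N ≤ J) (haL : 0 < aL)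
    (hSt : St N aL y0 c) :
    Contr J y0 ∨ ∃ n1 K1 z n K : ℕ, ∃ t : ℤ, n1 ≤ c ∧ n ≤ N ∧
      Path n1 K1 y0 (-(z : ℤ) + 3 ^ n * t) ∧ 0 < z ∧ z ≤ gE n ∧
      ¬ 3 ∣ z ∧ ¬ (3 : ℤ) ∣ t ∧ aL * 2 ^ K1 ≤ 10000 * z * 3 ^ n1 ∧
      3 ^ (n1 + n) * t ≤ 2 ^ K1 * (y0 + 4 * (n1 + n)) ∧
      27 * 3 ^ n ≤ 50 * (2 ^ K * z) ∧ 25 * (2 ^ K * z) < 27 * 3 ^ n ∧
      19 * 3 ^ (n1 + n) < 20 * 2 ^ (K1 + K) ∧ 19 * aL * 3 ^ n < 200000 * (2 ^ K * z) := by
  obtain ⟨n1, K1, z, n, t, hn1, hnN, hp, hz0, hzg, hz3, ht3, hlev, hW⟩ := hSt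
  have hn5 : 5 ≤ n := gE_pos (lt_of_lt_of_le hz0 hzg)
  -- minimal K
  have hex : ∃ K : ℕ, 27 * 3 ^ n ≤ 50 * (2 ^ K * z) := by
    refine ⟨27 * 3 ^ n, ?_⟩
    have h1 : 27 * 3 ^ n < 2 ^ (27 * 3 ^ n) := Nat.lt_two_pow_self
    have h2 : 2 ^ (27 * 3 ^ n) ≤ 2 ^ (27 * 3 ^ n) * z := Nat.le_mul_of_pos_right _ hz0
    omega
  classical
  obtain ⟨K, hK, hKmin⟩ : ∃ K : ℕ, 27 * 3 ^ n ≤ 50 * (2 ^ K * z) ∧
      ∀ L < K, ¬ 27 * 3 ^ n ≤ 50 * (2 ^ L * z) :=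
    ⟨Nat.find hex, Nat.find_spec hex, fun L hL => Nat.find_min hex hL⟩
  have hKpos : 0 < K := by
    rcases Nat.eq_zero_or_pos K with h | h
    · exfalso
      rw [h] at hK
      have hz22 : z ≤ 22 := hzg.trans (gE_le n)
      have h3 : 3 ^ 5 ≤ 3 ^ n := Nat.pow_le_pow_right (by norm_num) hn5
      have : (3 : ℕ) ^ 5 = 243 := by norm_num
      simp only [pow_zero, one_mul] at hK
      omega
    · exact h
  have hKlt : 25 * (2 ^ K * z) < 27 * 3 ^ n := by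
    have h1 := hKmin (K - 1) (by omega)
    obtain ⟨L, rfl⟩ : ∃ L, K = L + 1 := ⟨K - 1, by omega⟩
    simp only [Nat.add_sub_cancel] at h1
    rw [pow_succ]
    push Not at h1
    nlinarith
  -- the exit path
  have hV : 1000 * (2 ^ K * z) < VV 0 * 3 ^ n := by
    have : VV 0 = 1080 := rfl
    rw [this]; omega
  have hpE : Path n K (-(z : ℤ)) (-((0 : ℕ) : ℤ)) :=
    hE n hnN z 0 K hz0 hzg hz3 (by simpa using hK) hV
  have hpE2 := hpE.translate t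
  have hpt := hp.trans hpE2
  by_cases hdir : 20 * 2 ^ (K1 + K) ≤ 19 * 3 ^ (n1 + n)
  · left
    refine ⟨n1 + n, K1 + K, -((0 : ℕ) : ℤ) + 2 ^ K * t, by omega, by omega, hpt, ?_, hdir, ?_⟩
    · intro hd
      have h1 : (3 : ℤ) ∣ 2 ^ K * t := by simpa using hd
      have hcop : IsCoprime (3 : ℤ) (2 ^ K) := by
        apply IsCoprime.pow_right
        exact Int.isCoprime_iff_gcd_eq_one.2 (by norm_num)
      exact ht3 (hcop.dvd_of_dvd_mul_left h1)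
    · have h2K : (0 : ℤ) < 2 ^ K := by positivity
      calc (3 : ℤ) ^ (n1 + n) * (-((0 : ℕ) : ℤ) + 2 ^ K * t) = 2 ^ K * (3 ^ (n1 + n) * t) := by
            push_cast; ring
        _ ≤ 2 ^ K * (2 ^ K1 * (y0 + 4 * (n1 + n))) := mul_le_mul_of_nonneg_left hW h2K.le
        _ = 2 ^ (K1 + K) * (y0 + 4 * ((n1 + n : ℕ) : ℤ)) := by push_cast; ring
  · right
    push Not at hdir
    refine ⟨n1, K1, z, n, K, t, hn1, hnN, hp, hz0, hzg, hz3, ht3, hlev, hW, hK, hKlt, hdir, ?_⟩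
    have h3 : 0 < 3 ^ n1 := by positivity
    have e1 : 3 ^ n1 * (19 * aL * 3 ^ n) < 3 ^ n1 * (200000 * (2 ^ K * z)) := by
      calc 3 ^ n1 * (19 * aL * 3 ^ n) = aL * (19 * 3 ^ (n1 + n)) := by rw [pow_add]; ring
        _ < aL * (20 * 2 ^ (K1 + K)) := Nat.mul_lt_mul_of_pos_left hdir haL
        _ = 20 * 2 ^ K * (aL * 2 ^ K1) := by rw [pow_add]; ring
        _ ≤ 20 * 2 ^ K * (10000 * z * 3 ^ n1) := Nat.mul_le_mul_left _ hlev
        _ = 3 ^ n1 * (200000 * (2 ^ K * z)) := by ring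
    exact Nat.lt_of_mul_lt_mul_left e1

end Pool.Agent.Helper93
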