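import Pool.Agent.Helper93.Chain

set_option autoImplicit false

namespace Pool.Agent.Helper93

theorem wbound {y0 t v0 yy a b : ℤ} {n1 n j K1 K i k : ℕ} {τ : ℕ}
    (hW : 3 ^ (n1 + n) * t ≤ 2 ^ K1 * (y0 + 4 * (n1 + n)))
    (hdir : 19 * 3 ^ (n1 + n) < 20 * 2 ^ (K1 + K))
    (hv0 : v0 = 2 ^ i * (2 ^ K * t) - τ) (hb : 0 ≤ b)
    (h : 20 * (a - 2 ^ k * v0) ≤ 76 * 2 ^ (i + k) * b)
    (hyy : 3 ^ (n1 + n) * a = 3 ^ (n1 + n + j) * yy) :
    3 ^ (n1 + n + j) * yy ≤ 2 ^ (K1 + (K + i) + k) * (y0 + 4 * ((n1 : ℤ) + n) + 4 * b) := by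
  have h3 : (0 : ℤ) < 3 ^ (n1 + n) := by positivity
  have hdir' : (19 : ℤ) * 3 ^ (n1 + n) ≤ 20 * 2 ^ (K1 + K) := by exact_mod_cast hdir.le
  have hv : v0 ≤ 2 ^ (i + K) * t := by
    rw [hv0, pow_add]
    have : (0 : ℤ) ≤ τ := by positivity
    linarith
  have e1 : 20 * a ≤ 20 * (2 ^ k * (2 ^ (i + K) * t)) + 76 * 2 ^ (i + k) * b := by
    have : (2 : ℤ) ^ k * v0 ≤ 2 ^ k * (2 ^ (i + K) * t) := mul_le_mul_of_nonneg_left hv (by positivity)
    linarith
  have e2 : 3 ^ (n1 + n) * (20 * a) ≤ 3 ^ (n1 + n) * (20 * (2 ^ k * (2 ^ (i + K) * t)) + 76 * 2 ^ (i + k) * b) :=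
    mul_le_mul_of_nonneg_left e1 h3.le
  have e3 : (2 : ℤ) ^ (k + (i + K)) * (3 ^ (n1 + n) * t) ≤ 2 ^ (k + (i + K)) * (2 ^ K1 * (y0 + 4 * (n1 + n))) :=
    mul_le_mul_of_nonneg_left hW (by positivity)
  have e4 : (4 * 2 ^ (i + k) * b) * ((19 : ℤ) * 3 ^ (n1 + n)) ≤ (4 * 2 ^ (i + k) * b) * (20 * 2 ^ (K1 + K)) :=
    mul_le_mul_of_nonneg_left hdir' (by positivity)
  have e5 : (20 : ℤ) * (3 ^ (n1 + n + j) * yy) ≤ 20 * (2 ^ (K1 + (K + i) + k) * (y0 + 4 * ((n1 : ℤ) + n) + 4 * b)) := by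
    rw [← hyy]
    calc 20 * (3 ^ (n1 + n) * a) = 3 ^ (n1 + n) * (20 * a) := by ring
      _ ≤ 3 ^ (n1 + n) * (20 * (2 ^ k * (2 ^ (i + K) * t)) + 76 * 2 ^ (i + k) * b) := e2
      _ = 20 * (2 ^ (k + (i + K)) * (3 ^ (n1 + n) * t)) + (4 * 2 ^ (i + k) * b) * ((19 : ℤ) * 3 ^ (n1 + n)) := by
          rw [pow_add 2 k (i + K)]; ring
      _ ≤ 20 * (2 ^ (k + (i + K)) * (2 ^ K1 * (y0 + 4 * (n1 + n)))) + (4 * 2 ^ (i + k) * b) * (20 * 2 ^ (K1 + K)) := by
          linarith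
      _ = 20 * (2 ^ (K1 + (K + i) + k) * (y0 + 4 * ((n1 : ℤ) + n) + 4 * b)) := by
          ring
  linarith

theorem stepLevel {J N aL aN c : ℕ} {y0 : ℤ} (hF : FLevel aL aN) (haN : 5000 ≤ aN) (haL : 0 < aL)
    (hE : ∀ n ≤ N, EE n) (hc : c + N + 11 ≤ J) (hB : Big J N y0) (hSt : St N aL y0 c) :
    Contr J y0 ∨ St N aN y0 (c + N + 11) := by
  rcases exit_or (J := J) hE (by omega) haL hSt with h | h
  · exact Or.inl h
  obtain ⟨n1, K1, z, n, K, t, hn1, hnN, hp, hz0, hzg, hz3, ht3, hlev, hW, hK, hKlt, hdir, hlev2⟩ := h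
  have hv3 : ¬ (3 : ℤ) ∣ 2 ^ K * t := by
    intro h1
    have hcop : IsCoprime (3 : ℤ) (2 ^ K) := by
      apply IsCoprime.pow_right
      exact Int.isCoprime_iff_gcd_eq_one.2 (by norm_num)
    exact ht3 (hcop.dvd_of_dvd_mul_left h1)
  obtain ⟨i, τ, j, k, y, hadm, hj, hpj, hcase⟩ :=
    hF (2 ^ K * z) (3 ^ n) (by positivity) hK hKlt hlev2 (2 ^ K * t) hv3
  -- the exact-length path
  have hpE : Path n (K + i) (-(z : ℤ)) (-(τ : ℤ)) := by
    have e : 2 ^ i * (2 ^ K * z) = 2 ^ (K + i) * z := by rw [pow_add]; ring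
    rcases hadm with ⟨rfl, rfl⟩ | ⟨h1, h2⟩
    · apply hE n hnN z 0 (K + 0) hz0 hzg hz3
      · simpa using hK
      · have : VV 0 = 1080 := rfl
        rw [this, Nat.add_zero]; omega
    · rw [e] at h1 h2
      exact hE n hnN z τ (K + i) hz0 hzg hz3 h1 h2
  have hpE2 := hpE.translate t
  have e0 : -(τ : ℤ) + 2 ^ (K + i) * t = 2 ^ i * (2 ^ K * t) - τ := by rw [pow_add]; ring
  rw [e0] at hpE2
  have hpt := (hp.trans hpE2).trans hpj
  rcases hcase with ⟨f1, f2, f3⟩ | ⟨z', m, d1, d2, d3, d4, d5, d6, d7⟩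
  · left
    refine ⟨n1 + n + j, K1 + (K + i) + k, y, ?_, by omega, hpt, f1, ?_, ?_⟩
    · have := gE_pos (lt_of_lt_of_le hz0 hzg)
      omega
    · have e1 : aL * (20 * 2 ^ (K1 + (K + i) + k)) ≤ aL * (19 * 3 ^ (n1 + n + j)) := by
        calc aL * (20 * 2 ^ (K1 + (K + i) + k)) = 20 * 2 ^ (K + i + k) * (aL * 2 ^ K1) := by
              ring
          _ ≤ 20 * 2 ^ (K + i + k) * (10000 * z * 3 ^ n1) := Nat.mul_le_mul_left _ hlev
          _ = 3 ^ n1 * (20 * 2 ^ (i + k) * (10000 * (2 ^ K * z))) := by ring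
          _ ≤ 3 ^ n1 * (19 * 3 ^ j * aL * 3 ^ n) := Nat.mul_le_mul_left _ f2
          _ = aL * (19 * 3 ^ (n1 + n + j)) := by ring
      exact Nat.le_of_mul_le_mul_left e1 haL
    · have := wbound (j := j) (yy := y) (a := 3 ^ j * y) (b := (j : ℤ)) hW hdir rfl (by positivity) f3 (by ring)
      calc (3 : ℤ) ^ (n1 + n + j) * y ≤ 2 ^ (K1 + (K + i) + k) * (y0 + 4 * ((n1 : ℤ) + n) + 4 * j) := this
        _ = 2 ^ (K1 + (K + i) + k) * (y0 + 4 * ((n1 + n + j : ℕ) : ℤ)) := by push_cast; ring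
  · right
    have hW' := wbound (j := j) (yy := y + z') (a := 3 ^ j * (y + z')) (b := (j : ℤ) + m) hW hdir rfl
      (by positivity) d7 (by ring)
    have hst := mkState (n' := n1 + n + j) (K' := K1 + (K + i) + k) (z := z') (m := m) (aN := aN) hB (by omega)
      hpt d1 d2 d3 d4 d5 haN (by
        have e1 : aL * (aN * 2 ^ (K1 + (K + i) + k)) ≤ aL * (10000 * z' * 3 ^ (n1 + n + j)) := by
          calc aL * (aN * 2 ^ (K1 + (K + i) + k)) = aN * 2 ^ (K + i + k) * (aL * 2 ^ K1) := by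
                ring
            _ ≤ aN * 2 ^ (K + i + k) * (10000 * z * 3 ^ n1) := Nat.mul_le_mul_left _ hlev
            _ = 10000 * 3 ^ n1 * (aN * 2 ^ (i + k) * (2 ^ K * z)) := by ring
            _ ≤ 10000 * 3 ^ n1 * (z' * 3 ^ j * aL * 3 ^ n) := Nat.mul_le_mul_left _ d6
            _ = aL * (10000 * z' * 3 ^ (n1 + n + j)) := by ring
        exact Nat.le_of_mul_le_mul_left e1 haL) (by
        calc (3 : ℤ) ^ (n1 + n + j) * (y + z')
            ≤ 2 ^ (K1 + (K + i) + k) * (y0 + 4 * ((n1 : ℤ) + n) + 4 * ((j : ℤ) + m)) := hW'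
          _ = 2 ^ (K1 + (K + i) + k) * (y0 + 4 * (((n1 + n + j : ℕ) : ℤ) + m)) := by push_cast; ring)
    obtain ⟨a1, a2, a3, a4, a5, b1, b2⟩ := hst
    exact ⟨a1, a2, a3, a4, a5, by omega, b2⟩

/-- at the top level the direct exit always contracts -/
theorem topLevel {J N c : ℕ} {y0 : ℤ} (hE : ∀ n ≤ N, EE n) (hc : c + N ≤ J)
    (hSt : St N 11400 y0 c) : Contr J y0 := by
  rcases exit_or (J := J) hE hc (by norm_num) hSt with h | h
  · exact h
  · obtain ⟨n1, K1, z, n, K, t, hn1, hnN, hp, hz0, hzg, hz3, ht3, hlev, hW, hK, hKlt, hdir, hlev2⟩ := h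
    exfalso
    generalize 2 ^ K * z = X at *
    generalize 3 ^ n = Y at *
    omega

/-- the start of the chain -/
theorem startLevel {J N : ℕ} {y0 : ℤ} (hy : ¬ (3 : ℤ) ∣ y0) (hJ : 11 ≤ J) (hB : Big J N y0) :
    Contr J y0 ∨ St N 5000 y0 11 := by
  obtain ⟨i, t, j, k, y, hadm, hj, hp, hc⟩ := wA y0 hy
  have hadm' : i = 0 ∧ t = 0 := by
    rcases hadm with h | ⟨h, _⟩
    · exact h
    · exfalso
      omega
  obtain ⟨rfl, rfl⟩ := hadm'
  have e0 : (2 : ℤ) ^ 0 * y0 - ((0 : ℕ) : ℤ) = y0 := by norm_num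
  rw [e0] at hp hc
  rcases hc with ⟨f1, f2, f3⟩ | ⟨z, m, d1, d2, d3, d4, d5, d6, d7⟩
  · left
    rw [Nat.zero_add] at f2 f3
    have f2' : 20 * 2 ^ k ≤ 19 * 3 ^ j := by omega
    refine ⟨j, k, y, ?_, by omega, hp, f1, f2', ?_⟩
    · by_contra h
      have : j = 0 := by omega
      subst this
      have : 0 < 2 ^ k := by positivity
      simp at f2'
      omega
    · have h2 : (0 : ℤ) ≤ 2 ^ k * j := by positivity
      calc (3 : ℤ) ^ j * y ≤ 2 ^ k * y0 + 4 * (2 ^ k * j) := by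
            have : 20 * (3 ^ j * y - 2 ^ k * y0) ≤ 76 * (2 ^ k * (j : ℤ)) := by linarith
            linarith
        _ = 2 ^ k * (y0 + 4 * (j : ℤ)) := by ring
  · right
    rw [Nat.zero_add] at d6 d7
    have hst := mkState (n' := j) (K' := k) (z := z) (m := m) (aN := 5000) hB (by omega) hp d1 d2 d3 d4 d5
      (le_refl _) (by
        have e1 : 10000 * (5000 * 2 ^ k) ≤ 10000 * (10000 * z * 3 ^ j) := by
          calc 10000 * (5000 * 2 ^ k) = 5000 * 2 ^ k * 10000 := by ring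
            _ ≤ 10000 * z * 3 ^ j * 10000 := d6
            _ = 10000 * (10000 * z * 3 ^ j) := by ring
        exact Nat.le_of_mul_le_mul_left e1 (by norm_num)) (by
        have h2 : (0 : ℤ) ≤ 2 ^ k * (j + m) := by positivity
        calc (3 : ℤ) ^ j * (y + z) ≤ 2 ^ k * y0 + 4 * (2 ^ k * (j + m)) := by
              have : 20 * (3 ^ j * (y + z) - 2 ^ k * y0) ≤ 76 * (2 ^ k * ((j : ℤ) + m)) := by linarith
              linarith
          _ = 2 ^ k * (y0 + 4 * ((j : ℤ) + m)) := by ring)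
    obtain ⟨a1, a2, a3, a4, a5, b1, b2⟩ := hst
    exact ⟨a1, a2, a3, a4, a5, by omega, b2⟩

/-- the contraction theorem -/
theorem contraction {N : ℕ} {y0 : ℤ} (hE : ∀ n ≤ N, EE n) (hy : ¬ (3 : ℤ) ∣ y0)
    (hB : Big (8 * N + 88) N y0) : Contr (8 * N + 88) y0 := by
  rcases startLevel hy (by omega) hB with h | s0
  · exact h
  rcases stepLevel level5000 (by norm_num) (by norm_num) hE (by omega) hB s0 with h | s1
  · exact h
  rcases stepLevel level5600 (by norm_num) (by norm_num) hE (by omega) hB s1 with h | s2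
  · exact h
  rcases stepLevel level6300 (by norm_num) (by norm_num) hE (by omega) hB s2 with h | s3
  · exact h
  rcases stepLevel level7100 (by norm_num) (by norm_num) hE (by omega) hB s3 with h | s4
  · exact h
  rcases stepLevel level8000 (by norm_num) (by norm_num) hE (by omega) hB s4 with h | s5
  · exact h
  rcases stepLevel level9000 (by norm_num) (by norm_num) hE (by omega) hB s5 with h | s6
  · exact h
  rcases stepLevel level10100 (by norm_num) (by norm_num) hE (by omega) hB s6 with h | s7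
  · exact h
  exact topLevel hE (by omega) s7

end Pool.Agent.Helper93
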