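import Pool.Agent.Helper93.PhaseII

set_option autoImplicit false
set_option exponentiation.threshold 2000

namespace Pool.Agent.Helper93

/-- descent for small positive values -/
def QD (B y : ℕ) : Prop :=
  2 ≤ y → y ≤ B → ¬ 3 ∣ y → ∃ n K y' : ℕ, Path n K (y : ℤ) (y' : ℤ) ∧ y' < y ∧ ¬ 3 ∣ y'

def chkD (B : ℕ) (N r p : ℕ) : Bool :=
  Nat.ble (B + 1) r ||
  match p % 2 with
  | 1 => runY (fun _ y' j k => Nat.ble (j + 1) N && (Nat.ble 1 (y' % 3) &&
      ((Nat.ble (y' + 1) r && Nat.ble (2 ^ k) (3 ^ j)) ||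
        (Nat.beq r 1 && (Nat.ble y' 1 && Nat.ble (2 ^ k + 1) (3 ^ j)))))) 32 (p / 2) r 0 0
  | _ => Nat.ble (B + 1) (r + 3 ^ N) && (Nat.ble r 1 ||
      runY (fun _ y' _ _ => Nat.ble (y' + 1) r && Nat.ble 1 (y' % 3)) 32 (p / 2) r 0 0)

theorem chkD_sound {B N r p : ℕ} (h : chkD B N r p = true) : ∀ s : ℕ, QD B (r + 3 ^ N * s) := by
  intro s h2 hB h3
  unfold chkD at h
  rw [Bool.or_eq_true] at h
  rcases h with h | h
  · have h := Nat.le_of_ble_eq_true h
    exfalso
    have : r ≤ r + 3 ^ N * s := Nat.le_add_right _ _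
    omega
  · split at h
    · obtain ⟨w', y', j, k, hp, hc⟩ := runY_sound _ _ _ _ _ _ h
      rw [Nat.zero_add, Nat.zero_add] at hc
      simp only [Bool.and_eq_true, Bool.or_eq_true] at hc
      obtain ⟨c1, c2, c3⟩ := hc
      have c1 := Nat.le_of_ble_eq_true c1
      have c2 := Nat.le_of_ble_eq_true c2
      obtain ⟨m, rfl⟩ := Nat.exists_eq_add_of_le c1
      have hp' := hp.translate (3 ^ (m + 1) * (s : ℤ))
      have e1 : (r : ℤ) + 3 ^ j * (3 ^ (m + 1) * (s : ℤ)) = ((r + 3 ^ (j + 1 + m) * s : ℕ) : ℤ) := by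
        push_cast; ring
      have e2 : (y' : ℤ) + 2 ^ k * (3 ^ (m + 1) * (s : ℤ)) = ((y' + 2 ^ k * (3 ^ (m + 1) * s) : ℕ) : ℤ) := by
        push_cast; ring
      rw [e1, e2] at hp'
      have e3 : 3 ^ (j + 1 + m) * s = 3 ^ j * (3 ^ (m + 1) * s) := by ring
      refine ⟨j, k, _, hp', ?_, ?_⟩
      · rcases c3 with ⟨d1, d2⟩ | ⟨d1, d2, d3⟩
        · have d1 := Nat.le_of_ble_eq_true d1
          have d2 := Nat.le_of_ble_eq_true d2
          have := Nat.mul_le_mul_right (3 ^ (m + 1) * s) d2
          rw [e3]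
          omega
        · have d1 := Nat.eq_of_beq_eq_true d1
          have d2 := Nat.le_of_ble_eq_true d2
          have d3 := Nat.le_of_ble_eq_true d3
          have hs : 0 < s := by
            rcases Nat.eq_zero_or_pos s with h | h
            · subst h
              omega
            · exact h
          have h5 : 2 ^ k * (3 ^ (m + 1) * s) < 3 ^ j * (3 ^ (m + 1) * s) :=
            Nat.mul_lt_mul_of_pos_right d3 (by positivity)
          rw [e3]
          omega
      · intro hd
        have h4 : 3 ∣ 2 ^ k * (3 ^ (m + 1) * s) :=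
          Dvd.dvd.mul_left (Dvd.dvd.mul_right (dvd_pow_self 3 (Nat.succ_ne_zero m)) s) _
        have h5 : 3 ∣ y' := (Nat.dvd_add_left h4).1 hd
        omega
    · rw [Bool.and_eq_true, Bool.or_eq_true] at h
      obtain ⟨h1, h2'⟩ := h
      have h1 := Nat.le_of_ble_eq_true h1
      have h0 : s = 0 := by
        rcases Nat.eq_zero_or_pos s with h | h
        · exact h
        · exfalso
          have : 3 ^ N ≤ 3 ^ N * s := Nat.le_mul_of_pos_right _ h
          omega
      subst h0
      rw [Nat.mul_zero, Nat.add_zero] at *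
      rcases h2' with h2' | h2'
      · have h2' := Nat.le_of_ble_eq_true h2'
        omega
      · obtain ⟨w', y', j, k, hp, hc⟩ := runY_sound _ _ _ _ _ _ h2'
        rw [Bool.and_eq_true] at hc
        have c1 := Nat.le_of_ble_eq_true hc.1
        have c2 := Nat.le_of_ble_eq_true hc.2
        exact ⟨j, k, y', hp, by omega, by omega⟩

theorem QD_of_walk {B f d : ℕ} (h : walk (chkD B) f d [(1, 1), (1, 2)] = true) :
    ∀ y : ℕ, QD B y := by
  have key := walk_sound (chkD B) (fun N r => ∀ s : ℕ, QD B (r + 3 ^ N * s))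
    (fun N r h0 h1 h2 => split_liftN (QD B) N r h0 h1 h2)
    (fun N r p hp => chkD_sound hp) f d _ h
  intro z h2 hB h3
  have hmod : z % 3 = 1 ∨ z % 3 = 2 := by omega
  rcases hmod with hm | hm
  · have := key (1, 1) (by simp) (z / 3)
    have e : ((1, 1) : ℕ × ℕ).2 + 3 ^ ((1, 1) : ℕ × ℕ).1 * (z / 3) = z := by
      simp only [pow_one]; omega
    rw [e] at this
    exact this h2 hB h3
  · have := key (1, 2) (by simp) (z / 3)
    have e : ((1, 2) : ℕ × ℕ).2 + 3 ^ ((1, 2) : ℕ × ℕ).1 * (z / 3) = z := by
      simp only [pow_one]; omega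
    rw [e] at this
    exact this h2 hB h3

theorem smallD : ∀ y : ℕ, QD 14400 y :=
  QD_of_walk (f := 183) (d :=
    0x12228628b042228628b040002228a670402228a6704002228a7032228a7030002228b0302228b03002667022667020002670202670200270127010003010301000501290122690222690202626903026269032662690326626903026662690400012228a269042228a26904000266626904000000002626690300012228666904222866690400026626690402662669040026266903000226690302266903002266690302626669040001222628a904222628a9040002626669040022666903000226666904022666690400012224468d042224468d040000000104226666680502226666680500000102224468628c06022228a668050022228a69042228826666680622228a69040000022228a904022228a904242666690424266669040264266668050000000242666904000126426669040266426668050002426669040022228d0322228d03000024228d030222a669040222a6690402228428a80522286668266806022622a66805000024228d030002642669040264266904022428a90400242669032426690300028426690402842669040001222c266904222842a6680500004426690344266903000000426902222a6903222a690302622a690400012228428d04022242844e68060002622a6904000022826903026282690402262a6904026282690400228269030042826903028282690400012228822a6805222a826904000282826904004282690300004269020000290129012901290129012901290129012422a9030000000000050100)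
    (by decide +kernel)

theorem growth3 (N : ℕ) (h : 12 ≤ N) : 60000 * (N + 1) < 3 ^ (N + 1) := by
  induction N, h using Nat.le_induction with
  | base => norm_num
  | succ N hN ih =>
    have e : 60000 * (N + 1 + 1) ≤ 3 * (60000 * (N + 1)) := by nlinarith
    calc 60000 * (N + 1 + 1) ≤ 3 * (60000 * (N + 1)) := e
      _ < 3 * 3 ^ (N + 1) := Nat.mul_lt_mul_of_pos_left ih (by norm_num)
      _ = 3 ^ (N + 1 + 1) := by rw [pow_succ 3 (N + 1)]; ring

theorem largeD (y : ℕ) (hy : 14400 ≤ y) (hy3 : ¬ 3 ∣ y) :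
    ∃ n K y' : ℕ, Path n K (y : ℤ) (y' : ℤ) ∧ y' < y ∧ ¬ 3 ∣ y' := by
  obtain ⟨N, hN1, hN2⟩ : ∃ N, 1200 * N ≤ y ∧ y < 1200 * (N + 1) := ⟨y / 1200, by omega, by omega⟩
  have hN12 : 12 ≤ N := by omega
  have hB : Big (8 * N + 88) N (y : ℤ) := by
    constructor
    · left
      have : 0 < y := by omega
      exact_mod_cast this
    · rw [abs_of_nonneg (by positivity)]
      have h1 := growth3 N hN12
      have h2 : 44 * (y + 4 * (8 * N + 88 + 20)) ≤ 60000 * (N + 1) := by nlinarith
      have h3 : 44 * (y + 4 * (8 * N + 88 + 20)) < 3 ^ (N + 1) := lt_of_le_of_lt h2 h1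
      exact_mod_cast h3
  have hyint : ¬ (3 : ℤ) ∣ (y : ℤ) := by
    intro hd
    exact hy3 (by exact_mod_cast hd)
  obtain ⟨n, k, w, hn1, hnJ, hp, hw3, hk, hW⟩ := contraction (N := N) (fun n _ => EE_all n) hyint hB
  have hw := hp.pos (by
    have : 0 < y := by omega
    exact_mod_cast this)
  obtain ⟨y', rfl⟩ : ∃ y' : ℕ, w = (y' : ℤ) := ⟨w.toNat, by omega⟩
  refine ⟨n, k, y', hp, ?_, ?_⟩
  · have hWn : 3 ^ n * y' ≤ 2 ^ k * (y + 4 * n) := by exact_mod_cast hW
    have e : 3 ^ n * (20 * y') ≤ 3 ^ n * (19 * (y + 4 * n)) := by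
      calc 3 ^ n * (20 * y') = 20 * (3 ^ n * y') := by ring
        _ ≤ 20 * (2 ^ k * (y + 4 * n)) := Nat.mul_le_mul_left _ hWn
        _ = (20 * 2 ^ k) * (y + 4 * n) := by ring
        _ ≤ (19 * 3 ^ n) * (y + 4 * n) := Nat.mul_le_mul_right _ hk
        _ = 3 ^ n * (19 * (y + 4 * n)) := by ring
    have h20 := Nat.le_of_mul_le_mul_left e (by positivity)
    omega
  · intro hd
    exact hw3 (by exact_mod_cast hd)

/-- every positive y prime to 3 leads to 1 -/
theorem to_one : ∀ y : ℕ, 0 < y → ¬ 3 ∣ y → ∃ n K : ℕ, Path n K (y : ℤ) 1 := by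
  intro y
  induction y using Nat.strong_induction_on with
  | _ y ih =>
    intro h0 h3
    rcases Nat.lt_or_ge y 2 with h | h
    · have : y = 1 := by omega
      subst this
      exact ⟨0, 0, by simpa using Path.refl 1⟩
    · have hd : ∃ n K y' : ℕ, Path n K (y : ℤ) (y' : ℤ) ∧ y' < y ∧ ¬ 3 ∣ y' := by
        rcases Nat.lt_or_ge y 14400 with h' | h'
        · exact smallD y h (by omega) h3
        · exact largeD y h' h3
      obtain ⟨n, K, y', hp, hlt, hy'3⟩ := hd
      have hy'0 : 0 < y' := by omega
      obtain ⟨m, L, hp2⟩ := ih y' hlt hy'0 hy'3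
      exact ⟨n + m, K + L, hp.trans hp2⟩

/-- the edge relation of the problem -/
def Edge (a b : ℕ) : Prop := b = 3 * a ∨ a = 2 * b + 1

theorem reach_of_path {n K : ℕ} {y w : ℤ} (hp : Path n K y w) (hy : 0 < y) :
    Relation.ReflTransGen Edge 1 (2 * w - 1).toNat → Relation.ReflTransGen Edge 1 (2 * y - 1).toNat := by
  induction hp with
  | refl y => exact id
  | dbl hp ih =>
    rename_i n K y w
    intro h
    have hw := hp.pos hy
    refine ih hy (h.tail ?_)
    right
    omega
  | thd hp ih =>
    rename_i n K y w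
    intro h
    have hw := hp.pos hy
    refine ih hy (h.tail ?_)
    left
    omega

theorem main (m : ℕ) (hm : 0 < m) (hmod : m % 3 = 0 ∨ m % 3 = 1) :
    Relation.ReflTransGen Edge 1 m := by
  have key : ∀ u : ℕ, 0 < u → ¬ 3 ∣ u → Relation.ReflTransGen Edge 1 (2 * u - 1) := by
    intro u hu hu3
    obtain ⟨n, K, hp⟩ := to_one u hu hu3
    have h1 := reach_of_path hp (by exact_mod_cast hu) (by norm_num; exact Relation.ReflTransGen.refl)
    have e : (2 * (u : ℤ) - 1).toNat = 2 * u - 1 := by omega
    rwa [e] at h1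
  rcases Nat.even_or_odd' m with ⟨k, hk | hk⟩
  · -- m even
    have h1 := key (m + 1) (by omega) (by omega)
    refine h1.tail ?_
    right
    omega
  · have h1 := key (k + 1) (by omega) (by omega)
    have e : 2 * (k + 1) - 1 = m := by omega
    rwa [e] at h1

end Pool.Agent.Helper93
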