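import Pool.Agent.Helper93.Chain2

set_option autoImplicit false

namespace Pool.Agent.Helper93

/-- all starts up to `g`, with quality threshold `cn/cd` -/
def PP (T g cn cd : ℕ) : Prop :=
  ∀ z t K : ℕ, 0 < z → z ≤ g → ¬ 3 ∣ z → cn * ((2 * t + 1) * 3 ^ T) ≤ cd * (2 * (2 ^ K * z)) →
    1000 * (2 ^ K * z) < VV t * 3 ^ T → Path T K (-(z : ℤ)) (-(t : ℤ))

theorem EE_of_PP {T g cn cd : ℕ} (h : PP T g cn cd) (hg : gE T ≤ g) (hc : 25 * cn ≤ 27 * cd) :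
    EE T := by
  intro z t K hz0 hzg hz3 h1 h2
  refine h z t K hz0 (hzg.trans hg) hz3 ?_ h2
  have e : 25 * (cn * ((2 * t + 1) * 3 ^ T)) ≤ 25 * (cd * (2 * (2 ^ K * z))) := by
    calc 25 * (cn * ((2 * t + 1) * 3 ^ T)) = (25 * cn) * ((2 * t + 1) * 3 ^ T) := by ring
      _ ≤ (27 * cd) * ((2 * t + 1) * 3 ^ T) := Nat.mul_le_mul_right _ hc
      _ = cd * (27 * (2 * t + 1) * 3 ^ T) := by ring
      _ ≤ cd * (50 * (2 ^ K * z)) := Nat.mul_le_mul_left _ h1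
      _ = 25 * (cd * (2 * (2 ^ K * z))) := by ring
  exact Nat.le_of_mul_le_mul_left e (by norm_num)

theorem PP_mono {T g g' cn cd cn' cd' : ℕ} (h : PP T g cn cd) (hg : g' ≤ g) (hcd' : 0 < cd')
    (hc : cn * cd' ≤ cn' * cd) : PP T g' cn' cd' := by
  intro z t K hz0 hzg hz3 h1 h2
  refine h z t K hz0 (hzg.trans hg) hz3 ?_ h2
  have e : cd' * (cn * ((2 * t + 1) * 3 ^ T)) ≤ cd' * (cd * (2 * (2 ^ K * z))) := by
    calc cd' * (cn * ((2 * t + 1) * 3 ^ T)) = (cn * cd') * ((2 * t + 1) * 3 ^ T) := by ring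
      _ ≤ (cn' * cd) * ((2 * t + 1) * 3 ^ T) := Nat.mul_le_mul_right _ hc
      _ = cd * (cn' * ((2 * t + 1) * 3 ^ T)) := by ring
      _ ≤ cd * (cd' * (2 * (2 ^ K * z))) := Nat.mul_le_mul_left _ h1
      _ = cd' * (cd * (2 * (2 ^ K * z))) := by ring
  exact Nat.le_of_mul_le_mul_left e hcd'

theorem path_le {j k z z' : ℕ} (h : Path j k (-(z : ℤ)) (-(z' : ℤ))) : 3 ^ j * z' ≤ 2 ^ k * z := by
  have h1 := h.lower
  have h2 : (3 : ℤ) ^ j * z' ≤ 2 ^ k * z := by linarith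
  exact_mod_cast h2

/-- landing in a known table -/
theorem land {R j k z z' g' cn' cd' t K : ℕ} (hp : Path j k (-(z : ℤ)) (-(z' : ℤ)))
    (hP : PP R g' cn' cd') (hz' : 0 < z') (hg : z' ≤ g') (h3 : ¬ 3 ∣ z')
    (hlow : cn' * ((2 * t + 1) * 3 ^ R) ≤ cd' * (2 * (2 ^ K * z')))
    (hup : 1000 * (2 ^ (k + K) * z) < VV t * 3 ^ (j + R)) :
    Path (j + R) (k + K) (-(z : ℤ)) (-(t : ℤ)) := by
  have hle := path_le hp
  have hup' : 1000 * (2 ^ K * z') < VV t * 3 ^ R := by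
    have e : 3 ^ j * (1000 * (2 ^ K * z')) < 3 ^ j * (VV t * 3 ^ R) := by
      calc 3 ^ j * (1000 * (2 ^ K * z')) = 1000 * 2 ^ K * (3 ^ j * z') := by ring
        _ ≤ 1000 * 2 ^ K * (2 ^ k * z) := Nat.mul_le_mul_left _ hle
        _ = 1000 * (2 ^ (k + K) * z) := by rw [pow_add]; ring
        _ < VV t * 3 ^ (j + R) := hup
        _ = 3 ^ j * (VV t * 3 ^ R) := by rw [pow_add]; ring
    exact Nat.lt_of_mul_lt_mul_left e
  exact hp.trans (hP z' t K hz' hg h3 hlow hup')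

/-- landing with a cost, uniformly in `K` and `t` -/
theorem landC {R j k z z' g' cn' cd' cn cd t K : ℕ} (hp : Path j k (-(z : ℤ)) (-(z' : ℤ)))
    (hP : PP R g' cn' cd') (hz0 : 0 < z) (hz' : 0 < z') (hg : z' ≤ g') (h3 : ¬ 3 ∣ z')
    (hcd : 0 < cd) (hcn : 0 < cn)
    (hsmall : cd' * g' < cn' * 3 ^ R)
    (hcost : cn' * cd * (2 ^ k * z) ≤ cn * cd' * (3 ^ j * z'))
    (hlow : cn * ((2 * t + 1) * 3 ^ (j + R)) ≤ cd * (2 * (2 ^ K * z)))
    (hup : 1000 * (2 ^ K * z) < VV t * 3 ^ (j + R)) :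
    Path (j + R) K (-(z : ℤ)) (-(t : ℤ)) := by
  have h3j : 0 < 3 ^ j := by positivity
  -- k ≤ K
  have hkK : k ≤ K := by
    by_contra hc
    push Not at hc
    have h2 : 2 * (2 ^ K * z) ≤ 2 ^ k * z := by
      have : 2 ^ (K + 1) ≤ 2 ^ k := Nat.pow_le_pow_right (by norm_num) hc
      calc 2 * (2 ^ K * z) = 2 ^ (K + 1) * z := by rw [pow_succ]; ring
        _ ≤ 2 ^ k * z := Nat.mul_le_mul_right _ this
    have h4 : cn' * (cn * ((2 * t + 1) * 3 ^ (j + R))) ≤ cn * cd' * (3 ^ j * z') := by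
      calc cn' * (cn * ((2 * t + 1) * 3 ^ (j + R))) ≤ cn' * (cd * (2 * (2 ^ K * z))) :=
            Nat.mul_le_mul_left _ hlow
        _ ≤ cn' * (cd * (2 ^ k * z)) := Nat.mul_le_mul_left _ (Nat.mul_le_mul_left _ h2)
        _ = cn' * cd * (2 ^ k * z) := by ring
        _ ≤ cn * cd' * (3 ^ j * z') := hcost
    have h5 : (cn * 3 ^ j) * (cn' * 3 ^ R) ≤ (cn * 3 ^ j) * (cd' * z') := by
      calc (cn * 3 ^ j) * (cn' * 3 ^ R) = cn' * (cn * (1 * 3 ^ (j + R))) := by rw [pow_add]; ring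
        _ ≤ cn' * (cn * ((2 * t + 1) * 3 ^ (j + R))) := by
            apply Nat.mul_le_mul_left
            apply Nat.mul_le_mul_left
            apply Nat.mul_le_mul_right
            omega
        _ ≤ cn * cd' * (3 ^ j * z') := h4
        _ = (cn * 3 ^ j) * (cd' * z') := by ring
    have h6 := Nat.le_of_mul_le_mul_left h5 (by positivity)
    have h7 : cd' * z' ≤ cd' * g' := Nat.mul_le_mul_left _ hg
    omega
  obtain ⟨L, rfl⟩ := Nat.exists_eq_add_of_le hkK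
  refine land hp hP hz' hg h3 ?_ hup
  have hpos : 0 < cd * (2 ^ k * z) * 3 ^ j := by positivity
  have e : (cd * (2 ^ k * z) * 3 ^ j) * (cn' * ((2 * t + 1) * 3 ^ R)) ≤
      (cd * (2 ^ k * z) * 3 ^ j) * (cd' * (2 * (2 ^ L * z'))) := by
    calc (cd * (2 ^ k * z) * 3 ^ j) * (cn' * ((2 * t + 1) * 3 ^ R))
        = (cn' * cd * (2 ^ k * z)) * ((2 * t + 1) * 3 ^ (j + R)) := by rw [pow_add]; ring
      _ ≤ (cn * cd' * (3 ^ j * z')) * ((2 * t + 1) * 3 ^ (j + R)) := Nat.mul_le_mul_right _ hcost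
      _ = (cd' * (3 ^ j * z')) * (cn * ((2 * t + 1) * 3 ^ (j + R))) := by ring
      _ ≤ (cd' * (3 ^ j * z')) * (cd * (2 * (2 ^ (k + L) * z))) := Nat.mul_le_mul_left _ hlow
      _ = (cd * (2 ^ k * z) * 3 ^ j) * (cd' * (2 * (2 ^ L * z'))) := by rw [pow_add]; ring
  exact Nat.le_of_mul_le_mul_left e hpos

/-- small starts: one step up -/
theorem up_exists {z g : ℕ} (hz0 : 0 < z) (hz3 : ¬ 3 ∣ z) (h : 8 * z ≤ 3 * g) :
    ∃ k z' : ℕ, 2 ^ k * z = 3 * z' + 1 ∧ 0 < z' ∧ z' ≤ g ∧ ¬ 3 ∣ z' ∧ 3 * g + 1 ≤ 16 * (2 ^ k * z) := by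
  classical
  have hex : ∃ L : ℕ, 3 * g + 1 < 2 ^ L * z := by
    refine ⟨3 * g + 1, ?_⟩
    have h1 : 3 * g + 1 < 2 ^ (3 * g + 1) := Nat.lt_two_pow_self
    have h2 : 2 ^ (3 * g + 1) ≤ 2 ^ (3 * g + 1) * z := Nat.le_mul_of_pos_right _ hz0
    omega
  obtain ⟨L, hL, hLmin⟩ : ∃ L : ℕ, 3 * g + 1 < 2 ^ L * z ∧ ∀ M < L, ¬ 3 * g + 1 < 2 ^ M * z :=
    ⟨Nat.find hex, Nat.find_spec hex, fun M hM => Nat.find_min hex hM⟩
  have hL4 : 4 ≤ L := by
    by_contra hc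
    push Not at hc
    have : 2 ^ L ≤ 2 ^ 3 := Nat.pow_le_pow_right (by norm_num) (by omega)
    have h2 : 2 ^ L * z ≤ 2 ^ 3 * z := Nat.mul_le_mul_right _ this
    norm_num at h2
    omega
  obtain ⟨M, rfl⟩ : ∃ M, L = M + 4 := ⟨L - 4, by omega⟩
  have h1 := hLmin (M + 3) (by omega)
  push Not at h1
  have e1 : 2 ^ (M + 4) * z = 16 * (2 ^ M * z) := by rw [pow_add]; ring
  have e2 : 2 ^ (M + 3) * z = 8 * (2 ^ M * z) := by rw [pow_add]; ring
  have e3 : 2 ^ (M + 2) * z = 4 * (2 ^ M * z) := by rw [pow_add]; ring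
  have e4 : 2 ^ (M + 1) * z = 2 * (2 ^ M * z) := by rw [pow_add]; ring
  have hw3 : ¬ 3 ∣ 2 ^ M * z := by
    intro hd
    rcases (Nat.Prime.dvd_mul Nat.prime_three).1 hd with h | h
    · have := Nat.Prime.dvd_of_dvd_pow Nat.prime_three h
      omega
    · exact hz3 h
  rw [e1] at hL
  rw [e2] at h1
  generalize hw : 2 ^ M * z = w at *
  have hcases : w % 9 = 1 ∨ w % 9 = 2 ∨ w % 9 = 4 ∨ w % 9 = 5 ∨ w % 9 = 7 ∨ w % 9 = 8 := by omega
  rcases hcases with h | h | h | h | h | h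
  · exact ⟨M + 2, (4 * w) / 3, by rw [e3]; omega, by omega, by omega, by omega, by rw [e3]; omega⟩
  · exact ⟨M + 1, (2 * w) / 3, by rw [e4]; omega, by omega, by omega, by omega, by rw [e4]; omega⟩
  · exact ⟨M, w / 3, by rw [hw]; omega, by omega, by omega, by omega, by rw [hw]; omega⟩
  · exact ⟨M + 3, (8 * w) / 3, by rw [e2]; omega, by omega, by omega, by omega, by rw [e2]; omega⟩
  · exact ⟨M, w / 3, by rw [hw]; omega, by omega, by omega, by omega, by rw [hw]; omega⟩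
  · exact ⟨M + 1, (2 * w) / 3, by rw [e4]; omega, by omega, by omega, by omega, by rw [e4]; omega⟩

/-- the step-up rule as a landing -/
theorem upStep {R z g' cn' cd' cn cd t K : ℕ} (hP : PP R g' cn' cd') (hz0 : 0 < z) (hz3 : ¬ 3 ∣ z)
    (hz : 8 * z ≤ 3 * g') (hcd : 0 < cd) (hcn : 0 < cn)
    (hsmall : cd' * g' < cn' * 3 ^ R)
    (hc : 16 * (cn * cd') + cn' * cd * (3 * g' + 1) ≤ cn * cd' * (3 * g' + 1))
    (hlow : cn * ((2 * t + 1) * 3 ^ (R + 1)) ≤ cd * (2 * (2 ^ K * z)))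
    (hup : 1000 * (2 ^ K * z) < VV t * 3 ^ (R + 1)) :
    Path (R + 1) K (-(z : ℤ)) (-(t : ℤ)) := by
  obtain ⟨k, z', h1, h2, h3, h4, h5⟩ := up_exists hz0 hz3 hz
  have hp : Path 1 k (-(z : ℤ)) (-(z' : ℤ)) := by
    apply Path.step
    have : (2 : ℤ) ^ k * z = 3 * z' + 1 := by exact_mod_cast h1
    linarith
  rw [Nat.add_comm R 1] at hlow hup ⊢
  refine landC hp hP hz0 h2 h3 h4 hcd hcn hsmall ?_ hlow hup
  rw [pow_one]
  have e : 3 * z' = 2 ^ k * z - 1 := by omega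
  have hge : 1 ≤ 2 ^ k * z := by omega
  -- (cn cd' - cn' cd) (2^k z) ≥ cn cd'
  have hd : cn' * cd ≤ cn * cd' := by
    by_contra hcon
    push Not at hcon
    have : cn * cd' * (3 * g' + 1) ≤ cn' * cd * (3 * g' + 1) := Nat.mul_le_mul_right _ hcon.le
    have h0 : 0 < 16 * (cn * cd') + (cn' * cd * (3 * g' + 1) - cn' * cd * (3 * g' + 1)) ∨ cn * cd' = 0 := by
      omega
    rcases h0 with h0 | h0
    · omega
    · rw [h0] at hc hcon
      simp only [mul_zero, zero_mul, zero_add] at hc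
      have h6 : 0 < cn' * cd * (3 * g' + 1) := Nat.mul_pos hcon (by omega)
      omega
  obtain ⟨d, hd'⟩ := Nat.exists_eq_add_of_le hd
  rw [hd'] at hc ⊢
  have h7 : 16 * (cn' * cd + d) ≤ d * (3 * g' + 1) := by
    have : (cn' * cd + d) * (3 * g' + 1) = cn' * cd * (3 * g' + 1) + d * (3 * g' + 1) := by ring
    omega
  have h8 : d * (3 * g' + 1) ≤ d * (16 * (2 ^ k * z)) := Nat.mul_le_mul_left _ h5
  have h9 : cn' * cd + d ≤ d * (2 ^ k * z) := by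
    have : d * (16 * (2 ^ k * z)) = 16 * (d * (2 ^ k * z)) := by ring
    omega
  rw [e, Nat.mul_sub, Nat.mul_one]
  have h10 : (cn' * cd + d) * (2 ^ k * z) = cn' * cd * (2 ^ k * z) + d * (2 ^ k * z) := by ring
  rw [h10]
  omega

end Pool.Agent.Helper93
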