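import Pool.Agent.Helper93.DataF

set_option autoImplicit false

namespace Pool.Agent.Helper93

def AdmX (X Y i t : ℕ) : Prop :=
  (i = 0 ∧ t = 0) ∨ (27 * (2 * t + 1) * Y ≤ 50 * (2 ^ i * X) ∧ 1000 * (2 ^ i * X) < VV t * Y)

def FinX (aL X Y i j k : ℕ) (v0 y : ℤ) : Prop :=
  ¬ (3 : ℤ) ∣ y ∧ 20 * 2 ^ (i + k) * (10000 * X) ≤ 19 * 3 ^ j * aL * Y ∧
    20 * (3 ^ j * y - 2 ^ k * v0) ≤ 76 * 2 ^ (i + k) * (j : ℤ)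

def DeepX (aL aN X Y i j k : ℕ) (v0 y : ℤ) : Prop :=
  ∃ z m : ℕ, (3 : ℤ) ^ m ∣ y + z ∧ ¬ 3 ∣ z ∧ 0 < z ∧ z ≤ gE m ∧ m ≤ 20 ∧
    aN * 2 ^ (i + k) * X ≤ z * 3 ^ j * aL * Y ∧
    20 * (3 ^ j * (y + z) - 2 ^ k * v0) ≤ 76 * 2 ^ (i + k) * ((j : ℤ) + m)

def FX (aL aN X Y : ℕ) (v : ℤ) : Prop :=
  ∃ i t j k : ℕ, ∃ y : ℤ, AdmX X Y i t ∧ j ≤ 11 ∧ Path j k (2 ^ i * v - t) y ∧
    (FinX aL X Y i j k (2 ^ i * v - t) y ∨ DeepX aL aN X Y i j k (2 ^ i * v - t) y)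

/-- all windows of one level together -/
def FLevel (aL aN : ℕ) : Prop :=
  ∀ X Y : ℕ, 0 < Y → 27 * Y ≤ 50 * X → 25 * X < 27 * Y → 19 * aL * Y < 200000 * X →
    ∀ v : ℤ, ¬ (3 : ℤ) ∣ v → FX aL aN X Y v

theorem FX_of_FWin {aL aN b b' X Y : ℕ} (hY : 0 < Y) (h : FWin aL aN b b') (h1 : b * Y ≤ 10000 * X)
    (h2 : 10000 * X ≤ b' * Y) : ∀ v : ℤ, ¬ (3 : ℤ) ∣ v → FX aL aN X Y v := by
  intro v hv
  obtain ⟨i, t, j, k, y, hadm, hj, hp, hc⟩ := h v hv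
  refine ⟨i, t, j, k, y, ?_, hj, hp, ?_⟩
  · rcases hadm with h | ⟨ha, hb⟩
    · exact Or.inl h
    · right
      constructor
      · -- 270000 (2t+1) ≤ 50 2^i b, b Y ≤ 10000 X
        have e1 : 270000 * (2 * t + 1) * Y ≤ 50 * 2 ^ i * b * Y := Nat.mul_le_mul_right Y ha
        have e2 : 50 * 2 ^ i * (b * Y) ≤ 50 * 2 ^ i * (10000 * X) := Nat.mul_le_mul_left _ h1
        have e3 : 10000 * (27 * (2 * t + 1) * Y) ≤ 10000 * (50 * (2 ^ i * X)) := by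
          calc 10000 * (27 * (2 * t + 1) * Y) = 270000 * (2 * t + 1) * Y := by ring
            _ ≤ 50 * 2 ^ i * b * Y := e1
            _ = 50 * 2 ^ i * (b * Y) := by ring
            _ ≤ 50 * 2 ^ i * (10000 * X) := e2
            _ = 10000 * (50 * (2 ^ i * X)) := by ring
        exact Nat.le_of_mul_le_mul_left e3 (by norm_num)
      · have e1 : 1000 * 2 ^ i * b' * Y < VV t * 10000 * Y := Nat.mul_lt_mul_of_pos_right hb hY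
        have e2 : 1000 * 2 ^ i * (10000 * X) ≤ 1000 * 2 ^ i * (b' * Y) := Nat.mul_le_mul_left _ h2
        have e3 : 10000 * (1000 * (2 ^ i * X)) < 10000 * (VV t * Y) := by
          calc 10000 * (1000 * (2 ^ i * X)) = 1000 * 2 ^ i * (10000 * X) := by ring
            _ ≤ 1000 * 2 ^ i * (b' * Y) := e2
            _ = 1000 * 2 ^ i * b' * Y := by ring
            _ < VV t * 10000 * Y := e1
            _ = 10000 * (VV t * Y) := by ring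
        exact Nat.lt_of_mul_lt_mul_left e3
  · rcases hc with ⟨f1, f2, f3⟩ | ⟨z, m, d1, d2, d3, d4, d5, d6, d7⟩
    · left
      refine ⟨f1, ?_, f3⟩
      calc 20 * 2 ^ (i + k) * (10000 * X) ≤ 20 * 2 ^ (i + k) * (b' * Y) := Nat.mul_le_mul_left _ h2
        _ = (20 * 2 ^ (i + k) * b') * Y := by ring
        _ ≤ (19 * 3 ^ j * aL) * Y := Nat.mul_le_mul_right Y f2
    · right
      refine ⟨z, m, d1, d2, d3, d4, d5, ?_, d7⟩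
      have e : 10000 * (aN * 2 ^ (i + k) * X) ≤ 10000 * (z * 3 ^ j * aL * Y) := by
        calc 10000 * (aN * 2 ^ (i + k) * X) = aN * 2 ^ (i + k) * (10000 * X) := by ring
          _ ≤ aN * 2 ^ (i + k) * (b' * Y) := Nat.mul_le_mul_left _ h2
          _ = (aN * 2 ^ (i + k) * b') * Y := by ring
          _ ≤ (10000 * z * 3 ^ j * aL) * Y := Nat.mul_le_mul_right Y d6
          _ = 10000 * (z * 3 ^ j * aL * Y) := by ring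
      exact Nat.le_of_mul_le_mul_left e (by norm_num)

theorem level5000 : FLevel 5000 5600 := by
  intro X Y hY h1 h2 h3 v hv
  have hc : (5400 * Y ≤ 10000 * X ∧ 10000 * X ≤ 6155 * Y) ∨ (6155 * Y ≤ 10000 * X ∧ 10000 * X ≤ 7016 * Y) ∨ (7016 * Y ≤ 10000 * X ∧ 10000 * X ≤ 7998 * Y) ∨ (7998 * Y ≤ 10000 * X ∧ 10000 * X ≤ 8546 * Y) ∨ (8546 * Y ≤ 10000 * X ∧ 10000 * X ≤ 8833 * Y) ∨ (8833 * Y ≤ 10000 * X ∧ 10000 * X ≤ 10069 * Y) ∨ (10069 * Y ≤ 10000 * X ∧ 10000 * X ≤ 10800 * Y) := by omega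
  rcases hc with ⟨c1, c2⟩ | ⟨c1, c2⟩ | ⟨c1, c2⟩ | ⟨c1, c2⟩ | ⟨c1, c2⟩ | ⟨c1, c2⟩ | ⟨c1, c2⟩
  · exact FX_of_FWin hY w5000_5400 c1 c2 v hv
  · exact FX_of_FWin hY w5000_6155 c1 c2 v hv
  · exact FX_of_FWin hY w5000_7016 c1 c2 v hv
  · exact FX_of_FWin hY w5000_7998 c1 c2 v hv
  · exact FX_of_FWin hY w5000_8546 c1 c2 v hv
  · exact FX_of_FWin hY w5000_8833 c1 c2 v hv
  · exact FX_of_FWin hY w5000_10069 c1 c2 v hv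

theorem level5600 : FLevel 5600 6300 := by
  intro X Y hY h1 h2 h3 v hv
  have hc : (5400 * Y ≤ 10000 * X ∧ 10000 * X ≤ 6155 * Y) ∨ (6155 * Y ≤ 10000 * X ∧ 10000 * X ≤ 7016 * Y) ∨ (7016 * Y ≤ 10000 * X ∧ 10000 * X ≤ 7998 * Y) ∨ (7998 * Y ≤ 10000 * X ∧ 10000 * X ≤ 8546 * Y) ∨ (8546 * Y ≤ 10000 * X ∧ 10000 * X ≤ 8833 * Y) ∨ (8833 * Y ≤ 10000 * X ∧ 10000 * X ≤ 10069 * Y) ∨ (10069 * Y ≤ 10000 * X ∧ 10000 * X ≤ 10800 * Y) := by omega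
  rcases hc with ⟨c1, c2⟩ | ⟨c1, c2⟩ | ⟨c1, c2⟩ | ⟨c1, c2⟩ | ⟨c1, c2⟩ | ⟨c1, c2⟩ | ⟨c1, c2⟩
  · exact FX_of_FWin hY w5600_5400 c1 c2 v hv
  · exact FX_of_FWin hY w5600_6155 c1 c2 v hv
  · exact FX_of_FWin hY w5600_7016 c1 c2 v hv
  · exact FX_of_FWin hY w5600_7998 c1 c2 v hv
  · exact FX_of_FWin hY w5600_8546 c1 c2 v hv
  · exact FX_of_FWin hY w5600_8833 c1 c2 v hv
  · exact FX_of_FWin hY w5600_10069 c1 c2 v hv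

theorem level6300 : FLevel 6300 7100 := by
  intro X Y hY h1 h2 h3 v hv
  have hc : (5985 * Y ≤ 10000 * X ∧ 10000 * X ≤ 6822 * Y) ∨ (6822 * Y ≤ 10000 * X ∧ 10000 * X ≤ 7777 * Y) ∨ (7777 * Y ≤ 10000 * X ∧ 10000 * X ≤ 8539 * Y) ∨ (8539 * Y ≤ 10000 * X ∧ 10000 * X ≤ 8826 * Y) ∨ (8826 * Y ≤ 10000 * X ∧ 10000 * X ≤ 10061 * Y) ∨ (10061 * Y ≤ 10000 * X ∧ 10000 * X ≤ 10800 * Y) := by omega
  rcases hc with ⟨c1, c2⟩ | ⟨c1, c2⟩ | ⟨c1, c2⟩ | ⟨c1, c2⟩ | ⟨c1, c2⟩ | ⟨c1, c2⟩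
  · exact FX_of_FWin hY w6300_5985 c1 c2 v hv
  · exact FX_of_FWin hY w6300_6822 c1 c2 v hv
  · exact FX_of_FWin hY w6300_7777 c1 c2 v hv
  · exact FX_of_FWin hY w6300_8539 c1 c2 v hv
  · exact FX_of_FWin hY w6300_8826 c1 c2 v hv
  · exact FX_of_FWin hY w6300_10061 c1 c2 v hv

theorem level7100 : FLevel 7100 8000 := by
  intro X Y hY h1 h2 h3 v hv
  have hc : (6745 * Y ≤ 10000 * X ∧ 10000 * X ≤ 7406 * Y) ∨ (7406 * Y ≤ 10000 * X ∧ 10000 * X ≤ 8442 * Y) ∨ (8442 * Y ≤ 10000 * X ∧ 10000 * X ≤ 8847 * Y) ∨ (8847 * Y ≤ 10000 * X ∧ 10000 * X ≤ 10085 * Y) ∨ (10085 * Y ≤ 10000 * X ∧ 10000 * X ≤ 10800 * Y) := by omega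
  rcases hc with ⟨c1, c2⟩ | ⟨c1, c2⟩ | ⟨c1, c2⟩ | ⟨c1, c2⟩ | ⟨c1, c2⟩
  · exact FX_of_FWin hY w7100_6745 c1 c2 v hv
  · exact FX_of_FWin hY w7100_7406 c1 c2 v hv
  · exact FX_of_FWin hY w7100_8442 c1 c2 v hv
  · exact FX_of_FWin hY w7100_8847 c1 c2 v hv
  · exact FX_of_FWin hY w7100_10085 c1 c2 v hv

theorem level8000 : FLevel 8000 9000 := by
  intro X Y hY h1 h2 h3 v hv
  have hc : (7600 * Y ≤ 10000 * X ∧ 10000 * X ≤ 8664 * Y) ∨ (8664 * Y ≤ 10000 * X ∧ 10000 * X ≤ 8867 * Y) ∨ (8867 * Y ≤ 10000 * X ∧ 10000 * X ≤ 10108 * Y) ∨ (10108 * Y ≤ 10000 * X ∧ 10000 * X ≤ 10800 * Y) := by omega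
  rcases hc with ⟨c1, c2⟩ | ⟨c1, c2⟩ | ⟨c1, c2⟩ | ⟨c1, c2⟩
  · exact FX_of_FWin hY w8000_7600 c1 c2 v hv
  · exact FX_of_FWin hY w8000_8664 c1 c2 v hv
  · exact FX_of_FWin hY w8000_8867 c1 c2 v hv
  · exact FX_of_FWin hY w8000_10108 c1 c2 v hv

theorem level9000 : FLevel 9000 10100 := by
  intro X Y hY h1 h2 h3 v hv
  have hc : (8550 * Y ≤ 10000 * X ∧ 10000 * X ≤ 8837 * Y) ∨ (8837 * Y ≤ 10000 * X ∧ 10000 * X ≤ 10074 * Y) ∨ (10074 * Y ≤ 10000 * X ∧ 10000 * X ≤ 10800 * Y) := by omega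
  rcases hc with ⟨c1, c2⟩ | ⟨c1, c2⟩ | ⟨c1, c2⟩
  · exact FX_of_FWin hY w9000_8550 c1 c2 v hv
  · exact FX_of_FWin hY w9000_8837 c1 c2 v hv
  · exact FX_of_FWin hY w9000_10074 c1 c2 v hv

theorem level10100 : FLevel 10100 11400 := by
  intro X Y hY h1 h2 h3 v hv
  have hc : (9595 * Y ≤ 10000 * X ∧ 10000 * X ≤ 10800 * Y) := by omega
  obtain ⟨c1, c2⟩ := hc
  exact FX_of_FWin hY w10100_9595 c1 c2 v hv

end Pool.Agent.Helper93
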