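import Pool.Agent.Helper93.Tables

set_option autoImplicit false

namespace Pool.Agent.Helper93

def condM (r1 r2 Jm z z' j k : ℕ) : Bool :=
  Nat.ble 1 (z' % 3) && (Nat.ble 1 j && (Nat.ble j Jm && (Nat.ble (r1 ^ j * 2 ^ k) (r2 ^ j * 3 ^ j) &&
    Nat.ble (2 ^ k * z) (3 ^ j * z' + 2 * j * 2 ^ k))))

def chkM (lo hi r1 r2 Jm : ℕ) (N r p : ℕ) : Bool :=
  (Nat.ble (hi + 1) r || (Nat.ble r lo && Nat.ble (hi + 1) (r + 3 ^ N))) ||
  match p % 2 with
  | 1 => runZ (fun _ z' j k => Nat.ble (j + 1) N && condM r1 r2 Jm r z' j k) 32 (p / 2) r 0 0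
  | _ => Nat.ble (hi + 1) (r + 3 ^ N) &&
      runZ (fun _ z' j k => condM r1 r2 Jm r z' j k) 32 (p / 2) r 0 0

def MC (r1 r2 Jm z : ℕ) : Prop :=
  ∃ j k z' : ℕ, 1 ≤ j ∧ j ≤ Jm ∧ Path j k (-(z : ℤ)) (-(z' : ℤ)) ∧ 0 < z' ∧ ¬ 3 ∣ z' ∧
    r1 ^ j * 2 ^ k ≤ r2 ^ j * 3 ^ j ∧ 2 ^ k * z ≤ 3 ^ j * z' + 2 * j * 2 ^ k

def QM (lo hi r1 r2 Jm z : ℕ) : Prop := lo < z → z ≤ hi → ¬ 3 ∣ z → MC r1 r2 Jm z

theorem condM_sound {r1 r2 Jm z z' j k : ℕ} (h : condM r1 r2 Jm z z' j k = true) :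
    1 ≤ z' % 3 ∧ 1 ≤ j ∧ j ≤ Jm ∧ r1 ^ j * 2 ^ k ≤ r2 ^ j * 3 ^ j ∧
      2 ^ k * z ≤ 3 ^ j * z' + 2 * j * 2 ^ k := by
  unfold condM at h
  simp only [Bool.and_eq_true] at h
  obtain ⟨c1, c2, c3, c4, c5⟩ := h
  exact ⟨Nat.le_of_ble_eq_true c1, Nat.le_of_ble_eq_true c2, Nat.le_of_ble_eq_true c3,
    Nat.le_of_ble_eq_true c4, Nat.le_of_ble_eq_true c5⟩

theorem chkM_sound {lo hi r1 r2 Jm N r p : ℕ} (h : chkM lo hi r1 r2 Jm N r p = true) :
    ∀ s : ℕ, QM lo hi r1 r2 Jm (r + 3 ^ N * s) := by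
  intro s hlo hhi h3
  unfold chkM at h
  rw [Bool.or_eq_true, Bool.or_eq_true, Bool.and_eq_true] at h
  have single : hi + 1 ≤ r + 3 ^ N → s = 0 := by
    intro h1
    rcases Nat.eq_zero_or_pos s with h | h
    · exact h
    · exfalso
      have : 3 ^ N ≤ 3 ^ N * s := Nat.le_mul_of_pos_right _ h
      omega
  rcases h with (h | ⟨h1, h2⟩) | h
  · have h := Nat.le_of_ble_eq_true h
    exfalso
    have : r ≤ r + 3 ^ N * s := Nat.le_add_right _ _
    omega
  · have h1 := Nat.le_of_ble_eq_true h1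
    have h2 := Nat.le_of_ble_eq_true h2
    have h0 := single h2
    subst h0
    exfalso
    omega
  · split at h
    · obtain ⟨w', z', j, k, hp, hc⟩ := runZ_sound _ _ _ _ _ _ h
      rw [Nat.zero_add, Nat.zero_add, Bool.and_eq_true] at hc
      obtain ⟨c0, hc⟩ := hc
      have c0 := Nat.le_of_ble_eq_true c0
      obtain ⟨c1, c2, c3, c4, c5⟩ := condM_sound hc
      obtain ⟨m, rfl⟩ := Nat.exists_eq_add_of_le c0
      have hp' := hp.translate (-(3 ^ (m + 1) * (s : ℤ)))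
      have e1 : -(r : ℤ) + 3 ^ j * (-(3 ^ (m + 1) * (s : ℤ))) = -((r + 3 ^ (j + 1 + m) * s : ℕ) : ℤ) := by
        push_cast; ring
      have e2 : -(z' : ℤ) + 2 ^ k * (-(3 ^ (m + 1) * (s : ℤ))) = -((z' + 2 ^ k * (3 ^ (m + 1) * s) : ℕ) : ℤ) := by
        push_cast; ring
      rw [e1, e2] at hp'
      refine ⟨j, k, z' + 2 ^ k * (3 ^ (m + 1) * s), c2, c3, hp', ?_, ?_, c4, ?_⟩
      · have : 0 < z' := by omega
        omega
      · intro hd
        have h4 : 3 ∣ 2 ^ k * (3 ^ (m + 1) * s) :=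
          Dvd.dvd.mul_left (Dvd.dvd.mul_right (dvd_pow_self 3 (Nat.succ_ne_zero m)) s) _
        have h5 : 3 ∣ z' := (Nat.dvd_add_left h4).1 hd
        omega
      · have e3 : 2 ^ k * (r + 3 ^ (j + 1 + m) * s) = 2 ^ k * r + 2 ^ k * (3 ^ (j + 1 + m) * s) := by ring
        have e4 : 3 ^ j * (z' + 2 ^ k * (3 ^ (m + 1) * s)) = 3 ^ j * z' + 2 ^ k * (3 ^ (j + 1 + m) * s) := by ring
        rw [e3, e4]
        omega
    · rw [Bool.and_eq_true] at h
      obtain ⟨h1, h2⟩ := h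
      have h1 := Nat.le_of_ble_eq_true h1
      have h0 := single h1
      subst h0
      rw [Nat.mul_zero, Nat.add_zero] at *
      obtain ⟨w', z', j, k, hp, hc⟩ := runZ_sound _ _ _ _ _ _ h2
      rw [Nat.zero_add, Nat.zero_add] at hc
      obtain ⟨c1, c2, c3, c4, c5⟩ := condM_sound hc
      exact ⟨j, k, z', c2, c3, hp, by omega, by omega, c4, c5⟩

theorem MT_of_walk {lo hi r1 r2 Jm f d : ℕ}
    (h : walk (chkM lo hi r1 r2 Jm) f d [(1, 1), (1, 2)] = true) :
    ∀ z : ℕ, QM lo hi r1 r2 Jm z := by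
  have key := walk_sound (chkM lo hi r1 r2 Jm) (fun N r => ∀ s : ℕ, QM lo hi r1 r2 Jm (r + 3 ^ N * s))
    (fun N r h0 h1 h2 => split_liftN (QM lo hi r1 r2 Jm) N r h0 h1 h2)
    (fun N r p hp => chkM_sound hp) f d _ h
  intro z hlo hhi h3
  have hmod : z % 3 = 1 ∨ z % 3 = 2 := by omega
  rcases hmod with hm | hm
  · have := key (1, 1) (by simp) (z / 3)
    have e : ((1, 1) : ℕ × ℕ).2 + 3 ^ ((1, 1) : ℕ × ℕ).1 * (z / 3) = z := by
      simp only [pow_one]; omega
    rw [e] at this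
    exact this hlo hhi h3
  · have := key (1, 2) (by simp) (z / 3)
    have e : ((1, 2) : ℕ × ℕ).2 + 3 ^ ((1, 2) : ℕ × ℕ).1 * (z / 3) = z := by
      simp only [pow_one]; omega
    rw [e] at this
    exact this hlo hhi h3

/-- upper bound for all thresholds -/
def Cinf : ℕ := 1080000000000

/-- numerical conditions between `s` and `s+1` -/
def stepB (r1 r2 s : ℕ) : Bool :=
  Nat.ble (r2 * gt (s + 1)) (r1 * gt s) && (Nat.ble (gt s) (gt (s + 1)) && (Nat.ble (ct (s + 1)) Cinf &&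
    Nat.ble (16 * Cinf + 3 * gt s * ct s) (3 * gt s * ct (s + 1))))

def allB (P : ℕ → Bool) : ℕ → ℕ → Bool
  | 0, _ => true
  | n + 1, a => P a && force (a + 1) (fun b => allB P n b)

theorem allB_sound (P : ℕ → Bool) : ∀ n a, allB P n a = true → ∀ s, a ≤ s → s < a + n → P s = true := by
  intro n
  induction n with
  | zero => intro a _ s h1 h2; omega
  | succ n ih =>
    intro a h s h1 h2
    rw [allB, force_eq, Bool.and_eq_true] at h
    rcases Nat.eq_or_lt_of_le h1 with h3 | h3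
    · rw [← h3]; exact h.1
    · exact ih (a + 1) h.2 s h3 (by omega)

theorem stepB_sound {r1 r2 s : ℕ} (h : stepB r1 r2 s = true) :
    r2 * gt (s + 1) ≤ r1 * gt s ∧ gt s ≤ gt (s + 1) ∧ ct (s + 1) ≤ Cinf ∧
      16 * Cinf + 3 * gt s * ct s ≤ 3 * gt s * ct (s + 1) := by
  unfold stepB at h
  simp only [Bool.and_eq_true] at h
  exact ⟨Nat.le_of_ble_eq_true h.1, Nat.le_of_ble_eq_true h.2.1, Nat.le_of_ble_eq_true h.2.2.1,
    Nat.le_of_ble_eq_true h.2.2.2⟩

/-- iterate the step conditions -/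
theorem steps_iter {r1 r2 T J : ℕ} (hst : ∀ s, T < s + 1 + J → s < T → stepB r1 r2 s = true) :
    ∀ j, j ≤ J → j ≤ T → r2 ^ j * gt T ≤ r1 ^ j * gt (T - j) ∧ gt (T - j) ≤ gt T ∧
      16 * Cinf * j + 3 * gt (T - 1) * ct (T - j) ≤ 3 * gt (T - 1) * ct T := by
  intro j
  induction j with
  | zero => intro _ _; simp
  | succ j ih =>
    intro h1 h2
    obtain ⟨i1, i2, i3⟩ := ih (by omega) (by omega)
    obtain ⟨s, hs⟩ : ∃ s, T - j = s + 1 := ⟨T - (j + 1), by omega⟩
    have hs' : T - (j + 1) = s := by omega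
    rw [hs] at i1 i2 i3
    rw [hs']
    obtain ⟨a1, a2, a3, a4⟩ := stepB_sound (hst s (by omega) (by omega))
    have hmono : gt s ≤ gt (T - 1) := by
      rcases Nat.eq_zero_or_pos j with h | h
      · subst h
        have : T - 1 = s := by omega
        rw [this]
      · -- s + 1 ≤ T - 1
        have : ∀ i, i ≤ j → gt (T - 1 - i) ≤ gt (T - 1) := by
          intro i
          induction i with
          | zero => intro _; simp
          | succ i ihi =>
            intro hi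
            have h4 := (stepB_sound (hst (T - 1 - (i + 1)) (by omega) (by omega))).2.1
            have e : T - 1 - (i + 1) + 1 = T - 1 - i := by omega
            rw [e] at h4
            exact h4.trans (ihi (by omega))
        have h5 := this j (le_refl _)
        have e : T - 1 - j = s := by omega
        rwa [e] at h5
    refine ⟨?_, a2.trans i2, ?_⟩
    · calc r2 ^ (j + 1) * gt T = r2 * (r2 ^ j * gt T) := by rw [pow_succ]; ring
        _ ≤ r2 * (r1 ^ j * gt (s + 1)) := Nat.mul_le_mul_left _ i1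
        _ = r1 ^ j * (r2 * gt (s + 1)) := by ring
        _ ≤ r1 ^ j * (r1 * gt s) := Nat.mul_le_mul_left _ a1
        _ = r1 ^ (j + 1) * gt s := by rw [pow_succ]; ring
    · -- 16 Cinf ≤ 3 gt s (ct (s+1) - ct s) ≤ 3 gt (T-1) (ct (s+1) - ct s)
      have hct : ct s ≤ ct (s + 1) := by
        by_contra hc
        push Not at hc
        have : 3 * gt s * ct (s + 1) ≤ 3 * gt s * ct s := Nat.mul_le_mul_left _ hc.le
        have hC : 0 < Cinf := by unfold Cinf; norm_num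
        omega
      obtain ⟨d, hd⟩ := Nat.exists_eq_add_of_le hct
      rw [hd] at a4 i3
      have b1 : 16 * Cinf ≤ 3 * gt s * d := by
        have : 3 * gt s * (ct s + d) = 3 * gt s * ct s + 3 * gt s * d := by ring
        omega
      have b2 : 3 * gt s * d ≤ 3 * gt (T - 1) * d := Nat.mul_le_mul_right _ (Nat.mul_le_mul_left _ hmono)
      have b3 : 3 * gt (T - 1) * (ct s + d) = 3 * gt (T - 1) * ct s + 3 * gt (T - 1) * d := by ring
      have b4 : 16 * Cinf * (j + 1) = 16 * Cinf * j + 16 * Cinf := by ring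
      omega

theorem phaseI {r1 r2 Jm lo hi T : ℕ} (hr1 : 0 < r1) (hMT : ∀ z : ℕ, QM lo hi r1 r2 Jm z)
    (hJm : 1 ≤ Jm) (hT : Jm + 5 ≤ T) (hst : ∀ s, T < s + 1 + Jm → s < T → stepB r1 r2 s = true)
    (hlo : 8 * lo ≤ 3 * gt (T - 1)) (hhi : gt T ≤ hi) (hct : 0 < ct T)
    (H : ∀ R, 5 ≤ R → R < T → Tab gt ct R) : PP T (gt T) (ct T) cdd := by
  intro z t K hz0 hzg hz3 hlow hup
  have hC : ct T ≤ Cinf := by
    have := (stepB_sound (hst (T - 1) (by omega) (by omega))).2.2.1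
    have e : T - 1 + 1 = T := by omega
    rwa [e] at this
  by_cases hup8 : 8 * z ≤ 3 * gt (T - 1)
  · -- step up
    obtain ⟨R, rfl⟩ : ∃ R, T = R + 1 := ⟨T - 1, by omega⟩
    simp only [Nat.add_sub_cancel] at *
    have hR := H R (by omega) (by omega)
    obtain ⟨a1, a2, a3, a4⟩ := stepB_sound (hst R (by omega) (by omega))
    refine upStep hR.1 hz0 hz3 hup8 cdd_pos hct hR.2 ?_ hlow hup
    have hct' : ct R ≤ ct (R + 1) := by
      by_contra hc
      push Not at hc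
      have : 3 * gt R * ct (R + 1) ≤ 3 * gt R * ct R := Nat.mul_le_mul_left _ hc.le
      have hC : 0 < Cinf := by unfold Cinf; norm_num
      omega
    have h1 : 16 * ct (R + 1) + ct R * (3 * gt R + 1) ≤ ct (R + 1) * (3 * gt R + 1) := by
      have e1 : ct R * (3 * gt R + 1) = 3 * gt R * ct R + ct R := by ring
      have e2 : ct (R + 1) * (3 * gt R + 1) = 3 * gt R * ct (R + 1) + ct (R + 1) := by ring
      omega
    calc 16 * (ct (R + 1) * cdd) + ct R * cdd * (3 * gt R + 1)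
        = cdd * (16 * ct (R + 1) + ct R * (3 * gt R + 1)) := by ring
      _ ≤ cdd * (ct (R + 1) * (3 * gt R + 1)) := Nat.mul_le_mul_left _ h1
      _ = ct (R + 1) * cdd * (3 * gt R + 1) := by ring
  · push Not at hup8
    obtain ⟨j, k, z', hj1, hjm, hp, hz', hz'3, hrate, hW⟩ := hMT z (by omega) (hzg.trans hhi) hz3
    obtain ⟨i1, i2, i3⟩ := steps_iter hst j hjm (by omega)
    obtain ⟨R, rfl⟩ := Nat.exists_eq_add_of_le (show j ≤ T by omega)
    rw [Nat.add_sub_cancel_left] at i1 i2 i3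
    have hR := H R (by omega) (by omega)
    have hle := path_le hp
    refine landC hp hR.1 hz0 hz' ?_ hz'3 cdd_pos hct hR.2 ?_ hlow hup
    · have e : (r1 ^ j * 3 ^ j) * z' ≤ (r1 ^ j * 3 ^ j) * gt R := by
        calc (r1 ^ j * 3 ^ j) * z' = r1 ^ j * (3 ^ j * z') := by ring
          _ ≤ r1 ^ j * (2 ^ k * z) := Nat.mul_le_mul_left _ hle
          _ = (r1 ^ j * 2 ^ k) * z := by ring
          _ ≤ (r2 ^ j * 3 ^ j) * z := Nat.mul_le_mul_right _ hrate
          _ ≤ (r2 ^ j * 3 ^ j) * gt (j + R) := Nat.mul_le_mul_left _ hzg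
          _ = 3 ^ j * (r2 ^ j * gt (j + R)) := by ring
          _ ≤ 3 ^ j * (r1 ^ j * gt R) := Nat.mul_le_mul_left _ i1
          _ = (r1 ^ j * 3 ^ j) * gt R := by ring
      exact Nat.le_of_mul_le_mul_left e (by positivity)
    · -- cost: ct R * 2^k z ≤ ct T * 3^j z'
      have h1 : 16 * ct (j + R) * j + 3 * gt (j + R - 1) * ct R ≤ 3 * gt (j + R - 1) * ct (j + R) := by
        have : 16 * ct (j + R) * j ≤ 16 * Cinf * j := Nat.mul_le_mul_right _ (Nat.mul_le_mul_left _ hC)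
        omega
      generalize ct (j + R) = c at *
      generalize ct R = c' at *
      generalize gt (j + R - 1) = g at *
      have hcc : c' ≤ c := by
        by_contra hc
        push Not at hc
        have h2 : 3 * g * c ≤ 3 * g * c' := Nat.mul_le_mul_left _ hc.le
        have h3 : 0 < 16 * c * j := by positivity
        omega
      obtain ⟨d, rfl⟩ := Nat.exists_eq_add_of_le hcc
      -- 16 (c'+d) j ≤ 3 g d, 3 g ≤ 8 z
      have h2 : 16 * (c' + d) * j ≤ 3 * g * d := by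
        have : 3 * g * (c' + d) = 3 * g * c' + 3 * g * d := by ring
        omega
      have h3 : 3 * g * d ≤ 8 * z * d := Nat.mul_le_mul_right _ hup8.le
      have h4 : 2 * (c' + d) * j ≤ z * d := by
        have e1 : 16 * (c' + d) * j = 8 * (2 * (c' + d) * j) := by ring
        have e2 : 8 * z * d = 8 * (z * d) := by ring
        omega
      have h5 : 2 ^ k * (2 * (c' + d) * j) ≤ 2 ^ k * (z * d) := Nat.mul_le_mul_left _ h4
      have h6 : (c' + d) * (2 ^ k * z) ≤ (c' + d) * (3 ^ j * z' + 2 * j * 2 ^ k) := Nat.mul_le_mul_left _ hW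
      have e3 : (c' + d) * (2 ^ k * z) = c' * (2 ^ k * z) + 2 ^ k * (z * d) := by ring
      have e4 : (c' + d) * (3 ^ j * z' + 2 * j * 2 ^ k) = (c' + d) * (3 ^ j * z') + 2 ^ k * (2 * (c' + d) * j) := by ring
      have h7 : c' * (2 ^ k * z) ≤ (c' + d) * (3 ^ j * z') := by omega
      calc c' * cdd * (2 ^ k * z) = cdd * (c' * (2 ^ k * z)) := by ring
        _ ≤ cdd * ((c' + d) * (3 ^ j * z')) := Nat.mul_le_mul_left _ h7
        _ = (c' + d) * cdd * (3 ^ j * z') := by ring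

end Pool.Agent.Helper93
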