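import Pool.Agent.Helper93.TabsAll

set_option autoImplicit false
set_option exponentiation.threshold 2000

namespace Pool.Agent.Helper93

/-- the shifted length -/
def xx (T : ℕ) : ℕ := T + 9451

theorem xx_eq (T : ℕ) : xx T = T + 9451 := rfl

/-- size and threshold in the second phase -/
def P2 (T : ℕ) : Prop :=
  PP T (xx T ^ 2 / 10) (27 * (xx T - 108)) (25 * xx T)

theorem growth1 (R : ℕ) (h : 299 ≤ R) : xx R ^ 2 < 3 ^ R := by
  induction R, h using Nat.le_induction with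
  | base => unfold xx; norm_num
  | succ R hR ih =>
    have h1 := xx_eq (R + 1)
    have h2 := xx_eq R
    generalize xx (R + 1) = y at *
    generalize xx R = x at *
    have hy : y = x + 1 := by omega
    subst hy
    have e : (x + 1) ^ 2 ≤ 3 * x ^ 2 := by nlinarith
    calc (x + 1) ^ 2 ≤ 3 * x ^ 2 := e
      _ < 3 * 3 ^ R := by omega
      _ = 3 ^ (R + 1) := by rw [pow_succ]; ring

theorem growth2 (N : ℕ) (h : 20 ≤ N) : 1200000 * (N + 1) ^ 2 < 3 ^ (N + 1) := by
  induction N, h using Nat.le_induction with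
  | base => norm_num
  | succ N hN ih =>
    have e : 1200000 * (N + 1 + 1) ^ 2 ≤ 3 * (1200000 * (N + 1) ^ 2) := by nlinarith
    calc 1200000 * (N + 1 + 1) ^ 2 ≤ 3 * (1200000 * (N + 1) ^ 2) := e
      _ < 3 * 3 ^ (N + 1) := by omega
      _ = 3 ^ (N + 1 + 1) := by rw [pow_succ 3 (N + 1)]; ring

theorem small2 (R : ℕ) (h : 299 ≤ R) :
    25 * xx R * (xx R ^ 2 / 10) < 27 * (xx R - 108) * 3 ^ R := by
  have h1 := growth1 R h
  have hx := xx_eq R
  generalize xx R = x at *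
  have h2 : x ^ 2 / 10 ≤ x ^ 2 := Nat.div_le_self _ _
  have h3 : 25 * x ≤ 27 * (x - 108) := by omega
  calc 25 * x * (x ^ 2 / 10) ≤ 27 * (x - 108) * (x ^ 2 / 10) :=
        Nat.mul_le_mul_right _ h3
    _ ≤ 27 * (x - 108) * x ^ 2 := Nat.mul_le_mul_left _ h2
    _ < 27 * (x - 108) * 3 ^ R := Nat.mul_lt_mul_of_pos_left h1 (by omega)

def baseB (T : ℕ) : Bool :=
  Nat.ble (xx T ^ 2 / 10) (gt T) && Nat.ble (ct T * (25 * xx T)) (27 * (xx T - 108) * cdd)

theorem base_all : allB baseB 251 299 = true := by decide +kernel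

theorem P2_base (T : ℕ) (h1 : 299 ≤ T) (h2 : T ≤ 549) : P2 T := by
  have h := allB_sound _ _ _ base_all T h1 (by omega)
  unfold baseB at h
  rw [Bool.and_eq_true] at h
  have hx := xx_eq T
  exact PP_mono (allTab T (by omega) h2).1 (Nat.le_of_ble_eq_true h.1) (by omega)
    (Nat.le_of_ble_eq_true h.2)

def gB (T : ℕ) : Bool := Nat.ble (gE T) (gt T) && Nat.ble (25 * ct T) (27 * cdd)

theorem g_all : allB gB 545 5 = true := by decide +kernel

theorem EE_small (n : ℕ) (h : n ≤ 549) : EE n := by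
  rcases Nat.lt_or_ge n 5 with h5 | h5
  · intro z t K hz0 hzg
    exfalso
    have := gE_pos (lt_of_lt_of_le hz0 hzg)
    omega
  · have h1 := allB_sound _ _ _ g_all n h5 (by omega)
    unfold gB at h1
    rw [Bool.and_eq_true] at h1
    exact EE_of_PP (allTab n h5 h).1 (Nat.le_of_ble_eq_true h1.1) (Nat.le_of_ble_eq_true h1.2)

theorem EE_of_P2 {T : ℕ} (h : P2 T) : EE T := by
  have hx := xx_eq T
  unfold P2 at h
  generalize xx T = x at *
  refine EE_of_PP h ?_ ?_
  · have h1 := gE_le T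
    have h2 : 22 ≤ x ^ 2 / 10 := by
      rw [Nat.le_div_iff_mul_le (by norm_num)]
      have : 9451 ≤ x := by omega
      nlinarith
    omega
  · have e1 : 25 * (27 * (x - 108)) = 675 * (x - 108) := by ring
    have e2 : 27 * (25 * x) = 675 * x := by ring
    rw [e1, e2]
    omega

theorem upCase {R z t K x x' : ℕ} (hx : x = x' + 1) (hx' : 9000 ≤ x')
    (hP : PP R (x' ^ 2 / 10) (27 * (x' - 108)) (25 * x')) (hsmall : 25 * x' * (x' ^ 2 / 10) < 27 * (x' - 108) * 3 ^ R)
    (hz0 : 0 < z) (hz3 : ¬ 3 ∣ z) (hz8 : 8 * z ≤ 3 * (x' ^ 2 / 10))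
    (hlow : 27 * (x - 108) * ((2 * t + 1) * 3 ^ (R + 1)) ≤ 25 * x * (2 * (2 ^ K * z)))
    (hup : 1000 * (2 ^ K * z) < VV t * 3 ^ (R + 1)) :
    Path (R + 1) K (-(z : ℤ)) (-(t : ℤ)) := by
  refine upStep hP hz0 hz3 hz8 (by omega) (by omega) hsmall ?_ hlow hup
  have hg1 : x' ^ 2 ≤ 10 * (x' ^ 2 / 10) + 9 := by omega
  generalize x' ^ 2 / 10 = g' at *
  obtain ⟨u, rfl⟩ : ∃ u, x' = u + 108 := ⟨x' - 108, by omega⟩
  have e0 : x - 108 = u + 1 := by omega
  have e0' : u + 108 - 108 = u := by omega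
  rw [e0, e0']
  subst hx
  have key : 16 * ((u + 1) * (u + 108)) ≤ 108 * (3 * g' + 1) := by
    nlinarith
  have e1 : 27 * (u + 1) * (25 * (u + 108)) * (3 * g' + 1) =
      27 * u * (25 * (u + 108 + 1)) * (3 * g' + 1) + 675 * (108 * (3 * g' + 1)) := by
    ring
  have e2 : 16 * (27 * (u + 1) * (25 * (u + 108))) = 675 * (16 * ((u + 1) * (u + 108))) := by
    ring
  rw [e1, e2]
  have : 675 * (16 * ((u + 1) * (u + 108))) ≤ 675 * (108 * (3 * g' + 1)) :=
    Nat.mul_le_mul_left _ key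
  omega

theorem costKey {x n z g' : ℕ} (hn : 40 * n ≤ x) (hx : 9000 ≤ x) (hz : 3 * g' < 8 * z)
    (hg : (x - 1) ^ 2 ≤ 10 * g' + 9) (hz4 : 4 * n ≤ z) :
    (x - n - 108) * x * z ≤ (x - 108) * (x - n) * (z - 4 * n) := by
  obtain ⟨u, rfl⟩ : ∃ u, x = u + 108 := ⟨x - 108, by omega⟩
  obtain ⟨v, rfl⟩ : ∃ v, u = n + v := ⟨u - n, by omega⟩
  have a1 : n + v + 108 - n - 108 = v := by omega
  have a2 : n + v + 108 - 108 = n + v := by omega
  have a3 : n + v + 108 - n = v + 108 := by omega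
  have a4 : n + v + 108 - 1 = n + v + 107 := by omega
  rw [a1, a2, a3]
  rw [a4] at hg
  have h27 : (n + v) * (v + 108) ≤ 27 * z := by
    have h1 : (n + v) * (v + 108) ≤ (n + v) * (n + v + 108) := Nat.mul_le_mul_left _ (by omega)
    have h5 : (n + v) * (v + 108) + 106 * (n + v) + 11449 ≤ 10 * g' + 9 := by
      calc (n + v) * (v + 108) + 106 * (n + v) + 11449 ≤ (n + v) * (n + v + 108) + 106 * (n + v) + 11449 := by
            exact Nat.add_le_add_right (Nat.add_le_add_right h1 _) _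
        _ = (n + v + 107) ^ 2 := by ring
        _ ≤ 10 * g' + 9 := hg
    have h6 : 27 * (8 * z) = 8 * (27 * z) := by ring
    have h7 : 8 * ((n + v) * (v + 108)) ≤ 80 * g' := by
      have : 8 * ((n + v) * (v + 108) + 106 * (n + v) + 11449) ≤ 8 * (10 * g' + 9) := Nat.mul_le_mul_left 8 h5
      have e : 8 * ((n + v) * (v + 108) + 106 * (n + v) + 11449) =
          8 * ((n + v) * (v + 108)) + (848 * (n + v) + 91592) := by ring
      have e' : 8 * (10 * g' + 9) = 80 * g' + 72 := by ring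
      rw [e, e'] at this
      exact le_of_add_le_add_right (a := 848 * (n + v) + 91592)
        (this.trans (Nat.add_le_add_left (by omega) _))
    have h8 : 80 * g' ≤ 8 * (27 * z) := by
      have : 27 * (3 * g') ≤ 27 * (8 * z) := Nat.mul_le_mul_left 27 hz.le
      rw [h6] at this
      have e : 27 * (3 * g') = 81 * g' := by ring
      rw [e] at this
      omega
    exact Nat.le_of_mul_le_mul_left (h7.trans h8) (by norm_num)
  obtain ⟨q, hq⟩ : ∃ q, z = 4 * n + q := ⟨z - 4 * n, by omega⟩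
  have hq2 : z - 4 * n = q := by omega
  rw [hq2]
  have e1 : (n + v) * (v + 108) = v * (n + v + 108) + 108 * n := by ring
  rw [e1] at h27 ⊢
  have e2 : (v * (n + v + 108) + 108 * n) * (4 * n) ≤ 108 * n * z := by
    have := Nat.mul_le_mul_right (4 * n) h27
    calc (v * (n + v + 108) + 108 * n) * (4 * n) ≤ 27 * z * (4 * n) := this
      _ = 108 * n * z := by ring
  have e3 : (v * (n + v + 108) + 108 * n) * z = v * (n + v + 108) * z + 108 * n * z := by ring
  have e4 : (v * (n + v + 108) + 108 * n) * z = (v * (n + v + 108) + 108 * n) * (4 * n)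
      + (v * (n + v + 108) + 108 * n) * q := by
    rw [hq]; ring
  omega

theorem bigCase {x N z : ℕ} (_hN1 : 500 * N ≤ x) (hN2 : x < 500 * (N + 1)) (hN20 : 20 ≤ N)
    (hzx : 10 * z ≤ x ^ 2) (hzlow : 4 * (8 * N + 88) + 80 < z) : Big (8 * N + 88) N (-(z : ℤ)) := by
  constructor
  · right
    have : ((4 * (8 * N + 88) + 80 : ℕ) : ℤ) < (z : ℤ) := by exact_mod_cast hzlow
    push_cast at this ⊢
    linarith
  · rw [abs_neg, abs_of_nonneg (by positivity)]
    have h1 := growth2 N hN20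
    have h2 : x ^ 2 ≤ 250000 * (N + 1) ^ 2 := by
      have : x ^ 2 ≤ (500 * (N + 1)) ^ 2 := Nat.pow_le_pow_left hN2.le 2
      calc x ^ 2 ≤ (500 * (N + 1)) ^ 2 := this
        _ = 250000 * (N + 1) ^ 2 := by ring
    have h3 : 44 * (z + 4 * (8 * N + 88 + 20)) < 3 ^ (N + 1) := by
      have h4 : 44 * z ≤ 1100000 * (N + 1) ^ 2 := by
        have a1 : 10 * z ≤ 250000 * (N + 1) ^ 2 := hzx.trans h2
        have a2 : 44 * (10 * z) ≤ 44 * (250000 * (N + 1) ^ 2) := Nat.mul_le_mul_left 44 a1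
        have a3 : 10 * (44 * z) ≤ 10 * (1100000 * (N + 1) ^ 2) := by
          calc 10 * (44 * z) = 44 * (10 * z) := by ring
            _ ≤ 44 * (250000 * (N + 1) ^ 2) := a2
            _ = 10 * (1100000 * (N + 1) ^ 2) := by ring
        exact Nat.le_of_mul_le_mul_left a3 (by norm_num)
      have h5 : 44 * (4 * (8 * N + 88 + 20)) ≤ 100000 * (N + 1) ^ 2 := by nlinarith
      have h6 : 44 * (z + 4 * (8 * N + 88 + 20)) = 44 * z + 44 * (4 * (8 * N + 88 + 20)) := by ring
      rw [h6]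
      calc 44 * z + 44 * (4 * (8 * N + 88 + 20)) ≤ 1100000 * (N + 1) ^ 2 + 100000 * (N + 1) ^ 2 :=
            Nat.add_le_add h4 h5
        _ = 1200000 * (N + 1) ^ 2 := by ring
        _ < 3 ^ (N + 1) := h1
    exact_mod_cast h3

/-- contraction in natural-number form on the negative side -/
theorem negContr {N z : ℕ} (hE : ∀ n ≤ N, EE n) (hz3 : ¬ 3 ∣ z) (hB : Big (8 * N + 88) N (-(z : ℤ))) :
    ∃ n k z' : ℕ, 1 ≤ n ∧ n ≤ 8 * N + 88 ∧ Path n k (-(z : ℤ)) (-(z' : ℤ)) ∧ 0 < z' ∧ ¬ 3 ∣ z' ∧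
      20 * z' ≤ 19 * z ∧ 2 ^ k * (z - 4 * n) ≤ 3 ^ n * z' ∧ 4 * n < z := by
  have hzint : ¬ (3 : ℤ) ∣ -(z : ℤ) := by
    intro hd
    have : (3 : ℤ) ∣ (z : ℤ) := (Int.dvd_neg).1 hd
    exact hz3 (by exact_mod_cast this)
  obtain ⟨n, k, y, hn1, hnJ, hp, hy3, hk, hW⟩ := contraction (N := N) hE hzint hB
  have hz4 : 4 * n < z := by
    rcases hB.1 with h | h
    · exfalso
      have : (0 : ℤ) ≤ z := by positivity
      linarith
    · have h1 : (n : ℤ) ≤ ((8 * N + 88 : ℕ) : ℤ) := by exact_mod_cast hnJ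
      have h2 : (4 * n : ℤ) < z := by linarith
      exact_mod_cast h2
  have hneg : -(z : ℤ) + 4 * n < 0 := by
    have : ((4 * n : ℕ) : ℤ) < (z : ℤ) := by exact_mod_cast hz4
    push_cast at this
    linarith
  have hy : y < 0 := by
    by_contra hc
    push Not at hc
    have h1 : (0 : ℤ) ≤ 3 ^ n * y := by positivity
    have h2 : (2 : ℤ) ^ k * (-(z : ℤ) + 4 * n) < 0 := mul_neg_of_pos_of_neg (by positivity) hneg
    linarith
  obtain ⟨z', hz'⟩ : ∃ z' : ℕ, y = -(z' : ℤ) := ⟨y.natAbs, by omega⟩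
  subst hz'
  have hz'0 : 0 < z' := by omega
  have hz'3 : ¬ 3 ∣ z' := by
    intro hd
    apply hy3
    rw [Int.dvd_neg]
    exact_mod_cast hd
  have hle := path_le hp
  have hWn : 2 ^ k * z ≤ 3 ^ n * z' + 2 ^ k * (4 * n) := by
    have : (2 : ℤ) ^ k * z ≤ 3 ^ n * z' + 2 ^ k * (4 * n) := by linarith
    exact_mod_cast this
  have h20 : 20 * z' ≤ 19 * z := by
    have e : 3 ^ n * (20 * z') ≤ 3 ^ n * (19 * z) := by
      calc 3 ^ n * (20 * z') = 20 * (3 ^ n * z') := by ring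
        _ ≤ 20 * (2 ^ k * z) := Nat.mul_le_mul_left _ hle
        _ = (20 * 2 ^ k) * z := by ring
        _ ≤ (19 * 3 ^ n) * z := Nat.mul_le_mul_right _ hk
        _ = 3 ^ n * (19 * z) := by ring
    exact Nat.le_of_mul_le_mul_left e (by positivity)
  refine ⟨n, k, z', hn1, hnJ, hp, hz'0, hz'3, h20, ?_, hz4⟩
  rw [Nat.mul_sub]
  omega

theorem P2_step (T : ℕ) (hT : 550 ≤ T) (hP : ∀ R, 299 ≤ R → R < T → P2 R) (hE : ∀ n < T, EE n) :
    P2 T := by
  intro z t K hz0 hzg hz3 hlow hup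
  obtain ⟨R, rfl⟩ : ∃ R, T = R + 1 := ⟨T - 1, by omega⟩
  have hx := xx_eq (R + 1)
  have hx' := xx_eq R
  by_cases hz8 : 8 * z ≤ 3 * (xx R ^ 2 / 10)
  · exact upCase (x := xx (R + 1)) (x' := xx R) (by omega) (by omega) (hP R (by omega) (by omega))
      (small2 R (by omega)) hz0 hz3 hz8 hlow hup
  · push Not at hz8
    have hg1 : (xx (R + 1) - 1) ^ 2 ≤ 10 * (xx R ^ 2 / 10) + 9 := by
      have : xx (R + 1) - 1 = xx R := by omega
      rw [this]
      omega
    have hzx : 10 * z ≤ xx (R + 1) ^ 2 := by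
      have h1 := Nat.mul_le_mul_left 10 hzg
      have h2 := Nat.mul_div_le (xx (R + 1) ^ 2) 10
      exact h1.trans h2
    have hN1 : 500 * (xx (R + 1) / 500) ≤ xx (R + 1) := by omega
    have hN2 : xx (R + 1) < 500 * (xx (R + 1) / 500 + 1) := by omega
    have hN20 : 20 ≤ xx (R + 1) / 500 := by omega
    have hNT : xx (R + 1) / 500 < R + 1 := by omega
    have hzlow : 4 * (8 * (xx (R + 1) / 500) + 88) + 80 < z := by
      have h1 : 9000 * xx R ≤ xx R ^ 2 := by
        have : 9000 ≤ xx R := by omega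
        nlinarith
      omega
    obtain ⟨n, k, z', hn1, hnJ, hp, hz'0, hz'3, h20, hWn, hz4⟩ :=
      negContr (N := xx (R + 1) / 500) (fun n hn => hE n (by omega)) hz3
        (bigCase hN1 hN2 hN20 hzx hzlow)
    have hn40 : 40 * n ≤ xx (R + 1) := by omega
    obtain ⟨S, hS⟩ : ∃ S, R + 1 = n + S := ⟨R + 1 - n, by omega⟩
    have hS1 : 299 ≤ S := by omega
    have hxS := xx_eq S
    have hPS := hP S hS1 (by omega)
    unfold P2 at hPS
    have hsm := small2 S hS1
    have hkey := costKey hn40 (by omega) hz8 hg1 hz4.le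
    have hxSn : xx S = xx (R + 1) - n := by omega
    rw [hxSn] at hPS hsm
    have hx9 : 9000 ≤ xx (R + 1) := by omega
    rw [hS] at hlow hup
    rw [hS]
    have hxx : xx (n + S) = xx (R + 1) := by rw [hS]
    rw [hxx] at hlow
    clear hE hP hx hx' hxS hxSn hxx hg1 hN1 hN2 hN20 hNT hzlow hS
    generalize xx (R + 1) = x at *
    refine landC hp hPS hz0 hz'0 ?_ hz'3 (cn := 27 * (x - 108)) (cd := 25 * x) (by omega)
      (by omega) hsm ?_ hlow hup
    · rw [Nat.le_div_iff_mul_le (by norm_num)]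
      have h1 : 19 * x ^ 2 ≤ 20 * (x - n) ^ 2 := by
        obtain ⟨w, rfl⟩ : ∃ w, x = n + w := ⟨x - n, by omega⟩
        have hw2 : n + w - n = w := by omega
        rw [hw2]
        have hnw : 39 * n ≤ w := by omega
        nlinarith
      generalize (x - n) ^ 2 = A at *
      generalize x ^ 2 = B at *
      omega
    · calc 27 * (x - n - 108) * (25 * x) * (2 ^ k * z) = 675 * 2 ^ k * ((x - n - 108) * x * z) := by ring
        _ ≤ 675 * 2 ^ k * ((x - 108) * (x - n) * (z - 4 * n)) := Nat.mul_le_mul_left _ hkey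
        _ = 675 * ((x - 108) * (x - n)) * (2 ^ k * (z - 4 * n)) := by ring
        _ ≤ 675 * ((x - 108) * (x - n)) * (3 ^ n * z') := Nat.mul_le_mul_left _ hWn
        _ = 27 * (x - 108) * (25 * (x - n)) * (3 ^ n * z') := by ring

theorem P2_all : ∀ T : ℕ, 299 ≤ T → P2 T := by
  intro T
  induction T using Nat.strong_induction_on with
  | _ T ih =>
    intro h1
    rcases Nat.lt_or_ge T 550 with h | h
    · exact P2_base T h1 (by omega)
    · refine P2_step T h (fun R hR1 hR2 => ih R hR2 hR1) ?_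
      intro n hn
      rcases Nat.lt_or_ge n 550 with h' | h'
      · exact EE_small n (by omega)
      · exact EE_of_P2 (ih n hn (by omega))

theorem EE_all (n : ℕ) : EE n := by
  rcases Nat.lt_or_ge n 550 with h' | h'
  · exact EE_small n (by omega)
  · exact EE_of_P2 (P2_all n (by omega))

end Pool.Agent.Helper93
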