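import Pool.Agent.Helper93.DataB1
import Pool.Agent.Helper93.DataB2
import Pool.Agent.Helper93.DataB3
import Pool.Agent.Helper93.DataB4
import Pool.Agent.Helper93.DataB5
import Pool.Agent.Helper93.DataB6
import Pool.Agent.Helper93.DataB7
import Pool.Agent.Helper93.DataB8
import Pool.Agent.Helper93.DataM

set_option autoImplicit false
set_option maxRecDepth 100000

namespace Pool.Agent.Helper93

def smallB (T : ℕ) : Bool := Nat.ble (cdd * gt T + 1) (ct T * 3 ^ T)

def loB (lo hi T : ℕ) : Bool := Nat.ble (8 * lo) (3 * gt (T - 1)) && Nat.ble (gt T) hi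

theorem small_all : allB smallB 545 5 = true := by decide +kernel

theorem lo_all1 : allB (loB 4803 164393) 45 47 = true := by decide +kernel

theorem lo_all2 : allB (loB 61647 10000000) 458 92 = true := by decide +kernel

theorem small_of {T : ℕ} (h1 : 5 ≤ T) (h2 : T ≤ 549) : cdd * gt T < ct T * 3 ^ T :=
  Nat.le_of_ble_eq_true (allB_sound _ _ _ small_all T h1 (by omega))

theorem ct_pos_of {T : ℕ} (h1 : 5 ≤ T) (h2 : T ≤ 549) : 0 < ct T := by
  rcases Nat.eq_zero_or_pos (ct T) with h | h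
  · have := small_of h1 h2
    rw [h, Nat.zero_mul] at this
    omega
  · exact h

theorem mkTab0 {T f d : ℕ} (h : walk (chkT gt ct T 0) f d [(1, 1), (1, 2)] = true)
    (h1 : 5 ≤ T) (h2 : T ≤ 549) (H : ∀ R, 5 ≤ R → R < T → Tab gt ct R) : Tab gt ct T := by
  refine ⟨?_, small_of h1 h2⟩
  intro z t K hz0 hzg hz3 hlow hup
  exact tab_of_walk gt ct h (ct_pos_of h1 h2) H z hz0 hzg hz3 t K hlow hup

theorem upTab {T z t K : ℕ} (h1 : 29 ≤ T) (h2 : T ≤ 91) (H : ∀ R, 5 ≤ R → R < T → Tab gt ct R)
    (hz0 : 0 < z) (hz3 : ¬ 3 ∣ z) (hz8 : 8 * z ≤ 3 * gt (T - 1))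
    (hlow : ct T * ((2 * t + 1) * 3 ^ T) ≤ cdd * (2 * (2 ^ K * z)))
    (hup : 1000 * (2 ^ K * z) < VV t * 3 ^ T) : Path T K (-(z : ℤ)) (-(t : ℤ)) := by
  obtain ⟨R, rfl⟩ : ∃ R, T = R + 1 := ⟨T - 1, by omega⟩
  simp only [Nat.add_sub_cancel] at *
  have hR := H R (by omega) (by omega)
  obtain ⟨a1, a2, a3, a4⟩ := stepB_sound (allB_sound _ _ _ st1 R (by omega) (by omega))
  refine upStep hR.1 hz0 hz3 hz8 cdd_pos (ct_pos_of (by omega) (by omega)) hR.2 ?_ hlow hup
  have h3 : 16 * ct (R + 1) + ct R * (3 * gt R + 1) ≤ ct (R + 1) * (3 * gt R + 1) := by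
    have hct' : ct R ≤ ct (R + 1) := by
      by_contra hc
      push Not at hc
      have : 3 * gt R * ct (R + 1) ≤ 3 * gt R * ct R := Nat.mul_le_mul_left _ hc.le
      have hC : 0 < Cinf := by unfold Cinf; norm_num
      omega
    have e1 : ct R * (3 * gt R + 1) = 3 * gt R * ct R + ct R := by ring
    have e2 : ct (R + 1) * (3 * gt R + 1) = 3 * gt R * ct (R + 1) + ct (R + 1) := by ring
    omega
  calc 16 * (ct (R + 1) * cdd) + ct R * cdd * (3 * gt R + 1)
      = cdd * (16 * ct (R + 1) + ct R * (3 * gt R + 1)) := by ring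
    _ ≤ cdd * (ct (R + 1) * (3 * gt R + 1)) := Nat.mul_le_mul_left _ h3
    _ = ct (R + 1) * cdd * (3 * gt R + 1) := by ring

theorem mkTab1 {T lo f d : ℕ} (h : walk (chkT gt ct T lo) f d [(1, 1), (1, 2)] = true)
    (hlo : Nat.ble (8 * lo) (3 * gt (T - 1)) = true)
    (h1 : 29 ≤ T) (h2 : T ≤ 91) (H : ∀ R, 5 ≤ R → R < T → Tab gt ct R) : Tab gt ct T := by
  refine ⟨?_, small_of (by omega) (by omega)⟩
  have hlo := Nat.le_of_ble_eq_true hlo
  intro z t K hz0 hzg hz3 hlow hup
  by_cases hz : z ≤ lo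
  · exact upTab h1 h2 H hz0 hz3 (by omega) hlow hup
  · exact tab_of_walk gt ct h (ct_pos_of (by omega) (by omega)) H z (by omega) hzg hz3 t K hlow hup

theorem baseCase (T : ℕ) (h1 : 5 ≤ T) (h2 : T ≤ 46) (H : ∀ R, 5 ≤ R → R < T → Tab gt ct R) :
    Tab gt ct T := by
  interval_cases T
  · exact mkTab0 b5 (by norm_num) (by norm_num) H
  · exact mkTab0 b6 (by norm_num) (by norm_num) H
  · exact mkTab0 b7 (by norm_num) (by norm_num) H
  · exact mkTab0 b8 (by norm_num) (by norm_num) H
  · exact mkTab0 b9 (by norm_num) (by norm_num) H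
  · exact mkTab0 b10 (by norm_num) (by norm_num) H
  · exact mkTab0 b11 (by norm_num) (by norm_num) H
  · exact mkTab0 b12 (by norm_num) (by norm_num) H
  · exact mkTab0 b13 (by norm_num) (by norm_num) H
  · exact mkTab0 b14 (by norm_num) (by norm_num) H
  · exact mkTab0 b15 (by norm_num) (by norm_num) H
  · exact mkTab0 b16 (by norm_num) (by norm_num) H
  · exact mkTab0 b17 (by norm_num) (by norm_num) H
  · exact mkTab0 b18 (by norm_num) (by norm_num) H
  · exact mkTab0 b19 (by norm_num) (by norm_num) H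
  · exact mkTab0 b20 (by norm_num) (by norm_num) H
  · exact mkTab0 b21 (by norm_num) (by norm_num) H
  · exact mkTab0 b22 (by norm_num) (by norm_num) H
  · exact mkTab0 b23 (by norm_num) (by norm_num) H
  · exact mkTab0 b24 (by norm_num) (by norm_num) H
  · exact mkTab0 b25 (by norm_num) (by norm_num) H
  · exact mkTab0 b26 (by norm_num) (by norm_num) H
  · exact mkTab0 b27 (by norm_num) (by norm_num) H
  · exact mkTab0 b28 (by norm_num) (by norm_num) H
  · exact mkTab1 b29 (by decide +kernel) (by norm_num) (by norm_num) H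
  · exact mkTab1 b30 (by decide +kernel) (by norm_num) (by norm_num) H
  · exact mkTab1 b31 (by decide +kernel) (by norm_num) (by norm_num) H
  · exact mkTab1 b32 (by decide +kernel) (by norm_num) (by norm_num) H
  · exact mkTab1 b33 (by decide +kernel) (by norm_num) (by norm_num) H
  · exact mkTab1 b34 (by decide +kernel) (by norm_num) (by norm_num) H
  · exact mkTab1 b35 (by decide +kernel) (by norm_num) (by norm_num) H
  · exact mkTab1 b36 (by decide +kernel) (by norm_num) (by norm_num) H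
  · exact mkTab1 b37 (by decide +kernel) (by norm_num) (by norm_num) H
  · exact mkTab1 b38 (by decide +kernel) (by norm_num) (by norm_num) H
  · exact mkTab1 b39 (by decide +kernel) (by norm_num) (by norm_num) H
  · exact mkTab1 b40 (by decide +kernel) (by norm_num) (by norm_num) H
  · exact mkTab1 b41 (by decide +kernel) (by norm_num) (by norm_num) H
  · exact mkTab1 b42 (by decide +kernel) (by norm_num) (by norm_num) H
  · exact mkTab1 b43 (by decide +kernel) (by norm_num) (by norm_num) H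
  · exact mkTab1 b44 (by decide +kernel) (by norm_num) (by norm_num) H
  · exact mkTab1 b45 (by decide +kernel) (by norm_num) (by norm_num) H
  · exact mkTab1 b46 (by decide +kernel) (by norm_num) (by norm_num) H

theorem stepTab (T : ℕ) (h1 : 5 ≤ T) (h2 : T ≤ 549) (H : ∀ R, 5 ≤ R → R < T → Tab gt ct R) :
    Tab gt ct T := by
  rcases Nat.lt_or_ge T 47 with h | h
  · exact baseCase T h1 (by omega) H
  rcases Nat.lt_or_ge T 92 with h' | h'
  · refine ⟨?_, small_of h1 h2⟩
    have hl := allB_sound _ _ _ lo_all1 T h (by omega)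
    unfold loB at hl
    rw [Bool.and_eq_true] at hl
    exact phaseI (by norm_num) mt1 (by norm_num) (by omega)
      (fun s hs1 hs2 => allB_sound _ _ _ st1 s (by omega) (by omega))
      (Nat.le_of_ble_eq_true hl.1) (Nat.le_of_ble_eq_true hl.2) (ct_pos_of h1 h2) H
  · refine ⟨?_, small_of h1 h2⟩
    have hl := allB_sound _ _ _ lo_all2 T h' (by omega)
    unfold loB at hl
    rw [Bool.and_eq_true] at hl
    exact phaseI (by norm_num) mt2 (by norm_num) (by omega)
      (fun s hs1 hs2 => allB_sound _ _ _ st2 s (by omega) (by omega))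
      (Nat.le_of_ble_eq_true hl.1) (Nat.le_of_ble_eq_true hl.2) (ct_pos_of h1 h2) H

theorem allTab : ∀ T : ℕ, 5 ≤ T → T ≤ 549 → Tab gt ct T := by
  intro T
  induction T using Nat.strong_induction_on with
  | _ T ih =>
    intro h1 h2
    exact stepTab T h1 h2 (fun R hR1 hR2 => ih R hR2 hR1 (by omega))

end Pool.Agent.Helper93
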