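import Pool.Agent.Helper93.Walk

set_option autoImplicit false

namespace Pool.Agent.Helper93

/-- size of the start values allowed at level `m` -/
def gE (m : ℕ) : ℕ :=
  match m with
  | 0 => 0
  | 1 => 0
  | 2 => 0
  | 3 => 0
  | 4 => 0
  | 5 => 5
  | 6 => 10
  | 7 => 13
  | _ => 22

/-- upper ends of the windows (times 1000) -/
def VV (t : ℕ) : ℕ :=
  match t with
  | 0 => 1080
  | 1 => 2161
  | 2 => 3510
  | 3 => 6125
  | 6 => 8400
  | _ => 0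

theorem gE_le (m : ℕ) : gE m ≤ 22 := by
  unfold gE; split <;> omega

theorem gE_mono {m n : ℕ} (h : m ≤ n) : gE m ≤ gE n := by
  rcases Nat.lt_or_ge n 8 with hn | hn
  · interval_cases n <;> interval_cases m <;> simp [gE]
  · have : gE n = 22 := by
      obtain ⟨k, rfl⟩ := Nat.exists_eq_add_of_le hn
      unfold gE
      split <;> omega
    rw [this]; exact gE_le m

theorem gE_pos {m : ℕ} (h : 0 < gE m) : 5 ≤ m := by
  by_contra hc
  push Not at hc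
  interval_cases m <;> simp [gE] at h

/-- a residue class statement can be checked on the three sub-classes -/
theorem split_lift (Q : ℤ → Prop) (N r : ℕ)
    (h0 : ∀ s : ℤ, Q (((r : ℕ) : ℤ) + 3 ^ (N + 1) * s))
    (h1 : ∀ s : ℤ, Q (((r + 3 ^ N : ℕ) : ℤ) + 3 ^ (N + 1) * s))
    (h2 : ∀ s : ℤ, Q (((r + 3 ^ N + 3 ^ N : ℕ) : ℤ) + 3 ^ (N + 1) * s)) :
    ∀ s : ℤ, Q ((r : ℤ) + 3 ^ N * s) := by
  intro s
  have hs : s = 3 * (s / 3) + s % 3 := by omega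
  have hlt : s % 3 = 0 ∨ s % 3 = 1 ∨ s % 3 = 2 := by omega
  rcases hlt with h | h | h
  · have := h0 (s / 3)
    have e : ((r : ℕ) : ℤ) + 3 ^ (N + 1) * (s / 3) = (r : ℤ) + 3 ^ N * s := by
      rw [pow_succ]; nth_rewrite 2 [hs]; rw [h]; ring
    rwa [e] at this
  · have := h1 (s / 3)
    have e : ((r + 3 ^ N : ℕ) : ℤ) + 3 ^ (N + 1) * (s / 3) = (r : ℤ) + 3 ^ N * s := by
      rw [pow_succ]; nth_rewrite 2 [hs]; rw [h]; push_cast; ring
    rwa [e] at this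
  · have := h2 (s / 3)
    have e : ((r + 3 ^ N + 3 ^ N : ℕ) : ℤ) + 3 ^ (N + 1) * (s / 3) = (r : ℤ) + 3 ^ N * s := by
      rw [pow_succ]; nth_rewrite 2 [hs]; rw [h]; push_cast; ring
    rwa [e] at this

/-- admissible options -/
def Adm (b b' i t : ℕ) : Prop :=
  (i = 0 ∧ t = 0) ∨ (270000 * (2 * t + 1) ≤ 50 * 2 ^ i * b ∧ 1000 * 2 ^ i * b' < VV t * 10000)

def FinF (aL b' i j k : ℕ) (v0 y : ℤ) : Prop :=
  ¬ (3 : ℤ) ∣ y ∧ 20 * 2 ^ (i + k) * b' ≤ 19 * 3 ^ j * aL ∧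
    20 * (3 ^ j * y - 2 ^ k * v0) ≤ 76 * 2 ^ (i + k) * (j : ℤ)

def DeepF (aL aN b' i j k : ℕ) (v0 y : ℤ) : Prop :=
  ∃ z m : ℕ, (3 : ℤ) ^ m ∣ y + z ∧ ¬ 3 ∣ z ∧ 0 < z ∧ z ≤ gE m ∧ m ≤ 20 ∧
    aN * 2 ^ (i + k) * b' ≤ 10000 * z * 3 ^ j * aL ∧
    20 * (3 ^ j * (y + z) - 2 ^ k * v0) ≤ 76 * 2 ^ (i + k) * ((j : ℤ) + m)

/-- the conclusion of one certificate tree -/
def FW (aL aN b b' : ℕ) (v : ℤ) : Prop :=
  ∃ i t j k : ℕ, ∃ y : ℤ, Adm b b' i t ∧ j ≤ 11 ∧ Path j k (2 ^ i * v - t) y ∧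
    (FinF aL b' i j k (2 ^ i * v - t) y ∨ DeepF aL aN b' i j k (2 ^ i * v - t) y)

def FWin (aL aN b b' : ℕ) : Prop := ∀ v : ℤ, ¬ (3 : ℤ) ∣ v → FW aL aN b b' v

def admB (b b' i t : ℕ) : Bool :=
  (Nat.beq i 0 && Nat.beq t 0) ||
    (Nat.ble (270000 * (2 * t + 1)) (50 * 2 ^ i * b) && Nat.ble (1000 * 2 ^ i * b' + 1) (VV t * 10000))

def finB (aL b' i N r y j K : ℕ) : Bool :=
  Nat.ble (j + 1) N && Nat.ble 1 (y % 3) && Nat.ble j 11 &&
    Nat.ble (20 * 2 ^ (i + K) * b') (19 * 3 ^ j * aL) &&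
    Nat.ble (20 * (3 ^ j * y)) (20 * (2 ^ K * r) + 76 * 2 ^ (i + K) * j)

def deepB (aL aN b' i z a N r y j K : ℕ) : Bool :=
  Nat.ble j N && Nat.ble j 11 && Nat.ble N 20 && Nat.beq ((2 ^ a * y + z) % 3 ^ (N - j)) 0 &&
    Nat.ble 1 (z % 3) && Nat.ble z (gE (N - j)) &&
    Nat.ble (aN * 2 ^ (i + (K + a)) * b') (10000 * z * 3 ^ j * aL) &&
    Nat.ble (20 * (3 ^ j * (2 ^ a * y + z))) (20 * (2 ^ (K + a) * r) + 76 * 2 ^ (i + (K + a)) * N)

/-- leaf checker -/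
def chkF (aL aN b b' : ℕ) (N r p : ℕ) : Bool :=
  force (p % 64) fun z =>
  force (p / 64 % 4) fun a =>
  force (p / 256 % 8) fun i =>
  force (p / 2048 % 8) fun t =>
  force (p / 16384) fun w =>
  admB b b' i t &&
  force ((2 ^ i * r + t * (3 ^ N - 1)) % 3 ^ N) fun r' =>
    runY (fun _ y j K => bif Nat.beq z 0 then finB aL b' i N r' y j K
      else deepB aL aN b' i z a N r' y j K) 16 w r' 0 0

theorem chkF_sound (aL aN b b' N r p : ℕ) (h : chkF aL aN b b' N r p = true) :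
    ∀ s : ℤ, FW aL aN b b' ((r : ℤ) + 3 ^ N * s) := by
  intro s
  unfold chkF at h
  simp only [force_eq] at h
  generalize p % 64 = z at h
  generalize p / 64 % 4 = a at h
  generalize p / 256 % 8 = i at h
  generalize p / 2048 % 8 = t at h
  generalize p / 16384 = w at h
  rw [Bool.and_eq_true] at h
  obtain ⟨hadm, hrun⟩ := h
  generalize hr' : (2 ^ i * r + t * (3 ^ N - 1)) % 3 ^ N = r' at hrun
  have hadm' : Adm b b' i t := by
    unfold admB at hadm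
    rw [Bool.or_eq_true, Bool.and_eq_true, Bool.and_eq_true] at hadm
    rcases hadm with ⟨h1, h2⟩ | ⟨h1, h2⟩
    · exact Or.inl ⟨Nat.eq_of_beq_eq_true h1, Nat.eq_of_beq_eq_true h2⟩
    · exact Or.inr ⟨Nat.le_of_ble_eq_true h1, Nat.le_of_ble_eq_true h2⟩
  -- the start value
  have hp3 : 1 ≤ 3 ^ N := Nat.one_le_pow _ _ (by norm_num)
  obtain ⟨S, hS⟩ : ∃ S : ℤ, (2 : ℤ) ^ i * ((r : ℤ) + 3 ^ N * s) - t = r' + 3 ^ N * S := by
    have h1 := Nat.div_add_mod (2 ^ i * r + t * (3 ^ N - 1)) (3 ^ N)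
    rw [hr'] at h1
    have h2 : ((3 ^ N * ((2 ^ i * r + t * (3 ^ N - 1)) / 3 ^ N) + r' : ℕ) : ℤ)
        = ((2 ^ i * r + t * (3 ^ N - 1) : ℕ) : ℤ) := by rw [h1]
    push_cast [Nat.cast_sub hp3] at h2
    refine ⟨((2 ^ i * r + t * (3 ^ N - 1)) / 3 ^ N : ℕ) - t + 2 ^ i * s, ?_⟩
    push_cast [Nat.cast_sub hp3]
    linear_combination (-1 : ℤ) * h2
  obtain ⟨w', y, j, K, hpath, hc⟩ := runY_sound _ _ _ _ _ _ hrun
  rw [Nat.zero_add, Nat.zero_add, cond_eq_ite] at hc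
  split at hc
  · -- fin
    unfold finB at hc
    simp only [Bool.and_eq_true] at hc
    obtain ⟨⟨⟨⟨c1, c2⟩, c3⟩, c4⟩, c5⟩ := hc
    have c1 := Nat.le_of_ble_eq_true c1
    have c2 := Nat.le_of_ble_eq_true c2
    have c3 := Nat.le_of_ble_eq_true c3
    have c4 := Nat.le_of_ble_eq_true c4
    have c5 := Nat.le_of_ble_eq_true c5
    obtain ⟨m, rfl⟩ := Nat.exists_eq_add_of_le c1
    have hpath' := hpath.translate (3 ^ (m + 1) * S)
    have e : (3 : ℤ) ^ j * (3 ^ (m + 1) * S) = 3 ^ (j + 1 + m) * S := by ring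
    rw [e] at hpath'
    refine ⟨i, t, j, K, _, hadm', c3, by rw [hS]; exact hpath', Or.inl ⟨?_, c4, ?_⟩⟩
    · intro hd
      have h1 : (3 : ℤ) ∣ 2 ^ K * (3 ^ (m + 1) * S) :=
        Dvd.dvd.mul_left (Dvd.dvd.mul_right (dvd_pow_self 3 (Nat.succ_ne_zero m)) S) _
      have h2 : (3 : ℤ) ∣ (y : ℤ) := (Int.dvd_add_left h1).1 hd
      omega
    · rw [hS]
      have c5' : (20 : ℤ) * (3 ^ j * y) ≤ 20 * (2 ^ K * r') + 76 * 2 ^ (i + K) * j := by exact_mod_cast c5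
      have e2 : (20 : ℤ) * (3 ^ j * (y + 2 ^ K * (3 ^ (m + 1) * S)) - 2 ^ K * (r' + 3 ^ (j + 1 + m) * S))
          = 20 * (3 ^ j * y) - 20 * (2 ^ K * r') := by ring
      rw [e2]; linarith
  · -- deep
    unfold deepB at hc
    simp only [Bool.and_eq_true] at hc
    obtain ⟨⟨⟨⟨⟨⟨⟨c1, c2⟩, cN⟩, c3⟩, c4⟩, c5⟩, c6⟩, c7⟩ := hc
    have c1 := Nat.le_of_ble_eq_true c1
    have c2 := Nat.le_of_ble_eq_true c2
    have cN := Nat.le_of_ble_eq_true cN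
    have c3 := Nat.eq_of_beq_eq_true c3
    have c4 := Nat.le_of_ble_eq_true c4
    have c5 := Nat.le_of_ble_eq_true c5
    have c6 := Nat.le_of_ble_eq_true c6
    have c7 := Nat.le_of_ble_eq_true c7
    obtain ⟨m, rfl⟩ := Nat.exists_eq_add_of_le c1
    rw [Nat.add_sub_cancel_left] at c3 c5
    have hpath' := (hpath.trans (Path.dbls a y)).translate (3 ^ m * S)
    rw [Nat.add_zero] at hpath'
    have e : (3 : ℤ) ^ j * (3 ^ m * S) = 3 ^ (j + m) * S := by ring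
    rw [e] at hpath'
    refine ⟨i, t, j, K + a, _, hadm', c2, by rw [hS]; exact hpath', Or.inr ⟨z, m, ?_, ?_, ?_, c5, by omega, c6, ?_⟩⟩
    · have h1 : (3 : ℤ) ^ m ∣ ((2 ^ a * y + z : ℕ) : ℤ) := by
        exact_mod_cast Nat.dvd_of_mod_eq_zero c3
      have h2 : (3 : ℤ) ^ m ∣ 2 ^ (K + a) * (3 ^ m * S) :=
        Dvd.dvd.mul_left (Dvd.intro _ rfl) _
      have h3 := dvd_add h1 h2
      push_cast at h3
      have e3 : (2 : ℤ) ^ a * y + z + 2 ^ (K + a) * (3 ^ m * S) = 2 ^ a * y + 2 ^ (K + a) * (3 ^ m * S) + z := by ring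
      rwa [e3] at h3
    · omega
    · omega
    · rw [hS]
      have c7' : (20 : ℤ) * (3 ^ j * (2 ^ a * y + z)) ≤ 20 * (2 ^ (K + a) * r') + 76 * 2 ^ (i + (K + a)) * ((j : ℤ) + m) := by
        exact_mod_cast c7
      have e2 : (20 : ℤ) * (3 ^ j * (2 ^ a * y + 2 ^ (K + a) * (3 ^ m * S) + z) - 2 ^ (K + a) * (r' + 3 ^ (j + m) * S))
          = 20 * (3 ^ j * (2 ^ a * y + z)) - 20 * (2 ^ (K + a) * r') := by ring
      rw [e2]; linarith

theorem FWin_of_walk (aL aN b b' f d : ℕ) (h : walk (chkF aL aN b b') f d [(1, 1), (1, 2)] = true) :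
    FWin aL aN b b' := by
  have key := walk_sound (chkF aL aN b b') (fun N r => ∀ s : ℤ, FW aL aN b b' ((r : ℤ) + 3 ^ N * s))
    (fun N r h0 h1 h2 => split_lift (FW aL aN b b') N r h0 h1 h2)
    (fun N r p hp => chkF_sound aL aN b b' N r p hp) f d _ h
  intro v hv
  have hmod : v % 3 = 1 ∨ v % 3 = 2 := by omega
  rcases hmod with hm | hm
  · have := key (1, 1) (by simp) (v / 3)
    have e : (((1, 1) : ℕ × ℕ).2 : ℤ) + 3 ^ ((1, 1) : ℕ × ℕ).1 * (v / 3) = v := by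
      simp only [Nat.cast_one, pow_one]; omega
    rwa [e] at this
  · have := key (1, 2) (by simp) (v / 3)
    have e : (((1, 2) : ℕ × ℕ).2 : ℤ) + 3 ^ ((1, 2) : ℕ × ℕ).1 * (v / 3) = v := by
      simp only [Nat.cast_ofNat, pow_one]; omega
    rwa [e] at this

end Pool.Agent.Helper93
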