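import Pool.Agent.Helper93.Basic

/-!
Two small interpreters used by the certificates: `runY`/`runZ` execute a word of moves on natural
numbers, `walk` traverses a ternary tree of residue classes modulo powers of 3.
-/

set_option autoImplicit false

namespace Pool.Agent.Helper93

/-- evaluate the argument first -/
def force (d : ℕ) (f : ℕ → Bool) : Bool :=
  match d with
  | 0 => f 0
  | n + 1 => f (Nat.succ n)

theorem force_eq (d : ℕ) (f : ℕ → Bool) : force d f = f d := by
  cases d <;> rfl

/-- run a word (base 16 digits, digit `k+1` codes the move `y ↦ (2^k y + 1)/3`, digit `0` ends). -/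
def runY (cont : ℕ → ℕ → ℕ → ℕ → Bool) : ℕ → ℕ → ℕ → ℕ → ℕ → Bool
  | 0, _, _, _, _ => false
  | f + 1, w, y, j, K =>
    force (Nat.mod w 16) fun d =>
      match d with
      | 0 => cont (Nat.div w 16) y j K
      | k + 1 =>
        force (Nat.mul (Nat.pow 2 k) y) fun v =>
          bif Nat.beq (Nat.mod v 3) 2 then
            force (Nat.div v 3) fun q => force (Nat.div w 16) fun w' =>
              runY cont f w' (Nat.succ q) (Nat.succ j) (Nat.add K k)
          else false

/-- run a word on the other side (digit `k+1` codes the move `z ↦ (2^k z - 1)/3`). -/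
def runZ (cont : ℕ → ℕ → ℕ → ℕ → Bool) : ℕ → ℕ → ℕ → ℕ → ℕ → Bool
  | 0, _, _, _, _ => false
  | f + 1, w, z, j, K =>
    force (Nat.mod w 16) fun d =>
      match d with
      | 0 => cont (Nat.div w 16) z j K
      | k + 1 =>
        force (Nat.mul (Nat.pow 2 k) z) fun v =>
          bif Nat.beq (Nat.mod v 3) 1 then
            force (Nat.div v 3) fun q => force (Nat.div w 16) fun w' =>
              runZ cont f w' q (Nat.succ j) (Nat.add K k)
          else false

theorem runY_sound (cont : ℕ → ℕ → ℕ → ℕ → Bool) :
    ∀ f w y j K : ℕ, runY cont f w y j K = true →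
      ∃ w' y' dj dK : ℕ, Path dj dK (y : ℤ) (y' : ℤ) ∧ cont w' y' (j + dj) (K + dK) = true := by
  intro f
  induction f with
  | zero => intro w y j K h; simp [runY] at h
  | succ f ih =>
    intro w y j K h
    rw [runY, force_eq] at h
    split at h
    · exact ⟨_, y, 0, 0, Path.refl _, h⟩
    · rename_i k _
      rw [force_eq] at h
      rw [cond_eq_ite] at h
      split at h
      · rename_i hm
        rw [force_eq, force_eq] at h
        obtain ⟨w', y', dj, dK, hp, hc⟩ := ih _ _ _ _ h
        refine ⟨w', y', dj + 1, dK + k, ?_, ?_⟩
        · refine Path.prepend_step (v := ((Nat.div (Nat.mul (Nat.pow 2 k) y) 3 + 1 : ℕ) : ℤ)) ?_ hp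
          have hm' : (2 ^ k * y) % 3 = 2 := Nat.eq_of_beq_eq_true hm
          have h2 : 2 ^ k * y + 1 = 3 * ((2 ^ k * y) / 3 + 1) := by omega
          have h3 : Nat.div (Nat.mul (Nat.pow 2 k) y) 3 = (2 ^ k * y) / 3 := rfl
          rw [h3]
          exact_mod_cast h2
        · have e1 : j + (dj + 1) = Nat.succ j + dj := by omega
          have e2 : K + (dK + k) = Nat.add K k + dK := by
            change K + (dK + k) = K + k + dK; omega
          rw [e1, e2]; exact hc
      · exact absurd h (by simp)

theorem runZ_sound (cont : ℕ → ℕ → ℕ → ℕ → Bool) :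
    ∀ f w z j K : ℕ, runZ cont f w z j K = true →
      ∃ w' z' dj dK : ℕ, Path dj dK (-(z : ℤ)) (-(z' : ℤ)) ∧ cont w' z' (j + dj) (K + dK) = true := by
  intro f
  induction f with
  | zero => intro w z j K h; simp [runZ] at h
  | succ f ih =>
    intro w z j K h
    rw [runZ, force_eq] at h
    split at h
    · exact ⟨_, z, 0, 0, Path.refl _, h⟩
    · rename_i k _
      rw [force_eq] at h
      rw [cond_eq_ite] at h
      split at h
      · rename_i hm
        rw [force_eq, force_eq] at h
        obtain ⟨w', z', dj, dK, hp, hc⟩ := ih _ _ _ _ h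
        refine ⟨w', z', dj + 1, dK + k, ?_, ?_⟩
        · refine Path.prepend_step (v := -((Nat.div (Nat.mul (Nat.pow 2 k) z) 3 : ℕ) : ℤ)) ?_ hp
          have hm' : (2 ^ k * z) % 3 = 1 := Nat.eq_of_beq_eq_true hm
          have h2 : 2 ^ k * z = 3 * ((2 ^ k * z) / 3) + 1 := by omega
          have h3 : Nat.div (Nat.mul (Nat.pow 2 k) z) 3 = (2 ^ k * z) / 3 := rfl
          rw [h3]
          have h4 : (2 : ℤ) ^ k * z = 3 * (((2 ^ k * z) / 3 : ℕ) : ℤ) + 1 := by exact_mod_cast h2
          linarith
        · have e1 : j + (dj + 1) = Nat.succ j + dj := by omega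
          have e2 : K + (dK + k) = Nat.add K k + dK := by
            change K + (dK + k) = K + k + dK; omega
          rw [e1, e2]; exact hc
      · exact absurd h (by simp)

/-- tree traversal. The byte stream `d` lists the nodes in preorder: a byte `0` is an inner node
(split the class modulo `3^N` into three), a byte `L > 0` announces a leaf with a payload of `L` bytes. -/
def walk (chk : ℕ → ℕ → ℕ → Bool) : ℕ → ℕ → List (ℕ × ℕ) → Bool
  | 0, _, _ => false
  | f + 1, d, st =>
    match st with
    | [] => true
    | (N, r) :: st' =>
      force (Nat.div d 256) fun e =>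
      force (Nat.mod d 256) fun L =>
        match L with
        | 0 =>
          force (Nat.add r (Nat.pow 3 N)) fun r1 =>
          force (Nat.add r1 (Nat.pow 3 N)) fun r2 =>
            walk chk f e ((Nat.succ N, r) :: (Nat.succ N, r1) :: (Nat.succ N, r2) :: st')
        | l + 1 =>
          force (Nat.mod e (Nat.pow 256 (Nat.succ l))) fun p =>
            bif chk N r p then
              force (Nat.div e (Nat.pow 256 (Nat.succ l))) fun e' => walk chk f e' st'
            else false

theorem walk_sound (chk : ℕ → ℕ → ℕ → Bool) (Good : ℕ → ℕ → Prop)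
    (hsplit : ∀ N r, Good (N + 1) r → Good (N + 1) (r + 3 ^ N) → Good (N + 1) (r + 3 ^ N + 3 ^ N) →
      Good N r)
    (hchk : ∀ N r p, chk N r p = true → Good N r) :
    ∀ f d st, walk chk f d st = true → ∀ x ∈ st, Good x.1 x.2 := by
  intro f
  induction f with
  | zero => intro d st h; simp [walk] at h
  | succ f ih =>
    intro d st h
    cases st with
    | nil => intro x hx; simp at hx
    | cons x st' =>
      obtain ⟨N, r⟩ := x
      rw [walk, force_eq, force_eq] at h
      split at h
      · rw [force_eq, force_eq] at h
        have h1 := ih _ _ h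
        intro x hx
        rcases List.mem_cons.1 hx with rfl | hx
        · refine hsplit N r ?_ ?_ ?_
          · exact h1 (N + 1, r) (by simp)
          · exact h1 (N + 1, r + 3 ^ N) (by right; left)
          · exact h1 (N + 1, r + 3 ^ N + 3 ^ N) (by right; right; left)
        · exact h1 x (by
            right; right; right; exact hx)
      · rw [force_eq] at h
        rw [cond_eq_ite] at h
        split at h
        · rename_i hc
          rw [force_eq] at h
          have h1 := ih _ _ h
          intro x hx
          rcases List.mem_cons.1 hx with rfl | hx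
          · exact hchk _ _ _ hc
          · exact h1 x hx
        · exact absurd h (by simp)

end Pool.Agent.Helper93
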